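import Pool.Agent.H99.FI.Chain

/-!
# Job T (MP_bdd10f_pr): touching an explored set (helper32)
-/

set_option autoImplicit false

namespace FI

open Finset Function
open scoped Classical

variable {V : Type*} {G : SimpleGraph V} {d : ℕ}

/-- adding a ball around a point of a closed set -/
theorem Clo.union_ball (hG : G.IsTree) {r : V} {A B : Finset V} (hA : Clo G r A)
    (hB : Clo G r B) {v : V} (hv : v ∈ A) (R : ℕ) :
    Clo G r (A ∪ B.filter (fun u => G.dist v u ≤ R)) := by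
  refine ⟨Finset.mem_union_left _ hA.1, fun u hu w huw hd => ?_⟩
  rcases Finset.mem_union.mp hu with hu | hu
  · exact Finset.mem_union_left _ (hA.2 u hu w huw hd)
  · rw [Finset.mem_filter] at hu
    have hwB : w ∈ B := hB.2 u hu.1 w huw hd
    by_cases hw : G.dist v w ≤ R
    · exact Finset.mem_union_right _ (Finset.mem_filter.mpr ⟨hwB, hw⟩)
    · apply Finset.mem_union_left
      have h1 : G.dist v w = G.dist v u + 1 := by
        rcases dist_adj hG v huw with h | h <;> omega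
      have h2 := dist_sep hG huw h1 hd
      refine hA.geodesic hG hv (w := w) ?_
      rw [SimpleGraph.dist_comm (u := r) (v := v), h2, SimpleGraph.dist_comm (u := w) (v := v), h1,
        SimpleGraph.dist_comm (u := r) (v := w)]
      omega

namespace PT

variable {T : PT G d}

/-- a closed set does not meet the branch beyond a boundary dart -/
theorem not_byd_of_clo (hG : G.IsTree) {r : V} {A : Finset V} (hA : Clo G r A) {a : Dart V d}
    (ha : a.1 ∈ A) (haw : (T.N0 a).1 ∉ A) {v : V} (hv : v ∈ A) : ¬ T.Byd a v := by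
  intro hb
  have h1 : G.dist r (T.N0 a).1 = G.dist r a.1 + 1 := hA.closer hG ha haw (T.adj a).symm
  have h2 := dist_sep hG (T.adj a) h1 hb
  exact haw (hA.geodesic hG hv (by rw [h1, h2]))

/-- closed sets are convex -/
theorem cvx_of_clo (T : PT G d) (hG : G.IsTree) {r : V} {A : Finset V} (hA : Clo G r A) :
    Cvx G A := by
  intro s hs
  refine ⟨hs, fun v hv w hvw hd => ?_⟩
  by_contra hw
  obtain ⟨i, hi⟩ := T.surj v w hvw
  exact not_byd_of_clo (T := T) hG hA (a := (v, i)) hv (by rw [hi]; exact hw) hs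
    (by unfold Byd; rw [hi]; exact hd)

/-- distance to a point beyond a boundary dart -/
theorem dist_of_byd (hG : G.IsTree) {r : V} {A : Finset V} (hA : Clo G r A) {a : Dart V d}
    (ha : a.1 ∈ A) (haw : (T.N0 a).1 ∉ A) {t : V} (ht : T.Byd a t) {v : V} (hv : v ∈ A) :
    G.dist t v = G.dist t a.1 + G.dist a.1 v := by
  have h1 := (not_byd_iff hG a v).mp (not_byd_of_clo hG hA ha haw hv)
  have h2 := dist_sep hG (T.adj a) h1 ht
  have h3 : G.dist t a.1 = G.dist t (T.N0 a).1 + 1 := ht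
  rw [SimpleGraph.dist_comm (u := t) (v := v), h2, h3, SimpleGraph.dist_comm (u := (T.N0 a).1),
    SimpleGraph.dist_comm (u := v)]
  omega

/-- the boundary dart towards a point is unique -/
theorem bdry_unique (hG : G.IsTree) {r : V} {A : Finset V} (hA : Clo G r A) {a a' : Dart V d}
    (ha : a.1 ∈ A) (haw : (T.N0 a).1 ∉ A) (ha' : a'.1 ∈ A) (haw' : (T.N0 a').1 ∉ A) {t : V}
    (ht : T.Byd a t) (ht' : T.Byd a' t) : a = a' := by
  have h1 := dist_of_byd hG hA ha haw ht ha'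
  have h2 := dist_of_byd hG hA ha' haw' ht' ha
  have h3 : G.dist a.1 a'.1 = 0 := by
    rw [SimpleGraph.dist_comm (u := a'.1)] at h2
    omega
  have h4 : a.1 = a'.1 := (hG.connected.dist_eq_zero_iff).mp h3
  obtain ⟨v, i⟩ := a
  obtain ⟨w, j⟩ := a'
  simp only at h4
  subst h4
  rw [byd_inj hG ht ht']

/-- existence of the boundary dart towards a point -/
theorem exists_bdry (T : PT G d) (hG : G.IsTree) {r : V} {A B : Finset V} (hA : Clo G r A)
    (hB : Cvx G B) (hAB : A ⊆ B) {t : V} (ht : t ∈ B) (htA : t ∉ A) :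
    ∃ a : Dart V d, a.1 ∈ A ∧ (T.N0 a).1 ∉ A ∧ (T.N0 a).1 ∈ B ∧ T.Byd a t := by
  obtain ⟨v, hv, hvm⟩ := Finset.exists_min_image A (fun v => G.dist t v) ⟨r, hA.1⟩
  have hne : v ≠ t := fun h => htA (h ▸ hv)
  obtain ⟨i, hi⟩ := exists_byd (T := T) hG hne
  have hi' : G.dist t v = G.dist t (T.N0 (v, i)).1 + 1 := hi
  refine ⟨(v, i), hv, fun h => ?_, (hB t ht).2 v (hAB hv) _ (T.adj (v, i)) hi', hi⟩
  have := hvm _ h
  omega

/-- the path from `(N0 a).1` towards `t`, `n + 1` vertices -/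
noncomputable def pth (T : PT G d) [NeZero d] (t : V) : ℕ → Dart V d → Finset V
  | 0, a => {(T.N0 a).1}
  | n + 1, a => insert (T.N0 a).1 (pth T t n (T.nxt t a))

theorem pth_card [NeZero d] (t : V) (n : ℕ) (a : Dart V d) : (T.pth t n a).card ≤ n + 1 := by
  induction n generalizing a with
  | zero => simp [pth]
  | succ n ih =>
    rw [pth]
    exact (Finset.card_insert_le _ _).trans (Nat.succ_le_succ (ih _))

theorem fst_mem_pth [NeZero d] (t : V) (n : ℕ) (a : Dart V d) : (T.N0 a).1 ∈ T.pth t n a := by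
  cases n with
  | zero => simp [pth]
  | succ n => simp [pth]

theorem nxt_dist [NeZero d] (hG : G.IsTree) {t : V} {n : ℕ} {a : Dart V d}
    (hn : G.dist (T.N0 a).1 t = n + 1) :
    (T.N0 a).1 ≠ t ∧ T.Byd (T.nxt t a) t ∧ G.dist (T.N0 (T.nxt t a)).1 t = n := by
  have hne : (T.N0 a).1 ≠ t := by
    intro h
    rw [h, SimpleGraph.dist_self] at hn
    omega
  have hb : T.Byd (T.nxt t a) t := tow_byd (T := T) hG hne
  refine ⟨hne, hb, ?_⟩
  have h2 : G.dist t (T.N0 a).1 = G.dist t (T.N0 (T.nxt t a)).1 + 1 := hb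
  rw [SimpleGraph.dist_comm] at hn
  rw [SimpleGraph.dist_comm]
  omega

theorem pth_props [NeZero d] (hG : G.IsTree) {r t : V} {B : Finset V} (hB : Cvx G B)
    (ht : t ∈ B) (n : ℕ) (a : Dart V d) (A : Finset V) (hA : Clo G r A) (haA : a.1 ∈ A)
    (hn : G.dist (T.N0 a).1 t = n) (haB : (T.N0 a).1 ∈ B) (hb : T.Byd a t) :
    Clo G r (A ∪ T.pth t n a) ∧ t ∈ T.pth t n a ∧ T.pth t n a ⊆ B ∧
      ∀ u ∈ T.pth t n a, G.dist a.1 u + G.dist u t = G.dist a.1 t := by
  have hda : G.dist a.1 t = G.dist (T.N0 a).1 t + 1 := by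
    rw [SimpleGraph.dist_comm, SimpleGraph.dist_comm (u := (T.N0 a).1)]
    exact hb
  have hd1 : G.dist a.1 (T.N0 a).1 = 1 := SimpleGraph.dist_eq_one_iff_adj.mpr (T.adj a)
  induction n generalizing a A with
  | zero =>
    have h0 : (T.N0 a).1 = t := (hG.connected.dist_eq_zero_iff).mp hn
    refine ⟨?_, by simp [pth, h0], by simpa [pth] using haB, fun u hu => ?_⟩
    · have : A ∪ T.pth t 0 a = insert (T.N0 a).1 A := by
        rw [pth, Finset.union_comm]; rfl
      rw [this]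
      exact hA.insert hG haA (T.adj a).symm
    · rw [pth, Finset.mem_singleton] at hu
      subst hu
      rw [hda, hd1, hn]
  | succ n ih =>
    obtain ⟨hne, hb', hdn⟩ := nxt_dist hG hn
    have hX : Clo G r (insert (T.N0 a).1 A) := hA.insert hG haA (T.adj a).symm
    have hB' : (T.N0 (T.nxt t a)).1 ∈ B := (hB t ht).2 (T.N0 a).1 haB _ (T.adj (T.nxt t a)) hb'
    have hda' : G.dist (T.nxt t a).1 t = G.dist (T.N0 (T.nxt t a)).1 t + 1 := by
      rw [SimpleGraph.dist_comm, SimpleGraph.dist_comm (u := (T.N0 (T.nxt t a)).1)]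
      exact hb'
    obtain ⟨h1, h2, h3, h4⟩ := ih (T.nxt t a) (insert (T.N0 a).1 A) hX
      (Finset.mem_insert_self _ _) hdn hB' hb' hda'
      (SimpleGraph.dist_eq_one_iff_adj.mpr (T.adj _))
    refine ⟨?_, ?_, ?_, fun u hu => ?_⟩
    · have : A ∪ T.pth t (n + 1) a = insert (T.N0 a).1 A ∪ T.pth t n (T.nxt t a) := by
        rw [pth, Finset.union_insert, Finset.insert_union]
      rw [this]
      exact h1
    · rw [pth]; exact Finset.mem_insert_of_mem h2
    · rw [pth]; exact Finset.insert_subset haB h3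
    · rw [pth, Finset.mem_insert] at hu
      rcases hu with rfl | hu
      · rw [hda, hd1]; omega
      · have h5 := h4 u hu
        have h6 : (T.nxt t a).1 = (T.N0 a).1 := rfl
        rw [h6] at h5
        have t1 : G.dist a.1 u ≤ G.dist a.1 (T.N0 a).1 + G.dist (T.N0 a).1 u :=
          hG.connected.dist_triangle
        have t2 : G.dist a.1 t ≤ G.dist a.1 u + G.dist u t := hG.connected.dist_triangle
        omega

/-- conditioning on a larger explored set -/
theorem EE_mul_le (hG : G.IsTree) (hd : 1 ≤ d) {ε : Dart V d → ℝ} (hε : WOK ε) {r : V}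
    {A A₁ B : Finset V} (hA : Clo G r A) (hA₁ : Clo G r A₁) (hB : Clo G r B) (hAA : A ⊆ A₁)
    (hAB : A₁ ⊆ B) {H F : Cfg V d → ℝ} (hH : NoDep (T.cA B A₁) H) (hH0 : ∀ ω, 0 ≤ H ω)
    {M : ℝ} {ω₀ : Cfg V d} (hc : T.ConsOn (T.EB A) ω₀)
    (hM : ∀ ω, Off (T.cA B A) ω₀ ω → T.ConsOn (T.EB A₁) ω → T.EE ε B A₁ F ω ≤ M) :
    T.EE ε B A (fun ω => H ω * F ω) ω₀ ≤ M * T.EE ε B A H ω₀ := by
  rw [← EE_tower hG hd ε hA hA₁ hB hAA hAB (fun ω => H ω * F ω) ω₀]
  have h1 : T.EE ε B A₁ (fun ω => H ω * F ω) = fun ω => H ω * T.EE ε B A₁ F ω :=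
    funext fun ω => EE_mul_left ε B A₁ hH F ω
  rw [h1]
  have h2 : M * T.EE ε B A H ω₀ = T.EE ε B A (fun ω => M * H ω) ω₀ :=
    (congrFun (EE_smul ε B A M H) ω₀).symm
  rw [h2]
  refine EE_mono_cons B A hε ω₀ fun ω hO hcons => ?_
  rw [mul_comm M]
  refine mul_le_mul_of_nonneg_left (hM ω hO fun c hc' hu => ?_) (hH0 ω)
  by_cases hcA : c ∈ T.EB A
  · have hag := ag_of_off (T := T) hO
    have hcA' := T.mem_EB.mp hcA
    rw [hag.col hcA'.1, hag.col hcA'.2.2]
    exact hc c hcA (by rw [← hag.2 c hcA]; exact hu)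
  · exact hcons c (T.EB_mono hAB hc') hcA hu

/-- a full configuration which is consistent outside `A` and agrees with a consistent one on `A` -/
theorem cons_of_off {A B : Finset V} {ω₀ ω : Cfg V d} (hc : T.ConsOn (T.EB A) ω₀)
    (hO : Off (T.cA B A) ω₀ ω)
    (hcons : ∀ e ∈ T.EB B, e ∉ T.EB A → ω.2 e = true → col ω.1 e = col ω.1 (T.N0 e)) :
    Cons (T.nof B ω.2) ω.1 := by
  rw [cons_iff]
  intro c hcB hu
  by_cases hcA : c ∈ T.EB A
  · have hag := ag_of_off (T := T) hO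
    have hcA' := T.mem_EB.mp hcA
    rw [hag.col hcA'.1, hag.col hcA'.2.2]
    exact hc c hcA (by rw [← hag.2 c hcA]; exact hu)
  · exact hcons c hcB hcA hu

/-- if the repair region is not covered by the complement of `A`, and `A` is far, then the colours
on the path are compatible -/
theorem PC_of_not_clX [NeZero d] (hG : G.IsTree) {r : V} {A B : Finset V} (hA : Clo G r A)
    {e : Dart V d} (he : e ∈ T.EB B) (he1 : e.1 ∉ A) (he2 : (T.N0 e).1 ∉ A) {a : Dart V d}
    (ha : a.1 ∈ A) (haw : (T.N0 a).1 ∉ A) (hb : T.Byd a (T.N0 e).1) {n : ℕ}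
    (hn : G.dist (T.N0 a).1 (T.N0 e).1 = n) {ω : Cfg V d} (hcons : Cons (T.nof B ω.2) ω.1)
    (h : ¬ T.ClX B e (B \ A) ω) : T.PC (T.N0 e) n a ω := by
  have heB := T.mem_EB.mp he
  obtain ⟨c, m, f, hf, hX, hc, hcB, hcX, hne⟩ := exists_exit
    (Finset.mem_sdiff.mpr ⟨heB.1, he1⟩) (Finset.mem_sdiff.mpr ⟨heB.2.2, he2⟩) h
  have hcA : (T.N0 c).1 ∈ A := by
    by_contra h'
    exact hcX (Finset.mem_sdiff.mpr ⟨hcB, h'⟩)
  have hfX := (Finset.mem_sdiff.mp (hX m le_rfl f hf)).2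
  have hcf : c.1 = f.1 := by rw [hc]; rfl
  have hkl : col ω.1 e ≠ col ω.1 (T.N0 e) := by
    intro h'
    apply hne
    unfold sw
    rw [h', Equiv.swap_self]
    rfl
  unfold sw at hf hc hne
  have hcolc : col ω.1 c = Equiv.swap (col ω.1 e) (col ω.1 (T.N0 e)) (col ω.1 f) := by
    rw [hc, col_dt']
  have hpd := pos_dist hG hcons hkl (Or.inr rfl) hf
  have hnc : ¬ T.Byd c (T.N0 e).1 := by
    intro hbc
    cases m with
    | zero =>
      have h1 : G.dist (T.N0 e).1 c.1 = G.dist (T.N0 e).1 (T.N0 c).1 + 1 := hbc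
      rw [hcf, SimpleGraph.dist_comm, hpd.1] at h1
      omega
    | succ m =>
      obtain ⟨g, _, _, _, _, _, hbf⟩ := pos_prev hG hcons hkl (Or.inr rfl) hf
      have h1 : c = f := by
        have h2 : T.tow f.1 (T.N0 e).1 = c := tow_eq hG hcf hbc
        have h3 : T.tow f.1 (T.N0 e).1 = f := tow_eq hG rfl hbf
        rw [← h2, h3]
      rw [h1] at hcolc
      exact hne hcolc.symm
  have hbc : T.Byd (T.N0 c) (T.N0 e).1 := by
    unfold Byd
    rw [T.inv]
    exact (not_byd_iff hG c _).mp hnc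
  have hca : a = T.N0 c := bdry_unique hG hA ha haw hcA (by rw [T.inv, hcf]; exact hfX) hb hbc
  refine PC_of_Tch hG hkl hcons (Or.inr rfl) hn hb ⟨m, f, hf, ?_, ?_⟩
  · rw [hca, T.inv, hcf]
  · rw [hca, T.inv]; exact hc.symm

/-- probability of compatible colours on the path to a boundary dart -/
theorem PC_prob' [NeZero d] (hG : G.IsTree) (hd : 3 ≤ d) {ε : Dart V d → ℝ} (hε : WOK ε)
    {εl : ℝ} (hεl : ∀ e, εl ≤ ε e) {r : V} {A B : Finset V} (hA : Clo G r A) (hB : Cvx G B)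
    (hAB : A ⊆ B) {b : Dart V d} (hbB : b.1 ∈ B) {a : Dart V d} (ha : a.1 ∈ A)
    (haw : (T.N0 a).1 ∉ A) (haB : (T.N0 a).1 ∈ B) (hb : T.Byd a b.1) {n : ℕ}
    (hn : G.dist (T.N0 a).1 b.1 = n) (ω : Cfg V d) :
    T.EE ε B A (fun ω => if T.PC b n a ω then (1 : ℝ) else 0) ω ≤
      ((1 - εl) / ((d : ℝ) - 1)) ^ n := by
  have hrB := hB r (hAB hA.1)
  have hX : Clo G r (insert (T.N0 a).1 A) := hA.insert hG ha (T.adj a).symm
  have hXB : insert (T.N0 a).1 A ⊆ B := Finset.insert_subset haB hAB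
  have hport : (T.N0 a).1 ≠ b.1 → (T.nxt b.1 a).2 ≠ (T.N0 a).2 := by
    intro hne h
    have h1 : T.nxt b.1 a = T.N0 a := Prod.ext rfl h
    have h3 : T.Byd (T.nxt b.1 a) b.1 := tow_byd (T := T) hG hne
    rw [h1] at h3
    unfold Byd at h3 hb
    rw [T.inv] at h3
    omega
  rw [← EE_tower hG (by omega) ε hA hX hrB (Finset.subset_insert _ _) hXB]
  refine (EE_mono B A hε (F' := fun _ => ((1 - εl) / ((d : ℝ) - 1)) ^ n) (fun ω' => ?_) ω).trans
    (le_of_eq (EE_const hG (by omega) ε hA hrB hAB _ ω))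
  refine PC_prob hG hd hε hεl hB hbB n _ hX hXB a (Finset.mem_insert_self _ _) hn (hAB hA.1)
    (fun u hu hne hbu => ?_) hport ω'
  rcases Finset.mem_insert.mp hu with rfl | hu
  · exact not_byd_fst (T.nxt b.1 a) hbu
  · exact not_byd_of_clo hG hA ha haw hu (byd_of_next hG (hport hne) hbu).1

end PT

theorem sum_union_le' {γ : V → ℝ} (hγ : ∀ v, 0 ≤ γ v) (s t : Finset V) :
    ∑ v ∈ s ∪ t, γ v ≤ ∑ v ∈ s, γ v + ∑ v ∈ t, γ v := by
  rw [← Finset.sum_union_inter]
  have := Finset.sum_nonneg (s := s ∩ t) fun v _ => hγ v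
  linarith

open PT in
/-- Job T. For an explored set `A` and an edge `e` there is an explored set `A₁ ⊇ A` containing the
ball of radius `2M+J+2` around `e.1` and the path from `A` to `e`, of controlled size, and the
probability (given `A`) that the repair at `e` touches `A` decays exponentially. -/
theorem touch_bound [NeZero d] (hd : 3 ≤ d) (hG : G.IsTree) (T : PT G d) (P : Par)
    {ε : Dart V d → ℝ} (hε : WOK ε) {εl : ℝ} (hεl : ∀ e, εl ≤ ε e) (hεl0 : 0 ≤ εl) (hεl1 : εl < 1)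
    {r : V} {A B : Finset V} (hA : Clo G r A) (hB : Cvx G B) (hAB : A ⊆ B)
    {e : Dart V d} (he : e ∈ T.EB B) (γ : V → ℝ) (hγ : ∀ v, 0 ≤ γ v) :
    ∃ (A₁ : Finset V) (v₀ : V), v₀ ∈ A ∧ Clo G r A₁ ∧ A ⊆ A₁ ∧ A₁ ⊆ B ∧ e.1 ∈ A₁ ∧
      (T.N0 e).1 ∈ A₁ ∧ (∀ v ∈ B, G.dist e.1 v ≤ 2 * P.M + P.J + 2 → v ∈ A₁) ∧
      A₁.card ≤ A.card + G.dist v₀ e.1 +
        (B.filter (fun v => G.dist e.1 v ≤ 2 * P.M + P.J + 2)).card ∧
      ∑ v ∈ A₁, γ v ≤ ∑ v ∈ A, γ v +
        ∑ u ∈ B.filter (fun u => G.dist v₀ u + G.dist u e.1 = G.dist v₀ e.1), γ u +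
        ∑ u ∈ B.filter (fun u => G.dist e.1 u ≤ 2 * P.M + P.J + 2), γ u ∧
      ∀ (F : Cfg V d → ℝ) (_ : ∀ ω, 0 ≤ F ω) (M : ℝ) (_ : 0 ≤ M) (ω₀ : Cfg V d)
        (_ : T.ConsOn (T.EB A) ω₀)
        (_ : ∀ ω, Off (T.cA B A) ω₀ ω → T.ConsOn (T.EB A₁) ω → T.EE ε B A₁ F ω ≤ M),
        T.EE ε B A (fun ω => if ω.2 e = false ∧ ¬ T.Cov P B e (B \ A) ω then F ω else 0) ω₀ ≤
          (((d : ℝ) - 1) / (1 - εl)) ^ (2 * P.M + P.J + 5) *
            (((1 - εl) / ((d : ℝ) - 1)) ^ G.dist v₀ e.1 * M) := by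
  have hd1 : (2 : ℝ) ≤ (d : ℝ) - 1 := by
    have : (3 : ℝ) ≤ d := by exact_mod_cast hd
    linarith
  have hrB := hB r (hAB hA.1)
  have heB := T.mem_EB.mp he
  have hd2 : G.dist e.1 (T.N0 e).1 = 1 := SimpleGraph.dist_eq_one_iff_adj.mpr (T.adj e)
  set R := 2 * P.M + P.J + 2 with hR
  set q := (1 - εl) / ((d : ℝ) - 1) with hq
  have hq0 : 0 < q := div_pos (by linarith) (by linarith)
  have hq1 : q ≤ 1 := by
    rw [hq, div_le_one (by linarith)]
    linarith
  have hqi : ((d : ℝ) - 1) / (1 - εl) = q⁻¹ := by rw [hq, inv_div]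
  have hRR : 2 * P.M + P.J + 5 = R + 3 := by omega
  rw [hqi, hRR]
  -- numerical facts
  have hnum : ∀ n m : ℕ, n ≤ R + 3 + m → ∀ M : ℝ, 0 ≤ M → q ^ m * M ≤ q⁻¹ ^ (R + 3) * (q ^ n * M) := by
    intro n m hnm M hM
    have h1 : q ^ (R + 3 + m) ≤ q ^ n := pow_le_pow_of_le_one hq0.le hq1 hnm
    have h2 : q ^ m = q⁻¹ ^ (R + 3) * q ^ (R + 3 + m) := by
      rw [pow_add q (R + 3) m, ← mul_assoc, ← mul_pow, inv_mul_cancel₀ hq0.ne', one_pow, one_mul]
    rw [h2, mul_assoc]
    exact mul_le_mul_of_nonneg_left (mul_le_mul_of_nonneg_right h1 hM) (by positivity)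
  -- the trivial bound
  have htriv : ∀ (A₁ : Finset V), Clo G r A₁ → A ⊆ A₁ → A₁ ⊆ B → ∀ (F : Cfg V d → ℝ)
      (_ : ∀ ω, 0 ≤ F ω) (M : ℝ) (_ : 0 ≤ M) (ω₀ : Cfg V d) (_ : T.ConsOn (T.EB A) ω₀)
      (_ : ∀ ω, Off (T.cA B A) ω₀ ω → T.ConsOn (T.EB A₁) ω → T.EE ε B A₁ F ω ≤ M),
      T.EE ε B A (fun ω => if ω.2 e = false ∧ ¬ T.Cov P B e (B \ A) ω then F ω else 0) ω₀ ≤
        M := by
    intro A₁ hA₁ hAA hA₁B F hF M hM ω₀ hc hFM
    have h1 := EE_mul_le (T := T) hG (by omega) hε hA hA₁ hrB hAA hA₁B (H := fun _ => 1)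
      (fun _ _ _ => rfl) (fun _ => zero_le_one) hc hFM
    rw [EE_one hG (by omega) ε hA hrB hAB, mul_one] at h1
    refine le_trans (EE_mono B A hε (fun ω => ?_) ω₀) h1
    rw [one_mul]
    split_ifs
    · exact le_rfl
    · exact hF ω
  by_cases heA : e.1 ∈ A
  · -- the edge is at the explored set
    refine ⟨A ∪ B.filter (fun u => G.dist e.1 u ≤ R), e.1, heA, hA.union_ball hG hrB heA R,
      Finset.subset_union_left, Finset.union_subset hAB (Finset.filter_subset _ _),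
      Finset.mem_union_left _ heA, Finset.mem_union_right _ (Finset.mem_filter.mpr
        ⟨heB.2.2, by omega⟩), fun v hv h => Finset.mem_union_right _ (Finset.mem_filter.mpr
        ⟨hv, h⟩), ?_, ?_, ?_⟩
    · rw [SimpleGraph.dist_self, add_zero]
      exact Finset.card_union_le _ _
    · have h1 := sum_union_le' hγ A (B.filter (fun u => G.dist e.1 u ≤ R))
      have h2 : 0 ≤ ∑ u ∈ B.filter (fun u => G.dist e.1 u + G.dist u e.1 = G.dist e.1 e.1), γ u :=
        Finset.sum_nonneg fun v _ => hγ v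
      linarith
    · intro F hF M hM ω₀ hc hFM
      refine (htriv _ (hA.union_ball hG hrB heA R) Finset.subset_union_left
        (Finset.union_subset hAB (Finset.filter_subset _ _)) F hF M hM ω₀ hc hFM).trans ?_
      have := hnum (G.dist e.1 e.1) 0 (by rw [SimpleGraph.dist_self]; omega) M hM
      rwa [pow_zero, one_mul] at this
  · -- the edge is away from the explored set
    obtain ⟨a, ha, haw, haB, hb⟩ := T.exists_bdry hG hA hB hAB heB.1 heA
    have hae : G.dist a.1 e.1 = G.dist (T.N0 a).1 e.1 + 1 := by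
      rw [SimpleGraph.dist_comm, SimpleGraph.dist_comm (u := (T.N0 a).1)]
      exact hb
    obtain ⟨hp1, hp2, hp3, hp4⟩ := pth_props hG hB heB.1 _ a A hA ha rfl haB hb
    set Q := T.pth e.1 (G.dist (T.N0 a).1 e.1) a with hQ
    have hQc : Q.card ≤ G.dist a.1 e.1 := by rw [hae]; exact pth_card _ _ _
    have heQ : e.1 ∈ A ∪ Q := Finset.mem_union_right _ hp2
    have hcl : Clo G r ((A ∪ Q) ∪ B.filter (fun u => G.dist e.1 u ≤ R)) :=
      hp1.union_ball hG hrB heQ R
    have hsubB : (A ∪ Q) ∪ B.filter (fun u => G.dist e.1 u ≤ R) ⊆ B :=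
      Finset.union_subset (Finset.union_subset hAB hp3) (Finset.filter_subset _ _)
    have hAsub : A ⊆ (A ∪ Q) ∪ B.filter (fun u => G.dist e.1 u ≤ R) :=
      Finset.subset_union_left.trans Finset.subset_union_left
    have he2 : (T.N0 e).1 ∈ (A ∪ Q) ∪ B.filter (fun u => G.dist e.1 u ≤ R) :=
      Finset.mem_union_right _ (Finset.mem_filter.mpr ⟨heB.2.2, by omega⟩)
    refine ⟨(A ∪ Q) ∪ B.filter (fun u => G.dist e.1 u ≤ R), a.1, ha, hcl, hAsub, hsubB,
      Finset.mem_union_left _ heQ, he2, fun v hv h => Finset.mem_union_right _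
        (Finset.mem_filter.mpr ⟨hv, h⟩), ?_, ?_, ?_⟩
    · refine (Finset.card_union_le _ _).trans ?_
      have := Finset.card_union_le A Q
      omega
    · have h1 := sum_union_le' hγ (A ∪ Q) (B.filter (fun u => G.dist e.1 u ≤ R))
      have h2 := sum_union_le' hγ A Q
      have h3 : ∑ v ∈ Q, γ v ≤
          ∑ u ∈ B.filter (fun u => G.dist a.1 u + G.dist u e.1 = G.dist a.1 e.1), γ u :=
        Finset.sum_le_sum_of_subset_of_nonneg
          (fun u hu => Finset.mem_filter.mpr ⟨hp3 hu, hp4 u hu⟩) fun v _ _ => hγ v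
      linarith
    · intro F hF M hM ω₀ hc hFM
      by_cases hsmall : G.dist a.1 e.1 ≤ R + 3
      · refine (htriv _ hcl hAsub hsubB F hF M hM ω₀ hc hFM).trans ?_
        have := hnum (G.dist a.1 e.1) 0 (by omega) M hM
        rwa [pow_zero, one_mul] at this
      · push Not at hsmall
        -- distances from the explored set
        have hfar : ∀ v ∈ A, G.dist a.1 e.1 ≤ G.dist e.1 v := by
          intro v hv
          rw [dist_of_byd hG hA ha haw hb hv, SimpleGraph.dist_comm (u := a.1)]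
          omega
        have he2A : (T.N0 e).1 ∉ A := by
          intro h
          have := hfar _ h
          omega
        have hb2 : T.Byd a (T.N0 e).1 := by
          by_contra hnb
          rw [not_byd_iff hG] at hnb
          have h1 := dist_sep hG (T.adj a) hnb hb
          rw [SimpleGraph.dist_comm (u := (T.N0 e).1) (v := e.1), hd2] at h1
          omega
        have hn' : G.dist a.1 e.1 ≤ G.dist (T.N0 a).1 (T.N0 e).1 + 2 := by
          have h1 : G.dist (T.N0 a).1 e.1 ≤ G.dist (T.N0 a).1 (T.N0 e).1 +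
            G.dist (T.N0 e).1 e.1 := hG.connected.dist_triangle
          rw [SimpleGraph.dist_comm (u := (T.N0 e).1) (v := e.1), hd2] at h1
          omega
        have hPCdep : NoDep (T.cA B ((A ∪ Q) ∪ B.filter (fun u => G.dist e.1 u ≤ R)))
            (fun ω => if T.PC (T.N0 e) (G.dist (T.N0 a).1 (T.N0 e).1) a ω then (1 : ℝ) else 0) := by
          intro ω ω' hO
          have hag := ag_of_off (T := T) hO
          have := PC_noDep_aux hG (T.cvx_of_clo hG hcl) he2 rfl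
            (Finset.mem_union_left _ (Finset.mem_union_right _ (fst_mem_pth _ _ a))) hag.1 hag.2
          simp only [this]
        have h1 := EE_mul_le (T := T) hG (by omega) hε hA hcl hrB hAsub hsubB hPCdep
          (fun ω => by split_ifs <;> simp) hc hFM
        have h2 := PC_prob' (T := T) hG hd hε hεl hA hB hAB heB.2.2 ha haw haB hb2 rfl ω₀
        refine le_trans (le_trans (EE_mono_cons B A hε ω₀ fun ω hO hcons => ?_) h1) ?_
        · have hcc := cons_of_off hc hO hcons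
          by_cases hcase : ω.2 e = false ∧ ¬ T.Cov P B e (B \ A) ω
          · rw [if_pos hcase, if_pos, one_mul]
            refine PC_of_not_clX hG hA he heA he2A ha haw hb2 rfl hcc ?_
            intro hclX
            refine hcase.2 ((cov_iff P B e _ ω).mpr ⟨fun v hv hdv => ?_, hclX⟩)
            refine Finset.mem_sdiff.mpr ⟨hv, fun hvA => ?_⟩
            have := hfar v hvA
            omega
          · rw [if_neg hcase]
            refine mul_nonneg ?_ (hF ω)
            split_ifs <;> simp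
        · refine le_trans (mul_le_mul_of_nonneg_left h2 hM) ?_
          rw [mul_comm]
          exact hnum _ _ (by omega) M hM

end FI
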