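import Pool.Agent.H99.FI.Metric

/-!
# FI: the potential of the influence lemma
-/

set_option autoImplicit false

namespace FI

open Finset Function
open scoped Classical

variable {V : Type*} {G : SimpleGraph V} {d : ℕ}

/-- sum over a path -/
noncomputable def pS (G : SimpleGraph V) (B : Finset V) (γ : V → ℝ) (v u : V) : ℝ :=
  ∑ x ∈ B.filter (fun x => G.dist v x + G.dist x u = G.dist v u), γ x

/-- weight of the vertex `v` in the exponent -/
noncomputable def wL (G : SimpleGraph V) (q : ℝ) (L : List (Dart V d)) (v : V) : ℝ :=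
  (L.map (fun e => q ^ G.dist v e.1)).sum

/-- weight of the vertex `v` in the linear factor -/
noncomputable def gL (G : SimpleGraph V) (q b : ℝ) (B : Finset V) (γ : V → ℝ)
    (L : List (Dart V d)) (v : V) : ℝ :=
  γ v + b * (L.map (fun e => q ^ G.dist v e.1 * (pS G B γ v e.1 + γ e.1))).sum

/-- the potential -/
noncomputable def Psi (G : SimpleGraph V) (q a b : ℝ) (B : Finset V) (γ : V → ℝ)
    (L : List (Dart V d)) (A : Finset V) : ℝ :=
  Real.exp (a * ∑ v ∈ A, wL G q L v) * ∑ v ∈ A, gL G q b B γ L v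

variable {q a b : ℝ} {B : Finset V} {γ : V → ℝ}

theorem pS_nonneg (hγ : ∀ v, 0 ≤ γ v) (v u : V) : 0 ≤ pS G B γ v u :=
  Finset.sum_nonneg fun x _ => hγ x

theorem wL_nonneg (hq : 0 ≤ q) (L : List (Dart V d)) (v : V) : 0 ≤ wL G q L v := by
  refine List.sum_nonneg fun x hx => ?_
  rw [List.mem_map] at hx
  obtain ⟨e, _, rfl⟩ := hx
  positivity

theorem gsum_nonneg (hq : 0 ≤ q) (hγ : ∀ v, 0 ≤ γ v) (L : List (Dart V d)) (v : V) :
    0 ≤ (L.map (fun e => q ^ G.dist v e.1 * (pS G B γ v e.1 + γ e.1))).sum := by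
  refine List.sum_nonneg fun x hx => ?_
  rw [List.mem_map] at hx
  obtain ⟨e, _, rfl⟩ := hx
  exact mul_nonneg (pow_nonneg hq _) (add_nonneg (pS_nonneg hγ _ _) (hγ _))

theorem gL_ge (hq : 0 ≤ q) (hb : 0 ≤ b) (hγ : ∀ v, 0 ≤ γ v) (L : List (Dart V d)) (v : V) :
    γ v ≤ gL G q b B γ L v := by
  unfold gL
  have := mul_nonneg hb (gsum_nonneg (G := G) (B := B) hq hγ L v)
  linarith

theorem gL_nonneg (hq : 0 ≤ q) (hb : 0 ≤ b) (hγ : ∀ v, 0 ≤ γ v) (L : List (Dart V d)) (v : V) :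
    0 ≤ gL G q b B γ L v := (hγ v).trans (gL_ge hq hb hγ L v)

theorem wL_cons (e : Dart V d) (L : List (Dart V d)) (v : V) :
    wL G q (e :: L) v = q ^ G.dist v e.1 + wL G q L v := by
  unfold wL
  simp

theorem gL_cons (e : Dart V d) (L : List (Dart V d)) (v : V) :
    gL G q b B γ (e :: L) v =
      gL G q b B γ L v + b * (q ^ G.dist v e.1 * (pS G B γ v e.1 + γ e.1)) := by
  unfold gL
  simp only [List.map_cons, List.sum_cons]
  ring

theorem Psi_nonneg (hq : 0 ≤ q) (hb : 0 ≤ b) (hγ : ∀ v, 0 ≤ γ v) (L : List (Dart V d))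
    (A : Finset V) : 0 ≤ Psi G q a b B γ L A :=
  mul_nonneg (Real.exp_pos _).le (Finset.sum_nonneg fun v _ => gL_nonneg hq hb hγ L v)

/-- growth of the potential with the explored set -/
theorem Psi_le_of_subset (hq : 0 ≤ q) (hb : 0 ≤ b) (hγ : ∀ v, 0 ≤ γ v)
    {K : ℝ} (hK : 1 ≤ K) {L : List (Dart V d)}
    (hw : ∀ v, Real.exp (a * wL G q L v) ≤ K)
    (hg : ∀ v, gL G q b B γ L v ≤ 2 * γ v) {A X : Finset V} (hAX : A ⊆ X) :
    Psi G q a b B γ L X ≤
      (2 * Real.exp (a * ∑ v ∈ A, wL G q L v) / K ^ A.card) * (K ^ X.card *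
        ((∑ v ∈ A, gL G q b B γ L v - ∑ v ∈ A, γ v) + ∑ v ∈ X, γ v)) := by
  have hK0 : 0 < K := by linarith
  unfold Psi
  have h1 : ∑ v ∈ X, wL G q L v = ∑ v ∈ X \ A, wL G q L v + ∑ v ∈ A, wL G q L v :=
    (Finset.sum_sdiff hAX).symm
  have h2 : ∑ v ∈ X, gL G q b B γ L v = ∑ v ∈ X \ A, gL G q b B γ L v +
      ∑ v ∈ A, gL G q b B γ L v := (Finset.sum_sdiff hAX).symm
  have h3 : ∑ v ∈ X, γ v = ∑ v ∈ X \ A, γ v + ∑ v ∈ A, γ v := (Finset.sum_sdiff hAX).symm
  have h4 : Real.exp (a * ∑ v ∈ X \ A, wL G q L v) ≤ K ^ (X \ A).card := by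
    rw [Finset.mul_sum, Real.exp_sum]
    calc ∏ v ∈ X \ A, Real.exp (a * wL G q L v) ≤ ∏ _v ∈ X \ A, K :=
          Finset.prod_le_prod (fun v _ => (Real.exp_pos _).le) (fun v _ => hw v)
      _ = K ^ (X \ A).card := by rw [Finset.prod_const]
  have h5 : K ^ X.card = K ^ A.card * K ^ (X \ A).card := by
    rw [← pow_add]
    congr 1
    have := Finset.card_sdiff_add_card_eq_card hAX
    omega
  have h6 : ∑ v ∈ X \ A, gL G q b B γ L v ≤ 2 * ∑ v ∈ X \ A, γ v := by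
    rw [Finset.mul_sum]
    exact Finset.sum_le_sum fun v _ => hg v
  have h7 : ∑ v ∈ A, γ v ≤ ∑ v ∈ A, gL G q b B γ L v :=
    Finset.sum_le_sum fun v _ => gL_ge hq hb hγ L v
  have h8 : 0 ≤ ∑ v ∈ A, γ v := Finset.sum_nonneg fun v _ => hγ v
  have h9 : 0 ≤ ∑ v ∈ X \ A, γ v := Finset.sum_nonneg fun v _ => hγ v
  have hexp : Real.exp (a * (∑ v ∈ X \ A, wL G q L v + ∑ v ∈ A, wL G q L v)) =
      Real.exp (a * ∑ v ∈ X \ A, wL G q L v) * Real.exp (a * ∑ v ∈ A, wL G q L v) := by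
    rw [mul_add, Real.exp_add]
  rw [h1, h2, h3, h5, hexp]
  have hKA : 0 < K ^ A.card := by positivity
  calc Real.exp (a * ∑ v ∈ X \ A, wL G q L v) * Real.exp (a * ∑ v ∈ A, wL G q L v) *
        (∑ v ∈ X \ A, gL G q b B γ L v + ∑ v ∈ A, gL G q b B γ L v) ≤
        K ^ (X \ A).card * Real.exp (a * ∑ v ∈ A, wL G q L v) *
        (2 * ∑ v ∈ X \ A, γ v + 2 * ∑ v ∈ A, gL G q b B γ L v) := by
          refine mul_le_mul ?_ ?_ ?_ ?_
          · exact mul_le_mul_of_nonneg_right h4 (Real.exp_pos _).le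
          · linarith
          · exact add_nonneg (Finset.sum_nonneg fun v _ => gL_nonneg hq hb hγ L v)
              (Finset.sum_nonneg fun v _ => gL_nonneg hq hb hγ L v)
          · positivity
    _ = _ := by
          field_simp
          ring

/-- one more edge -/
theorem Psi_step (hq : 0 ≤ q) (ha : 0 ≤ a) (hb : 0 ≤ b) (hγ : ∀ v, 0 ≤ γ v)
    {L : List (Dart V d)} (e : Dart V d) {A : Finset V} {v₀ : V} (hv₀ : v₀ ∈ A) :
    Psi G q a b B γ L A + Real.exp (a * ∑ v ∈ A, wL G q L v) *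
      (a * q ^ G.dist v₀ e.1 * ∑ v ∈ A, gL G q b B γ L v +
        b * q ^ G.dist v₀ e.1 * (pS G B γ v₀ e.1 + γ e.1)) ≤
      Psi G q a b B γ (e :: L) A := by
  unfold Psi
  simp only [wL_cons, gL_cons, Finset.sum_add_distrib]
  set W := ∑ v ∈ A, wL G q L v with hW
  set Γ := ∑ v ∈ A, gL G q b B γ L v with hΓ
  set E := ∑ v ∈ A, q ^ G.dist v e.1 with hE
  set D := q ^ G.dist v₀ e.1 with hD
  have h1 : D ≤ E := Finset.single_le_sum (f := fun v => q ^ G.dist v e.1)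
    (fun v _ => pow_nonneg hq _) hv₀
  have h2 : b * D * (pS G B γ v₀ e.1 + γ e.1) ≤
      ∑ v ∈ A, b * (q ^ G.dist v e.1 * (pS G B γ v e.1 + γ e.1)) := by
    refine le_trans (le_of_eq ?_) (Finset.single_le_sum
      (f := fun v => b * (q ^ G.dist v e.1 * (pS G B γ v e.1 + γ e.1)))
      (fun v _ => mul_nonneg hb (mul_nonneg (pow_nonneg hq _)
        (add_nonneg (pS_nonneg hγ _ _) (hγ _)))) hv₀)
    ring
  have hD0 : 0 ≤ D := pow_nonneg hq _
  have hΓ0 : 0 ≤ Γ := Finset.sum_nonneg fun v _ => gL_nonneg hq hb hγ L v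
  have hP0 : 0 ≤ pS G B γ v₀ e.1 + γ e.1 := add_nonneg (pS_nonneg hγ _ _) (hγ _)
  have h3 : 1 + a * D ≤ Real.exp (a * E) := by
    have := Real.add_one_le_exp (a * E)
    nlinarith [mul_le_mul_of_nonneg_left h1 ha]
  have hee : Real.exp (a * (E + W)) = Real.exp (a * E) * Real.exp (a * W) := by
    rw [mul_add, Real.exp_add]
  rw [hee]
  have hexp : 0 ≤ Real.exp (a * W) := (Real.exp_pos _).le
  set S := ∑ v ∈ A, b * (q ^ G.dist v e.1 * (pS G B γ v e.1 + γ e.1)) with hS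
  set Q := pS G B γ v₀ e.1 + γ e.1 with hQ
  have hbDQ : 0 ≤ b * D * Q := mul_nonneg (mul_nonneg hb hD0) hP0
  calc Real.exp (a * W) * Γ + Real.exp (a * W) * (a * D * Γ + b * D * Q)
      = Real.exp (a * W) * ((1 + a * D) * Γ + b * D * Q) := by ring
    _ ≤ Real.exp (a * W) * ((1 + a * D) * (Γ + S)) := by
        refine mul_le_mul_of_nonneg_left ?_ hexp
        have : b * D * Q ≤ (1 + a * D) * S := by
          have h5 : 0 ≤ a * D := mul_nonneg ha hD0
          nlinarith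
        nlinarith
    _ ≤ Real.exp (a * W) * (Real.exp (a * E) * (Γ + S)) := by
        refine mul_le_mul_of_nonneg_left (mul_le_mul_of_nonneg_right h3 ?_) hexp
        linarith
    _ = Real.exp (a * E) * Real.exp (a * W) * (Γ + S) := by ring

end FI
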