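import Pool.Agent.H99.FI.Inf.Core
import Pool.Agent.H99.FI.Inf.Psi
import Pool.Agent.H99.FI.Inf.Cover

/-!
# FI: the influence lemma, main induction
-/

set_option autoImplicit false

namespace FI

open Finset Function
open scoped Classical

variable {V : Type*} {G : SimpleGraph V} {d : ℕ}

/-- numerical hypotheses of the influence lemma -/
structure InfNum (T : PT G d) (P : Par) (B : Finset V) (o : V) (γ : V → ℝ)
    (εl K t₀ CT C₄ a b p : ℝ) (Nb : ℕ) : Prop where
  εl0 : 0 ≤ εl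
  εl1 : εl < 1
  K1 : 1 ≤ K
  t1 : 1 ≤ t₀
  ht : εl * K + (1 - εl) * K * t₀ ≤ t₀
  γ0 : ∀ v, 0 ≤ γ v
  γo : 1 ≤ γ o
  CT0 : 0 ≤ CT
  hTh : ∀ x : Dart V d, T.Th B (K * (1 - εl) / ((d : ℝ) - 1)) γ x ≤ CT * γ x.1
  hNb : ∀ v, (B.filter (fun x => G.dist v x ≤ 2 * P.M + P.J + 2)).card ≤ Nb
  C₄1 : 1 ≤ C₄
  hC₄ : ∀ v, ∑ x ∈ B.filter (fun x => G.dist v x ≤ 2 * P.M + P.J + 2), γ x ≤ C₄ * γ v
  p0 : 0 ≤ p
  p1 : p ≤ 1
  a0 : 0 ≤ a
  b0 : 0 ≤ b
  ha : p * ((((d : ℝ) - 1) / (1 - εl)) ^ (2 * P.M + P.J + 5) *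
    (2 * (t₀ * (1 + CT)) ^ 2 * K ^ Nb)) ≤ a
  hb : p * ((((d : ℝ) - 1) / (1 - εl)) ^ (2 * P.M + P.J + 5) *
    (2 * (t₀ * (1 + CT)) ^ 2 * K ^ Nb)) * C₄ ≤ b

namespace PT

variable {T : PT G d}

/-- the loss function: the states at `o` differ -/
noncomputable def lo (o : V) (ω ω' : Cfg V d) : ℝ := if ω.1 o = ω'.1 o then 0 else 1

theorem VP_nonneg {p : ℝ} (hp0 : 0 ≤ p) (hp1 : p ≤ 1) (K : ℕ)
    (R R' : Dart V d → ℕ → Cfg V d → Cfg V d) (L : List (Dart V d))
    {F : Cfg V d → Cfg V d → ℝ} (hF : ∀ ω ω', 0 ≤ F ω ω') (ω ω' : Cfg V d) :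
    0 ≤ VP p K R R' L F ω ω' := by
  induction L generalizing ω ω' with
  | nil => exact hF ω ω'
  | cons e L ih =>
    simp only [VP]
    have h1 : 0 ≤ ∑ ξ ∈ range K, VP p K R R' L F (R e ξ ω) (R' e ξ ω') :=
      Finset.sum_nonneg fun ξ _ => ih _ _
    have h2 := ih ω ω'
    have h3 : 0 ≤ 1 - p := by linarith
    positivity

theorem lo_nonneg (o : V) (ω ω' : Cfg V d) : 0 ≤ lo o ω ω' := by
  unfold lo; split_ifs <;> norm_num

theorem claim [NeZero d] (hd : 3 ≤ d) (hG : G.IsTree) (P : Par) (hKP : 0 < P.K)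
    {B : Finset V} (hB : Cvx G B) {o : V} {γ : V → ℝ} {εl K t₀ CT C₄ a b p : ℝ} {Nb : ℕ}
    (N : InfNum T P B o γ εl K t₀ CT C₄ a b p Nb)
    (L : List (Dart V d)) (hL : L.Nodup) (hLB : ∀ e ∈ L, e ∈ T.EB B)
    (hw : ∀ v, Real.exp (a * wL G (K * (1 - εl) / ((d : ℝ) - 1)) L v) ≤ K)
    (hg : ∀ v, gL G (K * (1 - εl) / ((d : ℝ) - 1)) b B γ L v ≤ 2 * γ v)
    (ε : Dart V d → ℝ) (hε : WOK ε) (hεl : ∀ e, εl ≤ if e ∈ L then ε e * (1 - p) else ε e)
    {r : V} {A : Finset V} (hA : Clo G r A) (hAB : A ⊆ B)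
    {ρ ω₀ : Cfg V d} (hω₀ : T.ConsOn (T.EB A) ω₀) (hρ : T.ConsOn (T.EB A) ρ)
    (hbd : T.BdC B A ρ ω₀) (h3 : ∀ e ∈ L, e ∈ T.EB A → ρ.2 e = ω₀.2 e) :
    T.EE ε B A (fun ω => VP p P.K (T.hit P B) (T.hit P B) L (lo o) ω (T.pt A ρ ω)) ω₀ ≤
      Psi G (K * (1 - εl) / ((d : ℝ) - 1)) a b B γ L A := by
  have hd1 : (0 : ℝ) < (d : ℝ) - 1 := by
    have : (3 : ℝ) ≤ d := by exact_mod_cast hd
    linarith
  have hKPR : (0 : ℝ) < P.K := by exact_mod_cast hKP
  have hεl1 : 0 < 1 - εl := by linarith [N.εl1]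
  have hK0 : 0 < K := by linarith [N.K1]
  set q := K * (1 - εl) / ((d : ℝ) - 1) with hq
  have hq0 : 0 ≤ q := by rw [hq]; positivity
  induction L generalizing ε A ρ ω₀ with
  | nil =>
    have h1 : T.EE ε B A (fun ω => VP p P.K (T.hit P B) (T.hit P B) [] (lo o) ω
        (T.pt A ρ ω)) ω₀ ≤ T.EE ε B A (fun _ => if o ∈ A then 1 else 0) ω₀ := by
      refine EE_mono B A hε (fun ω => ?_) ω₀
      simp only [VP, lo]
      by_cases ho : o ∈ A
      · rw [if_pos ho]
        split_ifs <;> norm_num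
      · rw [if_neg ho, pt_fst_out ho]
        simp
    refine h1.trans ?_
    rw [EE_const hG (by omega) ε hA (hB r (hAB hA.1)) hAB]
    unfold Psi wL gL
    simp only [List.map_nil, List.sum_nil, Finset.sum_const_zero, mul_zero, Real.exp_zero, one_mul,
      add_zero]
    split_ifs with ho
    · exact N.γo.trans (Finset.single_le_sum (fun v _ => N.γ0 v) ho)
    · exact Finset.sum_nonneg fun v _ => N.γ0 v
  | cons e L ih =>
    rw [List.nodup_cons] at hL
    have he : e ∈ T.EB B := hLB e (by simp)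
    have heB := T.mem_EB.mp he
    have hp0 := N.p0
    have hp1 := N.p1
    -- hypotheses for the tail
    have hw' : ∀ v, Real.exp (a * wL G q L v) ≤ K := by
      intro v
      refine le_trans ?_ (hw v)
      rw [Real.exp_le_exp, wL_cons]
      have : 0 ≤ q ^ G.dist v e.1 := pow_nonneg hq0 _
      exact mul_le_mul_of_nonneg_left (by linarith) N.a0
    have hg' : ∀ v, gL G q b B γ L v ≤ 2 * γ v := by
      intro v
      refine le_trans ?_ (hg v)
      rw [gL_cons]
      have := mul_nonneg N.b0 (mul_nonneg (pow_nonneg hq0 (G.dist v e.1))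
        (add_nonneg (pS_nonneg (G := G) (B := B) N.γ0 v e.1) (N.γ0 e.1)))
      linarith
    have hεl' : ∀ c, εl ≤ if c ∈ L then ε c * (1 - p) else ε c := by
      intro c
      have h1 := hεl c
      by_cases hce : c = e
      · subst hce
        rw [if_pos (by simp)] at h1
        rw [if_neg hL.1]
        have := (hε c).1
        nlinarith
      · by_cases hcL : c ∈ L
        · rw [if_pos (by simp [hcL])] at h1
          rwa [if_pos hcL]
        · rw [if_neg (by simp [hce, hcL])] at h1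
          rwa [if_neg hcL]
    have hεl0 : ∀ c, εl ≤ ε c := by
      intro c
      refine (hεl' c).trans ?_
      split_ifs
      · have := (hε c).1
        nlinarith
      · exact le_rfl
    set ε' : Dart V d → ℝ := Function.update ε e (ε e * (1 - p)) with hε'
    have hWε' : WOK ε' := by
      intro c
      by_cases hce : c = e
      · subst hce
        rw [hε', Function.update_self]
        have := hε c
        constructor
        · exact mul_nonneg this.1 (by linarith)
        · nlinarith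
      · rw [hε', Function.update_of_ne hce]
        exact hε c
    have hεl'' : ∀ c, εl ≤ if c ∈ L then ε' c * (1 - p) else ε' c := by
      intro c
      by_cases hce : c = e
      · subst hce
        have h1 := hεl c
        rw [if_pos (by simp)] at h1
        rw [if_neg hL.1, hε', Function.update_self]
        exact h1
      · rw [hε', Function.update_of_ne hce]
        exact hεl' c
    set W : Cfg V d → Cfg V d → ℝ :=
      fun ω ω' => VP p P.K (T.hit P B) (T.hit P B) L (lo o) ω ω' with hW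
    have hW0 : ∀ ω ω', 0 ≤ W ω ω' := fun ω ω' =>
      VP_nonneg hp0 hp1 _ _ _ _ (lo_nonneg o) _ _
    set g : Cfg V d → ℝ := fun ω => W ω (T.pt A ρ ω) with hgdef
    have h3' : ∀ c ∈ L, c ∈ T.EB A → ρ.2 c = ω₀.2 c := fun c hc => h3 c (by simp [hc])
    have hIHmain : T.EE ε' B A g ω₀ ≤ Psi G q a b B γ L A :=
      ih hL.2 (fun c hc => hLB c (by simp [hc])) ε' hWε' hεl'' hA hAB hω₀ hρ hbd h3' hw' hg'
    set F : Cfg V d → ℝ := T.PF P B A ρ e W with hF
    have hF0 : ∀ ω, 0 ≤ F ω := by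
      intro ω
      rw [hF]
      unfold PF
      split_ifs
      · exact mul_nonneg (by positivity) (Finset.sum_nonneg fun ξ _ => hW0 _ _)
      · exact le_rfl
    -- decomposition
    have hdecomp : T.EE ε B A (fun ω => VP p P.K (T.hit P B) (T.hit P B) (e :: L) (lo o) ω
        (T.pt A ρ ω)) ω₀ ≤ Psi G q a b B γ L A + p * T.EE ε B A
        (fun ω => if ω.2 e = false ∧ ¬ T.Cov P B e (B \ A) ω then F ω else 0) ω₀ := by
      by_cases heA : e ∈ T.EB A
      · -- the edge is inside `A`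
        have heA1 := (T.mem_EB.mp heA).1
        have h1 : T.EE ε B A (fun ω => VP p P.K (T.hit P B) (T.hit P B) (e :: L) (lo o) ω
            (T.pt A ρ ω)) ω₀ ≤ T.EE ε B A (fun ω => g ω + p *
            (if ω.2 e = false ∧ ¬ T.Cov P B e (B \ A) ω then F ω else 0)) ω₀ := by
          refine EE_mono_off B A hε ω₀ fun ω hO => ?_
          have hag := ag_of_off hO
          simp only [VP]
          by_cases hcut : ω.2 e = false
          · have hncov : ¬ T.Cov P B e (B \ A) ω := by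
              intro h
              have := h.1 e.1 heB.1 (by simp)
              exact (Finset.mem_sdiff.mp this).2 heA1
            rw [if_pos ⟨hcut, hncov⟩, hF]
            unfold PF
            rw [if_pos hcut]
            have : 0 ≤ W ω (T.pt A ρ ω) := hW0 _ _
            have h2 : (1 - p) * W ω (T.pt A ρ ω) ≤ W ω (T.pt A ρ ω) := by nlinarith
            exact add_le_add h2 (le_refl _)
          · have hun : ω.2 e = true := by simpa using hcut
            have hun' : (T.pt A ρ ω).2 e = true := by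
              rw [pt_snd_in heA, h3 e (by simp) heA, ← hag.2 e heA]
              exact hun
            rw [if_neg (fun h => hcut h.1)]
            have h2 : ∀ ξ, VP p P.K (T.hit P B) (T.hit P B) L (lo o) (T.hit P B e ξ ω)
                (T.hit P B e ξ (T.pt A ρ ω)) = W ω (T.pt A ρ ω) := by
              intro ξ
              rw [T.hit_uncut P B e ξ hun, T.hit_uncut P B e ξ hun']
            simp only [h2, Finset.sum_const, Finset.card_range, nsmul_eq_mul]
            have h4 : (1 / (P.K : ℝ)) * ((P.K : ℝ) * W ω (T.pt A ρ ω)) = W ω (T.pt A ρ ω) := by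
              field_simp
            rw [h4]
            have h5 : VP p P.K (T.hit P B) (T.hit P B) L (lo o) ω (T.pt A ρ ω) =
                W ω (T.pt A ρ ω) := rfl
            rw [h5, hgdef]
            simp only [mul_zero, add_zero]
            linarith
        refine h1.trans ?_
        rw [congrFun (EE_add ε B A _ _) ω₀, congrFun (EE_smul ε B A p _) ω₀]
        refine add_le_add ?_ (le_refl _)
        rw [congrFun (EE_eps_congr (ε := ε) (ε' := ε') B A (fun c _ hcA => ?_) g) ω₀]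
        · exact hIHmain
        · have : c ≠ e := fun h => hcA (h ▸ heA)
          rw [hε', Function.update_of_ne this]
      · -- the edge is not inside `A`
        have h1 : T.EE ε B A (fun ω => VP p P.K (T.hit P B) (T.hit P B) (e :: L) (lo o) ω
            (T.pt A ρ ω)) ω₀ ≤ T.EE ε B A (fun ω => ((1 - p) * g ω + p *
            (if ω.2 e = false ∧ ¬ T.Cov P B e (B \ A) ω then 0 else
              (1 / (P.K : ℝ)) * ∑ ξ ∈ range P.K, g (T.hit P B e ξ ω))) + p *
            (if ω.2 e = false ∧ ¬ T.Cov P B e (B \ A) ω then F ω else 0)) ω₀ := by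
          refine EE_mono_cons B A hε ω₀ fun ω hO hc => ?_
          have hag := ag_of_off hO
          have hcc := cons_off99 hO hω₀ hc
          simp only [VP]
          by_cases hcut : ω.2 e = false
          · by_cases hcov : T.Cov P B e (B \ A) ω
            · rw [if_neg (fun h => h.2 hcov), if_neg (fun h => h.2 hcov), mul_zero, add_zero]
              refine add_le_add (le_refl _) (mul_le_mul_of_nonneg_left ?_ hp0)
              refine mul_le_mul_of_nonneg_left (Finset.sum_le_sum fun ξ _ => ?_) (by positivity)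
              rw [(hit_far hd hG P he hcut (hbd.of_ag hag) hρ hcc hcov ξ).1]
            · rw [if_pos ⟨hcut, hcov⟩, if_pos ⟨hcut, hcov⟩, mul_zero, add_zero, hF]
              unfold PF
              rw [if_pos hcut]
          · have hun : ω.2 e = true := by simpa using hcut
            have hun' : (T.pt A ρ ω).2 e = true := by
              rw [pt_snd_out heA]; exact hun
            rw [if_neg (fun h => hcut h.1), if_neg (fun h => hcut h.1), mul_zero, add_zero]
            refine add_le_add (le_refl _) (mul_le_mul_of_nonneg_left ?_ hp0)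
            refine mul_le_mul_of_nonneg_left (Finset.sum_le_sum fun ξ _ => ?_) (by positivity)
            rw [T.hit_uncut P B e ξ hun, T.hit_uncut P B e ξ hun']
        refine h1.trans ?_
        rw [congrFun (EE_add ε B A _ _) ω₀, congrFun (EE_smul ε B A p _) ω₀]
        refine add_le_add ?_ (le_refl _)
        refine le_trans ?_ hIHmain
        refine law_step_le hd hG P hKP he heA ε hε p hp0 g (fun ω => hW0 _ _)
          (fun ω => T.Cov P B e (B \ A) ω) ω₀ hω₀ ?_
        intro ω hcov hO hcc hcut ξ v hv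
        have := (hit_far hd hG P he hcut (hbd.of_ag (ag_of_off hO)) hρ hcc hcov ξ).2 v hv
        rwa [T.hit_cut P B e ξ hcut] at this
    refine hdecomp.trans ?_
    -- the touching part
    obtain ⟨A₁, v₀, hv₀, hA₁, hAA, hA₁B, he1, he2, hball, hcard, hsum, hbound⟩ :=
      touch_bound hd hG T P hε hεl0 N.εl0 N.εl1 hA hB hAB he γ N.γ0
    set Γ := ∑ v ∈ A, gL G q b B γ L v with hΓ
    set Wd := ∑ v ∈ A, wL G q L v with hWd
    set c := Γ - ∑ v ∈ A, γ v with hc
    have hc0 : 0 ≤ c := by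
      rw [hc, sub_nonneg]
      exact Finset.sum_le_sum fun v _ => gL_ge hq0 N.b0 N.γ0 L v
    set M₀ : ℝ := 2 * Real.exp (a * Wd) / K ^ A.card with hM₀
    have hM₀0 : 0 ≤ M₀ := by rw [hM₀]; positivity
    set C₁ := t₀ * (1 + CT) with hC₁
    have hC₁0 : 0 ≤ C₁ := mul_nonneg (by linarith [N.t1]) (by linarith [N.CT0])
    have htwo : ∀ ω, Off (T.cA B A) ω₀ ω → T.ConsOn (T.EB A₁) ω →
        T.EE ε B A₁ F ω ≤ ((M₀ * C₁) * C₁) * (K ^ A₁.card * (c + ∑ v ∈ A₁, γ v)) := by
      intro ω hO hcA₁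
      refine two_explore hd hG P hKP hε hεl0 N.K1 N.t1 N.ht N.γ0 hc0 hM₀0 N.CT0 N.hTh hAA hA₁ hA₁B
        hbd hρ he (h3 e (by simp)) hL.1 h3' he1 he2 hball W (Psi G q a b B γ L)
        (fun X => Psi_nonneg hq0 N.b0 N.γ0 L X) ?_ ?_ ω hO hcA₁
      · intro X hX _
        exact Psi_le_of_subset hq0 N.b0 N.γ0 N.K1 hw' hg' (hAA.trans hX)
      · intro X hXc _ hXB ω₁ ρ₁ g1 g2 g3 g4
        exact ih hL.2 (fun c hc => hLB c (by simp [hc])) ε hε hεl' hXc hXB g1 g2 g3 g4 hw' hg'
    have hsumA₁0 : 0 ≤ ∑ v ∈ A₁, γ v := Finset.sum_nonneg fun v _ => N.γ0 v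
    have htb := hbound F hF0 _ (mul_nonneg (mul_nonneg (mul_nonneg hM₀0 hC₁0) hC₁0)
      (mul_nonneg (pow_nonneg hK0.le _) (add_nonneg hc0 hsumA₁0))) ω₀ hω₀ htwo
    -- numbers
    set C₂ : ℝ := (((d : ℝ) - 1) / (1 - εl)) ^ (2 * P.M + P.J + 5) with hC₂
    have hC₂0 : 0 ≤ C₂ := by rw [hC₂]; positivity
    set q₁ : ℝ := (1 - εl) / ((d : ℝ) - 1) with hq₁
    have hq₁0 : 0 ≤ q₁ := by rw [hq₁]; positivity
    have hqq : q = K * q₁ := by rw [hq, hq₁]; ring
    set D := G.dist v₀ e.1 with hD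
    set Q := pS G B γ v₀ e.1 with hQ
    have hQ0 : 0 ≤ Q := pS_nonneg N.γ0 _ _
    have hγe := N.γ0 e.1
    have hΓ0 : 0 ≤ Γ := Finset.sum_nonneg fun v _ => gL_nonneg hq0 N.b0 N.γ0 L v
    have hsum' : c + ∑ v ∈ A₁, γ v ≤ Γ + (Q + C₄ * γ e.1) := by
      have h1 := N.hC₄ e.1
      have h2 : ∑ v ∈ A₁, γ v ≤ ∑ v ∈ A, γ v + Q +
        ∑ u ∈ B.filter (fun u => G.dist e.1 u ≤ 2 * P.M + P.J + 2), γ u := hsum
      rw [hc]
      linarith
    have hcard' : K ^ A₁.card ≤ K ^ A.card * K ^ D * K ^ Nb := by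
      rw [← pow_add, ← pow_add]
      refine pow_le_pow_right₀ N.K1 ?_
      have := N.hNb e.1
      omega
    have hC₄0 : 0 ≤ C₄ := by linarith [N.C₄1]
    have hR0 : 0 ≤ Γ + (Q + C₄ * γ e.1) := by positivity
    have hmain : p * T.EE ε B A
        (fun ω => if ω.2 e = false ∧ ¬ T.Cov P B e (B \ A) ω then F ω else 0) ω₀ ≤
        Real.exp (a * Wd) * (p * (C₂ * (2 * C₁ ^ 2 * K ^ Nb)) * q ^ D *
          (Γ + (Q + C₄ * γ e.1))) := by
      refine (mul_le_mul_of_nonneg_left htb hp0).trans ?_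
      have h1 : K ^ A₁.card * (c + ∑ v ∈ A₁, γ v) ≤
          (K ^ A.card * K ^ D * K ^ Nb) * (Γ + (Q + C₄ * γ e.1)) :=
        mul_le_mul hcard' hsum' (add_nonneg hc0 hsumA₁0) (by positivity)
      have h2 : p * (C₂ * (q₁ ^ D * (M₀ * C₁ * C₁ * (K ^ A₁.card * (c + ∑ v ∈ A₁, γ v))))) ≤
          p * (C₂ * (q₁ ^ D * (M₀ * C₁ * C₁ *
            ((K ^ A.card * K ^ D * K ^ Nb) * (Γ + (Q + C₄ * γ e.1)))))) := by
        gcongr
      refine h2.trans (le_of_eq ?_)
      have hqD' : q ^ D = K ^ D * q₁ ^ D := by rw [hqq, mul_pow]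
      rw [hM₀, hqD']
      have hKA : K ^ A.card ≠ 0 := by positivity
      field_simp
    have hstep := Psi_step (G := G) (B := B) hq0 N.a0 N.b0 N.γ0 (L := L) e hv₀
    refine le_trans ?_ hstep
    refine add_le_add (le_refl _) (hmain.trans ?_)
    refine mul_le_mul_of_nonneg_left ?_ (Real.exp_pos _).le
    set C₃ := p * (C₂ * (2 * C₁ ^ 2 * K ^ Nb)) with hC₃
    have hC₃0 : 0 ≤ C₃ := by positivity
    have hqD : 0 ≤ q ^ D := pow_nonneg hq0 _
    have ha3 : C₃ ≤ a := N.ha
    have hb3 : C₃ * C₄ ≤ b := N.hb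
    have e1 : C₃ * q ^ D * Γ ≤ a * q ^ D * Γ := by gcongr
    have e2 : C₃ * q ^ D * (Q + C₄ * γ e.1) ≤ b * q ^ D * (Q + γ e.1) := by
      have h5 : Q + C₄ * γ e.1 ≤ C₄ * (Q + γ e.1) := by nlinarith [N.C₄1]
      calc C₃ * q ^ D * (Q + C₄ * γ e.1) ≤ C₃ * q ^ D * (C₄ * (Q + γ e.1)) := by gcongr
        _ = (C₃ * C₄) * (q ^ D * (Q + γ e.1)) := by ring
        _ ≤ b * (q ^ D * (Q + γ e.1)) := by gcongr
        _ = b * q ^ D * (Q + γ e.1) := by ring
    calc C₃ * q ^ D * (Γ + (Q + C₄ * γ e.1)) =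
        C₃ * q ^ D * Γ + C₃ * q ^ D * (Q + C₄ * γ e.1) := by ring
      _ ≤ a * q ^ D * Γ + b * q ^ D * (Q + γ e.1) := add_le_add e1 e2

end PT

end FI
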