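import Pool.Agent.H99.FI.Inf.Patch

/-!
# FI: pairs of runs after a common repair
-/

set_option autoImplicit false

namespace FI

open Finset Function
open scoped Classical

variable {V : Type*} {G : SimpleGraph V} {d : ℕ}

namespace PT

variable {T : PT G d}

/-- the pair after the repair at `e` of a configuration and its patched version -/
noncomputable def PF [NeZero d] (T : PT G d) (P : Par) (B A : Finset V) (ρ : Cfg V d)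
    (e : Dart V d) (W : Cfg V d → Cfg V d → ℝ) (ω : Cfg V d) : ℝ :=
  if ω.2 e = false then (1 / (P.K : ℝ)) *
    ∑ ξ ∈ range P.K, W (T.hit P B e ξ ω) (T.hit P B e ξ (T.pt A ρ ω)) else 0

/-- consistent configurations agreeing with `ω` on `X` -/
theorem cons_off99 {B X : Finset V} {ω ω' : Cfg V d} (hO : Off (T.cA B X) ω ω')
    (hX : T.ConsOn (T.EB X) ω)
    (hc : ∀ e ∈ T.EB B, e ∉ T.EB X → ω'.2 e = true → col ω'.1 e = col ω'.1 (T.N0 e)) :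
    Cons (T.nof B ω'.2) ω'.1 := by
  rw [cons_iff]
  intro c hcB hu
  by_cases hcX : c ∈ T.EB X
  · exact consOn_ag (ag_of_off hO) hX c hcX hu
  · exact hc c hcB hcX hu

/-- after both chains are covered, the repaired pair is a patched pair -/
theorem core [NeZero d] (hd : 3 ≤ d) (hG : G.IsTree) (P : Par) (hK : 0 < P.K)
    {ε : Dart V d → ℝ} (hε : WOK ε) {A B X : Finset V} (hAX : A ⊆ X) (hXB : X ⊆ B)
    {ρ ω₀ ω : Cfg V d} (hbd : T.BdC B A ρ ω₀) (hρ : T.ConsOn (T.EB A) ρ)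
    {e : Dart V d} (he : e ∈ T.EB B) (he3 : e ∈ T.EB A → ρ.2 e = ω₀.2 e)
    {L : List (Dart V d)} (heL : e ∉ L) (h3 : ∀ c ∈ L, c ∈ T.EB A → ρ.2 c = ω₀.2 c)
    (hoff : Off (T.cA B A) ω₀ ω) (hcons : T.ConsOn (T.EB X) ω)
    (hball : ∀ v ∈ B, G.dist e.1 v ≤ 2 * P.M + P.J + 2 → v ∈ X)
    (hcl : T.ClX B e X ω) (hcl' : T.ClX B e X (T.pt A ρ ω))
    (W : Cfg V d → Cfg V d → ℝ) {Ψ : ℝ} (hΨ : 0 ≤ Ψ)
    (IH : ∀ ω₁ ρ₁ : Cfg V d, T.ConsOn (T.EB X) ω₁ → T.ConsOn (T.EB X) ρ₁ → T.BdC B X ρ₁ ω₁ →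
      (∀ c ∈ L, c ∈ T.EB X → ρ₁.2 c = ω₁.2 c) →
      T.EE ε B X (fun ω => W ω (T.pt X ρ₁ ω)) ω₁ ≤ Ψ) :
    T.EE ε B X (T.PF P B A ρ e W) ω ≤ Ψ := by
  have hKR : (0 : ℝ) < P.K := by exact_mod_cast hK
  have heX : e ∈ T.EB X := by
    have h := T.mem_EB.mp he
    rw [T.mem_EB]
    exact ⟨hball e.1 h.1 (by simp), h.2.1, (hcl 0 (T.N0 e) rfl).1⟩
  have heX1 := T.mem_EB.mp heX
  have hEBX := T.EB_mono hXB
  -- nonpositive expectation if there is no consistent representative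
  by_cases hcut : ω.2 e = false
  swap
  · refine le_trans (EE_mono_cons B X hε (F' := fun _ => 0) ω fun ω' hO _ => ?_) ?_
    · unfold PF
      rw [if_neg]
      rw [(ag_of_off hO).2 e heX]
      exact hcut
    · rw [EE_zero]; exact hΨ
  by_cases hex : ∃ ω', Off (T.cA B X) ω ω' ∧ Cons (T.nof B ω'.2) ω'.1
  swap
  · refine le_trans (EE_mono_cons B X hε (F' := fun _ => 0) ω fun ω' hO hc => ?_) ?_
    · exact absurd ⟨ω', hO, cons_off99 hO hcons hc⟩ hex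
    · rw [EE_zero]; exact hΨ
  obtain ⟨ωs, hOs, hcs⟩ := hex
  have hags := ag_of_off hOs
  -- facts about configurations which agree with `ω` on `X`
  have hpt : ∀ ω', T.Ag X ω ω' → Cons (T.nof B ω'.2) ω'.1 →
      Cons (T.nof B (T.pt A ρ ω').2) (T.pt A ρ ω').1 := by
    intro ω' hag hc
    exact cons_pt ((hbd.of_ag (ag_of_off hoff)).of_ag (hag.mono hAX)) hρ hc
  have hptcut : ∀ ω', T.Ag X ω ω' → (T.pt A ρ ω').2 e = false := by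
    intro ω' hag
    by_cases heA : e ∈ T.EB A
    · rw [pt_snd_in heA, he3 heA, ← (ag_of_off hoff).2 e heA]
      exact hcut
    · rw [pt_snd_out heA, hag.2 e heX]
      exact hcut
  have hcovs : T.Cov P B e X ωs :=
    (cov_iff P B e X ωs).mpr ⟨hball, clX_ag heX1.1 heX1.2.2 hags hcl⟩
  have hcovs' : T.Cov P B e X (T.pt A ρ ωs) :=
    (cov_iff P B e X _).mpr ⟨hball, clX_ag heX1.1 heX1.2.2 (ag_pt ρ hags) hcl'⟩
  have hcuts : ωs.2 e = false := by rw [hags.2 e heX]; exact hcut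
  set ρ₁ : ℕ → Cfg V d := fun ξ => T.hit P B e ξ ωs with hρ₁
  set ρ₂ : ℕ → Cfg V d := fun ξ => T.hit P B e ξ (T.pt A ρ ωs) with hρ₂
  -- identification of the repaired pair
  have hstep : T.EE ε B X (T.PF P B A ρ e W) ω ≤
      T.EE ε B X (fun ω' => (1 / (P.K : ℝ)) * ∑ ξ ∈ range P.K,
        W (T.pt X (ρ₁ ξ) ω') (T.pt X (ρ₂ ξ) ω')) ω := by
    refine EE_mono_cons B X hε ω fun ω' hO hc => le_of_eq ?_
    have hc' := cons_off99 hO hcons hc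
    have hag := ag_of_off hO
    have hag' : T.Ag X ωs ω' := hags.symm.trans hag
    have hcut' : ω'.2 e = false := by rw [hag.2 e heX]; exact hcut
    unfold PF
    rw [if_pos hcut']
    congr 1
    refine Finset.sum_congr rfl fun ξ _ => ?_
    have e1 : T.hit P B e ξ ω' = T.pt X (ρ₁ ξ) ω' :=
      hit_pt hd hG P hXB he hcuts hcut' hcs hc' hcovs hag' ξ
    have e2 : T.hit P B e ξ (T.pt A ρ ω') = T.pt X (ρ₂ ξ) ω' := by
      rw [hit_pt hd hG P hXB he (hptcut ωs hags) (hptcut ω' hag) (hpt ωs hags hcs)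
        (hpt ω' hag hc') hcovs' (ag_pt ρ hag') ξ, pt_pt hAX]
    rw [e1, e2]
  refine hstep.trans ?_
  rw [congrFun (EE_smul ε B X (1 / (P.K : ℝ)) _) ω, congrFun (EE_sum ε B X _ _) ω]
  have hone : ∀ ξ ∈ range P.K, T.EE ε B X
      (fun ω' => W (T.pt X (ρ₁ ξ) ω') (T.pt X (ρ₂ ξ) ω')) ω ≤ Ψ := by
    intro ξ _
    have hb1 : T.BdC B X (ρ₁ ξ) ωs := hit_bdC hd hG P hXB he hcuts hcs hcovs ξ
    have hb2 : T.BdC B X (ρ₂ ξ) (T.pt A ρ ωs) :=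
      hit_bdC hd hG P hXB he (hptcut ωs hags) (hpt ωs hags hcs) hcovs' ξ
    have hb3 : T.BdC B X (ρ₂ ξ) ωs := by
      intro a h1 h2 h4
      rw [hb2 a h1 h2 h4]
      by_cases haA : a.1 ∈ A
      · rw [pt_col_in haA]
        have := (hbd.of_ag (ag_of_off hoff)).of_ag (hags.mono hAX)
        exact this a haA h2 fun h => h4 (hAX h)
      · rw [pt_col_out haA]
    have heq : (fun ω' => W (T.pt X (ρ₁ ξ) ω') (T.pt X (ρ₂ ξ) ω')) =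
        (fun ω' => (fun ω'' => W ω'' (T.pt X (ρ₂ ξ) ω'')) (T.pt X (ρ₁ ξ) ω')) := by
      funext ω'
      simp only
      rw [pt_pt (Finset.Subset.refl X)]
    have hc1 : Cons (T.nof B (ρ₁ ξ).2) (ρ₁ ξ).1 := hit_cons hd hG P he ξ hcs
    have hc2 : Cons (T.nof B (ρ₂ ξ).2) (ρ₂ ξ).1 := hit_cons hd hG P he ξ (hpt ωs hags hcs)
    rw [heq, EE_pt ε (hb1.of_ag hags.symm) (fun ω'' => W ω'' (T.pt X (ρ₂ ξ) ω''))]
    have hag1 : T.Ag X (ρ₁ ξ) (T.pt X (ρ₁ ξ) ω) :=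
      ⟨fun v hv => pt_fst_in hv, fun c hc => pt_snd_in hc⟩
    refine IH _ _ ?_ ?_ ?_ ?_
    · exact consOn_ag hag1 (consOn_mono hEBX (cons_iff.mp hc1))
    · exact consOn_mono hEBX (cons_iff.mp hc2)
    · intro a h1 h2 h4
      rw [pt_col_in h1, hb3 a h1 h2 h4, hb1 a h1 h2 h4]
    · intro c hcL hcX
      have hce : c ≠ e := fun h => heL (h ▸ hcL)
      rw [pt_snd_in hcX]
      simp only [hρ₁, hρ₂]
      rw [T.hit_cut P B e ξ hcuts, T.hit_cut P B e ξ (hptcut ωs hags)]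
      simp only [Function.update_of_ne hce]
      by_cases hcA : c ∈ T.EB A
      · rw [pt_snd_in hcA, h3 c hcL hcA, hags.2 c hcX, (ag_of_off hoff).2 c hcA]
      · rw [pt_snd_out hcA]
  calc (1 / (P.K : ℝ)) * ∑ ξ ∈ range P.K, T.EE ε B X
        (fun ω' => W (T.pt X (ρ₁ ξ) ω') (T.pt X (ρ₂ ξ) ω')) ω ≤
        (1 / (P.K : ℝ)) * ∑ ξ ∈ range P.K, Ψ :=
          mul_le_mul_of_nonneg_left (Finset.sum_le_sum hone) (by positivity)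
    _ = Ψ := by
          rw [Finset.sum_const, Finset.card_range, nsmul_eq_mul]
          field_simp

/-- two explorations -/
theorem two_explore [NeZero d] (hd : 3 ≤ d) (hG : G.IsTree) (P : Par) (hK : 0 < P.K)
    {ε : Dart V d → ℝ} (hε : WOK ε) {εl : ℝ} (hεl : ∀ e, εl ≤ ε e)
    {K t₀ c M CT : ℝ} {γ : V → ℝ} (hK1 : 1 ≤ K) (ht1 : 1 ≤ t₀)
    (ht : εl * K + (1 - εl) * K * t₀ ≤ t₀)
    (hγ : ∀ v, 0 ≤ γ v) (hc : 0 ≤ c) (hM : 0 ≤ M) (hCT : 0 ≤ CT)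
    {r : V} {A A₁ B : Finset V}
    (hTh : ∀ a : Dart V d, T.Th B (K * (1 - εl) / ((d : ℝ) - 1)) γ a ≤ CT * γ a.1)
    (hAA : A ⊆ A₁) (hA₁ : Clo G r A₁) (hAB : A₁ ⊆ B)
    {ρ ω₀ : Cfg V d} (hbd : T.BdC B A ρ ω₀) (hρ : T.ConsOn (T.EB A) ρ)
    {e : Dart V d} (he : e ∈ T.EB B) (he3 : e ∈ T.EB A → ρ.2 e = ω₀.2 e)
    {L : List (Dart V d)} (heL : e ∉ L) (h3 : ∀ c ∈ L, c ∈ T.EB A → ρ.2 c = ω₀.2 c)
    (he1 : e.1 ∈ A₁) (he2 : (T.N0 e).1 ∈ A₁)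
    (hball : ∀ v ∈ B, G.dist e.1 v ≤ 2 * P.M + P.J + 2 → v ∈ A₁)
    (W : Cfg V d → Cfg V d → ℝ) (Ψ : Finset V → ℝ) (hΨ : ∀ X, 0 ≤ Ψ X)
    (hΨM : ∀ X, A₁ ⊆ X → X ⊆ B → Ψ X ≤ M * (K ^ X.card * (c + ∑ v ∈ X, γ v)))
    (IH : ∀ X, Clo G r X → A₁ ⊆ X → X ⊆ B → ∀ ω₁ ρ₁ : Cfg V d, T.ConsOn (T.EB X) ω₁ →
      T.ConsOn (T.EB X) ρ₁ → T.BdC B X ρ₁ ω₁ →
      (∀ c ∈ L, c ∈ T.EB X → ρ₁.2 c = ω₁.2 c) →
      T.EE ε B X (fun ω => W ω (T.pt X ρ₁ ω)) ω₁ ≤ Ψ X)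
    (ω : Cfg V d) (hoff : Off (T.cA B A) ω₀ ω) (hcons : T.ConsOn (T.EB A₁) ω) :
    T.EE ε B A₁ (T.PF P B A ρ e W) ω ≤
      ((M * (t₀ * (1 + CT))) * (t₀ * (1 + CT))) * (K ^ A₁.card * (c + ∑ v ∈ A₁, γ v)) := by
  have ht0 : 0 ≤ t₀ * (1 + CT) := mul_nonneg (by linarith) (by linarith)
  -- first chain
  refine explore (T := T) (A := A) (ρ := ω₀) (ω₀ := ω₀) (r := r) (e := e)
    (Gd := fun X _ => A₁ ⊆ X) hG hd hε hεl hK1 ht1 ht hγ hc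
    (mul_nonneg hM ht0) hCT hTh (fun _ _ _ _ => rfl)
    (fun X X' _ _ h h' _ _ => h.trans h') (T.PF P B A ρ e W) ?_ A₁ ω
    ⟨hA₁, hAA, hAB, he1, he2, hoff, hcons, Finset.Subset.refl _⟩
  intro X ω' hS hcl
  have hpt : T.pt A ω₀ ω' = ω' := pt_of_ag (ag_of_off hS.off)
  rw [hpt] at hcl
  -- second chain
  refine explore (T := T) (A := A) (ρ := ρ) (ω₀ := ω₀) (r := r) (e := e)
    (Gd := fun X ω => A₁ ⊆ X ∧ T.ClX B e X ω) hG hd hε hεl hK1 ht1 ht hγ hc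
    hM hCT hTh (fun a h1 h2 h4 => hbd a h1 h2 h4)
    ?_ (T.PF P B A ρ e W) ?_ X ω'
    ⟨hS.clo, hS.AX, hS.XB, hS.e1, hS.e2, hS.off, hS.cons, hS.gd, hcl⟩
  · intro Y Y' ω₁ ω₂ h hYY _ hag
    refine ⟨h.1.trans hYY, clX_mono hYY (clX_ag (h.1 he1) (h.1 he2) hag h.2)⟩
  · intro Y ω₁ hS' hcl'
    refine le_trans ?_ (hΨM Y hS'.gd.1 hS'.XB)
    exact core hd hG P hK hε hS'.AX hS'.XB hbd hρ he he3 heL h3 hS'.off hS'.cons
      (fun v hv h => hS'.gd.1 (hball v hv h)) hS'.gd.2 hcl' W (hΨ Y)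
      (fun ω₁ ρ₁ h1 h2 h4 h5 => IH Y hS'.clo hS'.gd.1 hS'.XB ω₁ ρ₁ h1 h2 h4 h5)

end PT

end FI
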