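import Pool.Agent.H99.FI.Inf.Run

/-!
# FI: the constants of the influence lemma
-/

set_option autoImplicit false

namespace FI

open Finset Function
open scoped Classical

variable {V : Type*} {G : SimpleGraph V} {d : ℕ}

theorem sum_list_le {T : PT G d} {B : Finset V} {L : List (Dart V d)} (hL : L.Nodup)
    (hLB : ∀ e ∈ L, e ∈ T.EB B) {f : V → ℝ} (hf : ∀ v, 0 ≤ f v) :
    (L.map (fun e => f e.1)).sum ≤ d * ∑ v ∈ B, f v := by
  rw [← List.sum_toFinset _ hL]
  have h1 : L.toFinset ⊆ B ×ˢ (univ : Finset (Fin d)) := by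
    intro e he
    rw [List.mem_toFinset] at he
    have := T.mem_EB.mp (hLB e he)
    rw [Finset.mem_product]
    exact ⟨this.1, Finset.mem_univ _⟩
  refine (Finset.sum_le_sum_of_subset_of_nonneg h1 fun e _ _ => hf e.1).trans (le_of_eq ?_)
  rw [Finset.sum_product]
  simp only [Finset.sum_const, Finset.card_univ, Fintype.card_fin, nsmul_eq_mul]
  rw [Finset.mul_sum]

/-- geometric sum bound -/
noncomputable def Sq (d : ℕ) (q : ℝ) : ℝ := 1 + d * q * (1 / (1 - ((d : ℝ) - 1) * q))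

theorem Sq_pos {q : ℝ} (hq : 0 ≤ q) (hq1 : ((d : ℝ) - 1) * q < 1) : 0 < Sq d q := by
  unfold Sq
  have : 0 < 1 - ((d : ℝ) - 1) * q := by linarith
  positivity

theorem sum_pow_le (hG : G.IsTree) (T : PT G d) {q : ℝ} (hq : 0 ≤ q)
    (hq1 : ((d : ℝ) - 1) * q < 1) (hd : 1 ≤ d) (v : V) (F : Finset V) :
    ∑ u ∈ F, q ^ G.dist v u ≤ Sq d q := PT.sum_all_le hG hq hq1 hd v F T

/-- convolution constant -/
noncomputable def Sc (d : ℕ) (q β : ℝ) : ℝ := Sq d β / (1 - q / β)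

theorem sum_conv (hG : G.IsTree) (T : PT G d) {q β : ℝ} (hq : 0 ≤ q) (hβ : 0 < β) (hβ1 : β ≤ 1)
    (hqβ : q < β) (hq1 : ((d : ℝ) - 1) * β < 1) (hd : 1 ≤ d) (o v : V) (F : Finset V) :
    ∑ u ∈ F, q ^ G.dist v u * β ^ G.dist u o ≤ Sc d q β * β ^ G.dist v o :=
  PT.sum_conv_le hG hq hβ hβ1 hqβ hq1 hd o v F T

theorem Sc_pos {q β : ℝ} (hβ : 0 < β)
    (hqβ : q < β) (hq1 : ((d : ℝ) - 1) * β < 1) : 0 < Sc d q β := by
  unfold Sc
  refine div_pos (Sq_pos hβ.le hq1) ?_
  rw [sub_pos, div_lt_one hβ]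
  exact hqβ

theorem sum_pS (hG : G.IsTree) (T : PT G d) {q β : ℝ} (hq : 0 ≤ q) (hβ : 0 < β) (hβ1 : β ≤ 1)
    (hqβ : q < β) (hq1 : ((d : ℝ) - 1) * β < 1) (hqq : ((d : ℝ) - 1) * q < 1) (hd : 1 ≤ d)
    (o v : V) (B : Finset V) :
    ∑ u ∈ B, q ^ G.dist v u * pS G B (fun v => β ^ G.dist v o) v u ≤
      Sq d q * (Sc d q β * β ^ G.dist v o) := by
  unfold pS
  have h1 : ∀ u ∈ B, q ^ G.dist v u * ∑ x ∈ B.filter
      (fun x => G.dist v x + G.dist x u = G.dist v u), β ^ G.dist x o ≤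
      ∑ x ∈ B, (q ^ G.dist v x * β ^ G.dist x o) * q ^ G.dist x u := by
    intro u _
    rw [Finset.mul_sum]
    refine le_trans (le_of_eq ?_) (Finset.sum_le_sum_of_subset_of_nonneg
      (Finset.filter_subset (fun x => G.dist v x + G.dist x u = G.dist v u) B)
      fun x _ _ => by positivity)
    refine Finset.sum_congr rfl fun x hx => ?_
    rw [← (Finset.mem_filter.mp hx).2, pow_add]
    ring
  refine (Finset.sum_le_sum h1).trans ?_
  rw [Finset.sum_comm]
  have h2 : ∀ x ∈ B, ∑ u ∈ B, (q ^ G.dist v x * β ^ G.dist x o) * q ^ G.dist x u ≤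
      (q ^ G.dist v x * β ^ G.dist x o) * Sq d q := by
    intro x _
    rw [← Finset.mul_sum]
    exact mul_le_mul_of_nonneg_left (sum_pow_le hG T hq hqq hd x B) (by positivity)
  refine (Finset.sum_le_sum h2).trans ?_
  rw [← Finset.sum_mul, mul_comm]
  exact mul_le_mul_of_nonneg_left (sum_conv hG T hq hβ hβ1 hqβ hq1 hd o v B)
    (Sq_pos hq hqq).le

theorem card_ball_le (hG : G.IsTree) (T : PT G d) {β : ℝ} (hβ : 0 < β) (hβ1 : β ≤ 1)
    (hq1 : ((d : ℝ) - 1) * β < 1) (hd : 1 ≤ d) (R : ℕ) (v : V) (B : Finset V) :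
    ((B.filter (fun x => G.dist v x ≤ R)).card : ℝ) ≤ Sq d β / β ^ R := by
  rw [le_div_iff₀ (by positivity)]
  calc ((B.filter (fun x => G.dist v x ≤ R)).card : ℝ) * β ^ R =
      ∑ _x ∈ B.filter (fun x => G.dist v x ≤ R), β ^ R := by
        rw [Finset.sum_const, nsmul_eq_mul]
    _ ≤ ∑ x ∈ B.filter (fun x => G.dist v x ≤ R), β ^ G.dist v x := by
        refine Finset.sum_le_sum fun x hx => ?_
        exact pow_le_pow_of_le_one hβ.le hβ1 (Finset.mem_filter.mp hx).2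
    _ ≤ Sq d β := sum_pow_le hG T hβ.le hq1 hd v _

theorem infNum_exists {d : ℕ} (hd : 3 ≤ d) (P : Par) {εl : ℝ} (h0 : 0 < εl) (h1 : εl < 1) :
    ∃ (K t₀ CT C₄ β β' p₀ : ℝ) (Nb : ℕ), 0 < p₀ ∧ p₀ ≤ 1 / 2 ∧ 0 < β ∧ β < β' ∧
      ((d : ℝ) - 1) * β' < 1 ∧ 0 ≤ 2 * (t₀ * (1 + CT)) * K ^ Nb * C₄ ∧
      ∀ p : ℝ, 0 ≤ p → p ≤ p₀ → ∃ a b : ℝ,
        ∀ (V : Type) (G : SimpleGraph V) (_ : G.IsTree) (T : PT G d) (B : Finset V) (o : V),
          InfNum T P B o (fun v => β ^ G.dist v o) εl K t₀ CT C₄ a b p Nb ∧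
          ∀ (L : List (Dart V d)), L.Nodup → (∀ e ∈ L, e ∈ T.EB B) →
            (∀ v, Real.exp (a * wL G (K * (1 - εl) / ((d : ℝ) - 1)) L v) ≤ K) ∧
            (∀ v, gL G (K * (1 - εl) / ((d : ℝ) - 1)) b B (fun v => β ^ G.dist v o) L v ≤
              2 * β ^ G.dist v o) := by
  have hd3 : (3 : ℝ) ≤ d := by exact_mod_cast hd
  have hd1 : (0 : ℝ) < (d : ℝ) - 1 := by linarith
  have hd0 : (0 : ℝ) < d := by linarith
  have hεl1 : 0 < 1 - εl := by linarith
  set K : ℝ := 1 + εl with hK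
  set q : ℝ := K * (1 - εl) / ((d : ℝ) - 1) with hq
  set β : ℝ := (1 - εl ^ 2 / 2) / ((d : ℝ) - 1) with hβ
  set β' : ℝ := (1 - εl ^ 2 / 4) / ((d : ℝ) - 1) with hβ'
  set t₀ : ℝ := (1 + εl) / εl with ht₀
  have hε2 : 0 < εl ^ 2 := by positivity
  have hε2' : εl ^ 2 < 1 := by nlinarith
  have hq0 : 0 < q := by rw [hq, hK]; positivity
  have hqeq : q = (1 - εl ^ 2) / ((d : ℝ) - 1) := by rw [hq, hK]; ring
  have hqβ : q < β := by
    rw [hqeq, hβ]
    exact div_lt_div_of_pos_right (by linarith) hd1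
  have hβ0 : 0 < β := hq0.trans hqβ
  have hββ' : β < β' := by
    rw [hβ, hβ']
    exact div_lt_div_of_pos_right (by linarith) hd1
  have hβ'1 : ((d : ℝ) - 1) * β' < 1 := by
    rw [hβ']
    field_simp
    linarith
  have hβd : ((d : ℝ) - 1) * β < 1 := by nlinarith
  have hqd : ((d : ℝ) - 1) * q < 1 := by nlinarith
  have hβ1 : β ≤ 1 := by nlinarith
  have hK1 : 1 ≤ K := by rw [hK]; linarith
  have hK0 : 0 < K := by linarith
  have ht1 : 1 ≤ t₀ := by
    rw [ht₀, le_div_iff₀ h0]; linarith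
  have hSq := Sq_pos (d := d) hq0.le hqd
  have hSqβ := Sq_pos (d := d) hβ0.le hβd
  have hSc := Sc_pos (d := d) hβ0 hqβ hβd
  set CT : ℝ := Sc d q β / β with hCT
  have hCT0 : 0 < CT := div_pos hSc hβ0
  set R : ℕ := 2 * P.M + P.J + 2 with hR
  set Nb : ℕ := ⌈Sq d β / β ^ R⌉₊ with hNb
  set C₄ : ℝ := 1 + Nb / β ^ R with hC₄
  have hC₄1 : 1 ≤ C₄ := by
    rw [hC₄]
    have : 0 ≤ (Nb : ℝ) / β ^ R := by positivity
    linarith
  set C₃ : ℝ := (((d : ℝ) - 1) / (1 - εl)) ^ (2 * P.M + P.J + 5) *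
    (2 * (t₀ * (1 + CT)) ^ 2 * K ^ Nb) with hC₃
  have hC₃0 : 0 < C₃ := by
    rw [hC₃]
    have : 0 < t₀ := by linarith
    positivity
  have hlog : 0 < Real.log K := Real.log_pos (by rw [hK]; linarith)
  set x₁ : ℝ := Real.log K / (C₃ * (d * Sq d q)) with hx₁
  set x₂ : ℝ := 1 / (C₃ * C₄ * (d * ((Sq d q + 1) * Sc d q β))) with hx₂
  have hx₁0 : 0 < x₁ := by rw [hx₁]; positivity
  have hx₂0 : 0 < x₂ := by
    rw [hx₂]
    have : 0 < C₄ := by linarith
    positivity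
  refine ⟨K, t₀, CT, C₄, β, β', min (1 / 2) (min x₁ x₂), Nb,
    lt_min (by norm_num) (lt_min hx₁0 hx₂0), min_le_left _ _, hβ0, hββ', hβ'1, ?_, ?_⟩
  · have : 0 < t₀ := by linarith
    have : 0 < C₄ := by linarith
    positivity
  intro p hp0 hp
  have hp1 : p ≤ 1 / 2 := hp.trans (min_le_left _ _)
  have hpx₁ : p ≤ x₁ := hp.trans ((min_le_right _ _).trans (min_le_left _ _))
  have hpx₂ : p ≤ x₂ := hp.trans ((min_le_right _ _).trans (min_le_right _ _))
  refine ⟨p * C₃, p * C₃ * C₄, ?_⟩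
  intro V G hG T B o
  have hγ0 : ∀ v, 0 ≤ β ^ G.dist v o := fun v => by positivity
  refine ⟨⟨h0.le, h1, hK1, ht1, ?_, hγ0, ?_, hCT0.le, ?_, ?_, hC₄1, ?_, hp0, by linarith,
    by positivity, by have : 0 < C₄ := by linarith
                      positivity, le_rfl, le_rfl⟩, ?_⟩
  · -- t₀
    rw [ht₀, hK]
    have : εl * (1 + εl) + (1 - εl) * (1 + εl) * ((1 + εl) / εl) = (1 + εl) / εl := by
      field_simp
      ring
    exact this.le
  · rw [SimpleGraph.dist_self, pow_zero]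
  · -- Th
    intro x
    have h2 : T.Th B q (fun v => β ^ G.dist v o) x ≤ Sc d q β * β ^ G.dist (T.N0 x).1 o := by
      unfold PT.Th
      exact sum_conv hG T hq0.le hβ0 hβ1 hqβ hβd (by omega) o (T.N0 x).1 _
    refine h2.trans ?_
    rw [hCT]
    have h3 : G.dist x.1 o ≤ G.dist (T.N0 x).1 o + 1 := by
      have t1 : G.dist x.1 o ≤ G.dist x.1 (T.N0 x).1 + G.dist (T.N0 x).1 o :=
        hG.connected.dist_triangle
      have t2 : G.dist x.1 (T.N0 x).1 = 1 := SimpleGraph.dist_eq_one_iff_adj.mpr (T.adj x)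
      omega
    have h4 : β ^ (G.dist (T.N0 x).1 o + 1) ≤ β ^ G.dist x.1 o :=
      pow_le_pow_of_le_one hβ0.le hβ1 h3
    rw [pow_succ] at h4
    rw [div_mul_eq_mul_div, le_div_iff₀ hβ0, mul_assoc]
    exact mul_le_mul_of_nonneg_left h4 hSc.le
  · -- card
    intro v
    have := card_ball_le hG T hβ0 hβ1 hβd (by omega) R v B
    have h2 := this.trans (Nat.le_ceil _)
    exact_mod_cast h2
  · -- ball sum
    intro v
    have h2 := card_ball_le hG T hβ0 hβ1 hβd (by omega) R v B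
    have h2' : ((B.filter (fun x => G.dist v x ≤ R)).card : ℝ) ≤ Nb := h2.trans (Nat.le_ceil _)
    have h3 : ∀ x ∈ B.filter (fun x => G.dist v x ≤ R), β ^ G.dist x o ≤
        β ^ G.dist v o / β ^ R := by
      intro x hx
      rw [le_div_iff₀ (by positivity), ← pow_add]
      refine pow_le_pow_of_le_one hβ0.le hβ1 ?_
      have t1 : G.dist v o ≤ G.dist v x + G.dist x o := hG.connected.dist_triangle
      have := (Finset.mem_filter.mp hx).2
      omega
    refine (Finset.sum_le_sum h3).trans ?_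
    rw [Finset.sum_const, nsmul_eq_mul, hC₄]
    calc ((B.filter (fun x => G.dist v x ≤ R)).card : ℝ) * (β ^ G.dist v o / β ^ R) ≤
        Nb * (β ^ G.dist v o / β ^ R) := by gcongr
      _ = (Nb / β ^ R) * β ^ G.dist v o := by ring
      _ ≤ (1 + Nb / β ^ R) * β ^ G.dist v o := by
          refine mul_le_mul_of_nonneg_right ?_ (hγ0 v)
          linarith
  · intro L hL hLB
    constructor
    · intro v
      have h2 : wL G q L v ≤ d * Sq d q := by
        unfold wL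
        have := sum_list_le hL hLB (f := fun u => q ^ G.dist v u) (fun u => by positivity)
        refine this.trans ?_
        exact mul_le_mul_of_nonneg_left (sum_pow_le hG T hq0.le hqd (by omega) v B) hd0.le
      have h3 : p * C₃ * wL G q L v ≤ Real.log K := by
        calc p * C₃ * wL G q L v ≤ x₁ * C₃ * (d * Sq d q) := by
              refine mul_le_mul ?_ h2 (wL_nonneg hq0.le L v) (by positivity)
              exact mul_le_mul_of_nonneg_right hpx₁ hC₃0.le
          _ = Real.log K := by rw [hx₁]; field_simp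
      calc Real.exp (p * C₃ * wL G q L v) ≤ Real.exp (Real.log K) := Real.exp_le_exp.mpr h3
        _ = K := Real.exp_log hK0
    · intro v
      unfold gL
      have h2 : (L.map (fun e => q ^ G.dist v e.1 *
          (pS G B (fun v => β ^ G.dist v o) v e.1 + β ^ G.dist e.1 o))).sum ≤
          d * ((Sq d q + 1) * Sc d q β * β ^ G.dist v o) := by
        have := sum_list_le hL hLB (f := fun u => q ^ G.dist v u *
          (pS G B (fun v => β ^ G.dist v o) v u + β ^ G.dist u o))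
          (fun u => mul_nonneg (by positivity) (add_nonneg (pS_nonneg hγ0 _ _) (hγ0 _)))
        refine this.trans (mul_le_mul_of_nonneg_left ?_ hd0.le)
        simp only [mul_add]
        rw [Finset.sum_add_distrib]
        have e1 := sum_pS hG T hq0.le hβ0 hβ1 hqβ hβd hqd (by omega) o v B
        have e2 := sum_conv hG T hq0.le hβ0 hβ1 hqβ hβd (by omega) o v B
        calc _ ≤ Sq d q * (Sc d q β * β ^ G.dist v o) + Sc d q β * β ^ G.dist v o :=
              add_le_add e1 e2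
          _ = _ := by ring
      have hC₄0 : 0 < C₄ := by linarith
      have h3 : p * C₃ * C₄ * (d * ((Sq d q + 1) * Sc d q β * β ^ G.dist v o)) ≤
          β ^ G.dist v o := by
        calc p * C₃ * C₄ * (d * ((Sq d q + 1) * Sc d q β * β ^ G.dist v o)) ≤
            x₂ * C₃ * C₄ * (d * ((Sq d q + 1) * Sc d q β * β ^ G.dist v o)) := by gcongr
          _ = β ^ G.dist v o := by rw [hx₂]; field_simp
      have h4 : p * C₃ * C₄ * (L.map (fun e => q ^ G.dist v e.1 *
          (pS G B (fun v => β ^ G.dist v o) v e.1 + β ^ G.dist e.1 o))).sum ≤ β ^ G.dist v o :=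
        le_trans (mul_le_mul_of_nonneg_left h2 (by positivity)) h3
      linarith

end FI
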