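import Pool.Agent.H99.FI.Chain
import Pool.Agent.H99.FI.Exact.Comp

/-!
# FI: patched configurations
-/

set_option autoImplicit false

namespace FI

open Finset Function
open scoped Classical

variable {V : Type*} {G : SimpleGraph V} {d : ℕ}

/-- averaging commutes with maps which commute with the changes of coordinates -/
theorem AV_comp (ε : Dart V d → ℝ) (s : Finset (V ⊕ Dart V d)) (g : Cfg V d → Cfg V d)
    (hg : ∀ i ∈ s, ∀ t ω, g (upc i t ω) = upc i t (g ω)) (F : Cfg V d → ℝ) (ω : Cfg V d) :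
    AV ε s (fun ω => F (g ω)) ω = AV ε s F (g ω) := by
  induction s using Finset.induction_on generalizing ω with
  | empty => rfl
  | insert i s his ih =>
    rw [AV_insert ε his, AV_insert ε his, av1_eq, av1_eq]
    refine Finset.sum_congr rfl fun t _ => ?_
    rw [ih (fun j hj => hg j (Finset.mem_insert_of_mem hj)),
      hg i (Finset.mem_insert_self _ _)]

namespace PT

variable {T : PT G d}

theorem pt_fst_in {X : Finset V} {ρ ω : Cfg V d} {v : V} (h : v ∈ X) :
    (T.pt X ρ ω).1 v = ρ.1 v := by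
  unfold pt
  simp only [if_pos h]

theorem pt_fst_out {X : Finset V} {ρ ω : Cfg V d} {v : V} (h : v ∉ X) :
    (T.pt X ρ ω).1 v = ω.1 v := by
  unfold pt
  simp only [if_neg h]

theorem pt_snd_in {X : Finset V} {ρ ω : Cfg V d} {c : Dart V d} (h : c ∈ T.EB X) :
    (T.pt X ρ ω).2 c = ρ.2 c := by
  unfold pt
  simp only [if_pos h]

theorem pt_snd_out {X : Finset V} {ρ ω : Cfg V d} {c : Dart V d} (h : c ∉ T.EB X) :
    (T.pt X ρ ω).2 c = ω.2 c := by
  unfold pt
  simp only [if_neg h]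

theorem pt_col_in {X : Finset V} {ρ ω : Cfg V d} {a : Dart V d} (h : a.1 ∈ X) :
    col (T.pt X ρ ω).1 a = col ρ.1 a := by
  unfold col
  rw [pt_fst_in h]

theorem pt_col_out {X : Finset V} {ρ ω : Cfg V d} {a : Dart V d} (h : a.1 ∉ X) :
    col (T.pt X ρ ω).1 a = col ω.1 a := by
  unfold col
  rw [pt_fst_out h]

theorem pt_pt {A X : Finset V} (h : A ⊆ X) (ρ ρ' ω : Cfg V d) :
    T.pt X ρ (T.pt A ρ' ω) = T.pt X ρ ω := by
  refine Prod.ext (funext fun v => ?_) (funext fun c => ?_)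
  · by_cases hv : v ∈ X
    · rw [pt_fst_in hv, pt_fst_in hv]
    · rw [pt_fst_out hv, pt_fst_out hv, pt_fst_out (fun h' => hv (h h'))]
  · by_cases hc : c ∈ T.EB X
    · rw [pt_snd_in hc, pt_snd_in hc]
    · rw [pt_snd_out hc, pt_snd_out hc, pt_snd_out (fun h' => hc (T.EB_mono h h'))]

theorem pt_idem (X : Finset V) (ω : Cfg V d) : T.pt X ω ω = ω := by
  refine Prod.ext (funext fun v => ?_) (funext fun c => ?_)
  · by_cases hv : v ∈ X
    · rw [pt_fst_in hv]
    · rw [pt_fst_out hv]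
  · by_cases hc : c ∈ T.EB X
    · rw [pt_snd_in hc]
    · rw [pt_snd_out hc]

theorem pt_empty (ρ ω : Cfg V d) : T.pt ∅ ρ ω = ω := by
  refine Prod.ext (funext fun v => ?_) (funext fun c => ?_)
  · rw [pt_fst_out (by simp)]
  · rw [pt_snd_out (by simp [T.mem_EB])]

theorem pt_of_ag {X : Finset V} {ρ ω : Cfg V d} (h : T.Ag X ρ ω) : T.pt X ρ ω = ω := by
  refine Prod.ext (funext fun v => ?_) (funext fun c => ?_)
  · by_cases hv : v ∈ X
    · rw [pt_fst_in hv, h.1 v hv]
    · rw [pt_fst_out hv]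
  · by_cases hc : c ∈ T.EB X
    · rw [pt_snd_in hc, h.2 c hc]
    · rw [pt_snd_out hc]

/-- boundary colours -/
def BdC (T : PT G d) (B X : Finset V) (ρ ω : Cfg V d) : Prop :=
  ∀ a : Dart V d, a.1 ∈ X → (T.N0 a).1 ∈ B → (T.N0 a).1 ∉ X → col ρ.1 a = col ω.1 a

theorem BdC.of_ag {B X : Finset V} {ρ ω ω' : Cfg V d} (h : T.BdC B X ρ ω) (h' : T.Ag X ω ω') :
    T.BdC B X ρ ω' := by
  intro a h1 h2 h3
  rw [h a h1 h2 h3, h'.col h1]

/-- the dart of an edge of `B` which is not inside `X`, seen from `X` -/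
theorem zw_pt {B X : Finset V} {ρ ω : Cfg V d} (hbd : T.BdC B X ρ ω) {c : Dart V d}
    (hc : c ∈ T.EB B) (hcX : c ∉ T.EB X) : T.zw c (T.pt X ρ ω) = T.zw c ω := by
  rw [T.mem_EB] at hc
  have h0 : (T.pt X ρ ω).2 c = ω.2 c := pt_snd_out hcX
  have h1 : col (T.pt X ρ ω).1 c = col ω.1 c := by
    by_cases h : c.1 ∈ X
    · rw [pt_col_in h]
      refine hbd c h hc.2.2 fun h' => hcX ?_
      rw [T.mem_EB]
      exact ⟨h, hc.2.1, h'⟩
    · rw [pt_col_out h]
  have h2 : col (T.pt X ρ ω).1 (T.N0 c) = col ω.1 (T.N0 c) := by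
    by_cases h : (T.N0 c).1 ∈ X
    · rw [pt_col_in h]
      refine hbd (T.N0 c) h (by rw [T.inv]; exact hc.1) fun h' => hcX ?_
      rw [T.inv] at h'
      rw [T.mem_EB]
      exact ⟨h', hc.2.1, h⟩
    · rw [pt_col_out h]
  unfold PT.zw
  rw [h0, h1, h2]

/-- the patch lemma -/
theorem EE_pt (ε : Dart V d → ℝ) {B X : Finset V} {ρ ω : Cfg V d} (hbd : T.BdC B X ρ ω)
    (F : Cfg V d → ℝ) :
    T.EE ε B X (fun ω => F (T.pt X ρ ω)) ω = T.EE ε B X F (T.pt X ρ ω) := by
  unfold EE
  rw [← AV_comp ε (T.cA B X) (T.pt X ρ)]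
  · refine AV_congr_off _ ω fun ω' hω' => ?_
    congr 1
    refine Finset.prod_congr rfl fun c hc => ?_
    rw [Finset.mem_sdiff] at hc
    exact (zw_pt (hbd.of_ag (ag_of_off hω')) hc.1 hc.2).symm
  · intro i hi t ω'
    cases i with
    | inl v =>
      rw [mem_cA_inl] at hi
      refine Prod.ext (funext fun w => ?_) (funext fun c => ?_)
      · by_cases hw : w ∈ X
        · have : w ≠ v := fun h => hi.2 (h ▸ hw)
          rw [pt_fst_in hw]
          simp only [upc, Function.update_of_ne this]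
          rw [pt_fst_in hw]
        · rw [pt_fst_out hw]
          simp only [upc]
          by_cases hwv : w = v
          · subst hwv; simp
          · rw [Function.update_of_ne hwv, Function.update_of_ne hwv, pt_fst_out hw]
      · simp only [upc]
        by_cases hc : c ∈ T.EB X
        · rw [pt_snd_in hc, pt_snd_in hc]
        · rw [pt_snd_out hc, pt_snd_out hc]
    | inr e =>
      rw [mem_cA_inr] at hi
      refine Prod.ext (funext fun w => ?_) (funext fun c => ?_)
      · simp only [upc]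
        by_cases hw : w ∈ X
        · rw [pt_fst_in hw, pt_fst_in hw]
        · rw [pt_fst_out hw, pt_fst_out hw]
      · by_cases hc : c ∈ T.EB X
        · have : c ≠ e := fun h => hi.2 (h ▸ hc)
          rw [pt_snd_in hc]
          simp only [upc, Function.update_of_ne this]
          rw [pt_snd_in hc]
        · rw [pt_snd_out hc]
          simp only [upc]
          by_cases hce : c = e
          · subst hce; simp
          · rw [Function.update_of_ne hce, Function.update_of_ne hce, pt_snd_out hc]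

theorem consOn_ag {X : Finset V} {ω ω' : Cfg V d} (h : T.Ag X ω ω')
    (hc : T.ConsOn (T.EB X) ω) : T.ConsOn (T.EB X) ω' := by
  intro c hcX hu
  have h1 := T.mem_EB.mp hcX
  rw [h.col h1.1, h.col h1.2.2]
  rw [h.2 c hcX] at hu
  exact hc c hcX hu

theorem consOn_mono {s t : Finset (Dart V d)} (h : s ⊆ t) {ω : Cfg V d} (hc : T.ConsOn t ω) :
    T.ConsOn s ω := fun c hs => hc c (h hs)

/-- consistency of a patched configuration -/
theorem cons_pt {B A : Finset V} {ρ ω : Cfg V d} (hbd : T.BdC B A ρ ω)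
    (hρ : T.ConsOn (T.EB A) ρ) (hω : Cons (T.nof B ω.2) ω.1) :
    Cons (T.nof B (T.pt A ρ ω).2) (T.pt A ρ ω).1 := by
  rw [cons_iff] at hω ⊢
  intro c hc hu
  have hcB := T.mem_EB.mp hc
  by_cases hcA : c ∈ T.EB A
  · have h1 := T.mem_EB.mp hcA
    rw [pt_snd_in hcA] at hu
    rw [pt_col_in h1.1, pt_col_in h1.2.2]
    exact hρ c hcA hu
  · rw [pt_snd_out hcA] at hu
    have h1 := hω c hc hu
    have h2 : col (T.pt A ρ ω).1 c = col ω.1 c := by
      by_cases h : c.1 ∈ A
      · rw [pt_col_in h]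
        refine hbd c h hcB.2.2 fun h' => hcA ?_
        rw [T.mem_EB]
        exact ⟨h, hcB.2.1, h'⟩
      · rw [pt_col_out h]
    have h3 : col (T.pt A ρ ω).1 (T.N0 c) = col ω.1 (T.N0 c) := by
      by_cases h : (T.N0 c).1 ∈ A
      · rw [pt_col_in h]
        refine hbd (T.N0 c) h (by rw [T.inv]; exact hcB.1) fun h' => hcA ?_
        rw [T.inv] at h'
        rw [T.mem_EB]
        exact ⟨h', hcB.2.1, h⟩
      · rw [pt_col_out h]
    rw [h2, h3]
    exact h1

/-- the repair keeps consistency -/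
theorem hit_cons [NeZero d] (hd : 3 ≤ d) (hG : G.IsTree) (P : Par) {B : Finset V}
    {e : Dart V d} (he : e ∈ T.EB B) (ξ : ℕ) {ω : Cfg V d}
    (hω : Cons (T.nof B ω.2) ω.1) :
    Cons (T.nof B (T.hit P B e ξ ω).2) (T.hit P B e ξ ω).1 := by
  by_cases hcut : ω.2 e = false
  · rw [T.hit_cut P B e ξ hcut]
    have he' := T.mem_EB.mp he
    have hn := T.nof_none_of_cut (B := B) he'.2.1 hcut
    simp only
    rw [← T.addE_nof he]
    refine kern_cons hd P _ _ _ (fun a b => T.nof_symm) ?_ hn.1 hn.2 ?_ _ hω ξ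
    · rw [T.addE_nof he]
      exact T.forest_nof hG B _
    · intro h
      exact T.N0_ne e (by rw [← h])
  · have : ω.2 e = true := by simpa using hcut
    rwa [T.hit_uncut P B e ξ this]

theorem Ag.update {X : Finset V} {ω ω' : Cfg V d} (h : T.Ag X ω ω') (e : Dart V d)
    (b : Bool) : ∀ c ∈ T.EB X, Function.update ω'.2 e b c = Function.update ω.2 e b c := by
  intro c hc
  by_cases h' : c = e
  · subst h'; simp
  · rw [Function.update_of_ne h', Function.update_of_ne h', h.2 c hc]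

/-- the repair is local -/
theorem hit_pt [NeZero d] (hd : 3 ≤ d) (hG : G.IsTree) (P : Par) {B X : Finset V}
    (hX : X ⊆ B) {e : Dart V d} (he : e ∈ T.EB B) {ω ω' : Cfg V d}
    (hcut : ω.2 e = false) (hcut' : ω'.2 e = false)
    (hc : Cons (T.nof B ω.2) ω.1) (hc' : Cons (T.nof B ω'.2) ω'.1)
    (hcov : T.Cov P B e X ω) (hag : T.Ag X ω ω') (ξ : ℕ) :
    T.hit P B e ξ ω' = T.pt X (T.hit P B e ξ ω) ω' := by
  obtain ⟨hcov', hk⟩ := kern_local hd hG T P B B X (Finset.Subset.refl B) hX e he ω ω' hcut hcut'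
    hc hc' hcov (fun v hv => (hag.1 v hv).symm) (fun c hc => (hag.2 c hc).symm) ξ
  have hoff := (kern_off hd hG T P B X hX e he ω' hcut' hc' hcov' ξ).1
  have heX : e ∈ T.EB X := by
    have h := T.mem_EB.mp he
    rw [T.mem_EB]
    have h0 := hcov.2 0 (T.N0 e) rfl
    refine ⟨hcov.1 e.1 h.1 (by simp), h.2.1, h0.1⟩
  rw [T.hit_cut P B e ξ hcut, T.hit_cut P B e ξ hcut']
  refine Prod.ext (funext fun v => ?_) (funext fun c => ?_)
  · by_cases hv : v ∈ X
    · rw [pt_fst_in hv]
      exact (hk v hv).symm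
    · rw [pt_fst_out hv]
      exact hoff v hv
  · by_cases hcX : c ∈ T.EB X
    · rw [pt_snd_in hcX]
      exact hag.update e true c hcX
    · rw [pt_snd_out hcX]
      have : c ≠ e := fun h => hcX (h ▸ heX)
      simp only [Function.update_of_ne this]

/-- the repair does not change the boundary colours of a covering set -/
theorem hit_bdC [NeZero d] (hd : 3 ≤ d) (hG : G.IsTree) (P : Par) {B X : Finset V}
    (hX : X ⊆ B) {e : Dart V d} (he : e ∈ T.EB B) {ω : Cfg V d}
    (hcut : ω.2 e = false)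
    (hc : Cons (T.nof B ω.2) ω.1)
    (hcov : T.Cov P B e X ω) (ξ : ℕ) :
    T.BdC B X (T.hit P B e ξ ω) ω := by
  rw [T.hit_cut P B e ξ hcut]
  exact fun a h1 h2 h3 => (kern_off hd hG T P B X hX e he ω hcut hc hcov ξ).2 a h1 h2 h3

/-- a repair far from `A` -/
theorem hit_far [NeZero d] (hd : 3 ≤ d) (hG : G.IsTree) (P : Par) {B A : Finset V}
    {e : Dart V d} (he : e ∈ T.EB B) {ρ ω : Cfg V d}
    (hcut : ω.2 e = false)
    (hbd : T.BdC B A ρ ω) (hρ : T.ConsOn (T.EB A) ρ)
    (hc : Cons (T.nof B ω.2) ω.1)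
    (hcov : T.Cov P B e (B \ A) ω) (ξ : ℕ) :
    T.hit P B e ξ (T.pt A ρ ω) = T.pt A ρ (T.hit P B e ξ ω) ∧
      ∀ v ∈ A, (T.hit P B e ξ ω).1 v = ω.1 v := by
  have he' := T.mem_EB.mp he
  have he1 : e.1 ∉ A := by
    have := hcov.1 e.1 he'.1 (by simp)
    exact (Finset.mem_sdiff.mp this).2
  have heA : e ∉ T.EB A := fun h => he1 (T.mem_EB.mp h).1
  have hsub : B \ A ⊆ B := Finset.sdiff_subset
  have hcut' : (T.pt A ρ ω).2 e = false := by rw [pt_snd_out heA]; exact hcut
  have hc' := cons_pt hbd hρ hc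
  have hag : T.Ag (B \ A) ω (T.pt A ρ ω) := by
    refine ⟨fun v hv => pt_fst_out (Finset.mem_sdiff.mp hv).2, fun c hc => pt_snd_out fun h => ?_⟩
    exact (Finset.mem_sdiff.mp (T.mem_EB.mp hc).1).2 (T.mem_EB.mp h).1
  obtain ⟨hcov', hk⟩ := kern_local hd hG T P B B (B \ A) (Finset.Subset.refl B) hsub e he ω
    (T.pt A ρ ω) hcut hcut' hc hc' hcov (fun v hv => (hag.1 v hv).symm)
    (fun c hc => (hag.2 c hc).symm) ξ
  have hoff := (kern_off hd hG T P B _ hsub e he ω hcut hc hcov ξ).1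
  have hoff' := (kern_off hd hG T P B _ hsub e he _ hcut' hc' hcov' ξ).1
  refine ⟨?_, fun v hv => ?_⟩
  · rw [T.hit_cut P B e ξ hcut, T.hit_cut P B e ξ hcut']
    refine Prod.ext (funext fun v => ?_) (funext fun c => ?_)
    · by_cases hv : v ∈ A
      · rw [pt_fst_in hv]
        change kern P _ _ ξ e (T.N0 e) v = _
        rw [hoff' v (by simp [hv]), pt_fst_in hv]
      · rw [pt_fst_out hv]
        change kern P _ _ ξ e (T.N0 e) v = kern P _ _ ξ e (T.N0 e) v
        by_cases hvB : v ∈ B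
        · exact (hk v (by simp [hv, hvB])).symm
        · rw [hoff' v (by simp [hvB]), hoff v (by simp [hvB]), pt_fst_out hv]
    · by_cases hcA : c ∈ T.EB A
      · have : c ≠ e := fun h => heA (h ▸ hcA)
        rw [pt_snd_in hcA]
        simp only [Function.update_of_ne this]
        rw [pt_snd_in hcA]
      · rw [pt_snd_out hcA]
        by_cases hce : c = e
        · subst hce; simp
        · simp only [Function.update_of_ne hce]
          rw [pt_snd_out hcA]
  · rw [T.hit_cut P B e ξ hcut]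
    exact hoff v (by simp [hv])

end PT

end FI
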