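import Pool.Agent.H99.FI.Chain
import Pool.Agent.H99.FI.Noise.Balls
import Pool.Agent.H99.FI.Noise.Local

/-!
# Job R (MP_bdd10f_pr): exponential tail of a chain, regions of a masked run (helper81)
-/

set_option autoImplicit false

namespace FI

open Finset Function
open scoped Classical

namespace PT

section aux

variable {V : Type*} {G : SimpleGraph V} {d : ℕ} {T : PT G d}

theorem pt_self {B A : Finset V} {ω₀ ω : Cfg V d} (h : Off (T.cA B A) ω₀ ω) :
    T.pt A ω₀ ω = ω := by
  have h1 := ag_of_off h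
  unfold pt
  refine Prod.ext (funext fun v => ?_) (funext fun e => ?_)
  · simp only
    split_ifs with hv
    · exact (h1.1 v hv).symm
    · rfl
  · simp only
    split_ifs with he
    · exact (h1.2 e he).symm
    · rfl

/-- a closed set contains as many vertices as the chain has positions -/
theorem clX_card (hG : G.IsTree) {B X : Finset V} {e : Dart V d} {ω : Cfg V d}
    (hecd : T.cd e = e) (h2 : (T.N0 e).1 ∈ X)
    (hcut : ω.2 e = false) (hcons : T.ConsOn (T.EB X) ω) (hcl : T.ClX B e X ω) {n : ℕ}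
    {f : Dart V d}
    (hf : pos (T.nof B ω.2) ω.1 (T.sw e ω) (T.N0 e) n = some f) : n + 1 ≤ X.card := by
  by_cases hkl : col ω.1 e = col ω.1 (T.N0 e)
  · cases n with
    | zero => exact Finset.card_pos.mpr ⟨_, h2⟩
    | succ n =>
      exfalso
      obtain ⟨g, hg⟩ := pos_le hf (show 1 ≤ n + 1 by omega)
      obtain ⟨g', hg', hN⟩ := pos_succ99.mp hg
      simp only [pos, Option.some.injEq] at hg'
      subst hg'
      have h3 : T.sw e ω (col ω.1 (T.N0 e)) = col ω.1 (T.N0 e) := by
        unfold sw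
        rw [Equiv.swap_apply_right, hkl]
      rw [h3, dt_col', (T.nof_none_of_cut hecd hcut).2] at hN
      exact absurd hN (by simp)
  · have hpos : ∀ m, m ≤ n → ∃ g, pos (T.nof B ω.2) ω.1 (T.sw e ω) (T.N0 e) m = some g :=
      fun m hm => pos_le hf hm
    have hinX : ∀ m g, pos (T.nof B ω.2) ω.1 (T.sw e ω) (T.N0 e) m = some g → g.1 ∈ X :=
      fun m g hg => (hcl m g hg).1
    have hcons' : ∀ m g f, pos (T.nof B ω.2) ω.1 (T.sw e ω) (T.N0 e) m = some g →
        T.nof B ω.2 (dt ω.1 g.1 (T.sw e ω (col ω.1 g))) = some f →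
        col ω.1 (dt ω.1 g.1 (T.sw e ω (col ω.1 g))) = col ω.1 f := by
      intro m g f hg hN
      have h4 := hcl m g hg
      have h5 := T.nof_some.mp hN
      have h6 := h4.2 h5.2.1
      have h7 := hcons _ (T.cd_mem_EB (a := dt ω.1 g.1 (T.sw e ω (col ω.1 g))) h4.1 h6) h5.2.2.1
      rw [← h5.2.2.2]
      rcases T.cd_cases (dt ω.1 g.1 (T.sw e ω (col ω.1 g))) with h8 | h8
      · rw [h8] at h7
        exact h7
      · rw [h8, T.inv] at h7
        exact h7.symm
    have : Nonempty (Dart V d) := ⟨e⟩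
    choose! g hg using hpos
    have hdist : ∀ m, m ≤ n → G.dist (g m).1 (T.N0 e).1 = m := by
      intro m hm
      obtain ⟨_, p, hp, hw⟩ := pos_info (N := T.nof B ω.2) (x := ω.1) hkl (b := T.N0 e)
        (Or.inr rfl) (n := m) (f := g m)
        (fun m' _ g' f' h1 h2 => hcons' m' g' f' h1 h2) (hg m hm)
      have := T.wk_dist hG (fun _ _ h => (T.nof_some.mp h).2.2.2) hw
      rw [hp] at this
      exact this.1
    calc n + 1 = (range (n + 1)).card := (Finset.card_range _).symm
      _ ≤ X.card := by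
        refine Finset.card_le_card_of_injOn (fun m => (g m).1) ?_ ?_
        · intro m hm
          have hm' : m ≤ n := by
            have := Finset.mem_range.mp (Finset.mem_coe.mp hm)
            omega
          exact hinX m _ (hg m hm')
        · intro m hm m' hm' hmm
          have h1 : m ≤ n := by
            have := Finset.mem_range.mp (Finset.mem_coe.mp hm)
            omega
          have h2 : m' ≤ n := by
            have := Finset.mem_range.mp (Finset.mem_coe.mp hm')
            omega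
          have h3 := hdist m h1
          have h4 := hdist m' h2
          simp only at hmm
          rw [hmm] at h3
          omega

/-- the tail event -/
def Tail (T : PT G d) (B : Finset V) (e : Dart V d) (n : ℕ) (ω : Cfg V d) : Prop :=
  ω.2 e = false ∧ ∃ f, pos (T.nof B ω.2) ω.1 (T.sw e ω) (T.N0 e) n = some f

theorem tail_ag {B X : Finset V} {e : Dart V d} (heE : e ∈ T.EB X)
    {ω ω' : Cfg V d} (h : T.Ag X ω ω') (hc : T.ClX B e X ω) {n : ℕ} (ht : T.Tail B e n ω) :
    T.Tail B e n ω' := by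
  have he := T.mem_EB.mp heE
  obtain ⟨hcut, f, hf⟩ := ht
  refine ⟨by rw [h.2 e heE]; exact hcut, f, ?_⟩
  have hsw : T.sw e ω' = T.sw e ω := by
    unfold sw
    rw [h.col he.1, h.col he.2.2]
  rw [hsw, pos_ag h hf (fun m _ g hg => (hc m g hg).1) n le_rfl]
  exact hf

theorem chain_tail_aux [NeZero d] (hd : 3 ≤ d) {εl : ℝ} (hεl0 : 0 < εl) (hεl1 : εl < 1)
    (hG : G.IsTree) {B : Finset V} (hB : Cvx G B) {ε : Dart V d → ℝ} (hε : WOK ε)
    (hεl : ∀ e, εl ≤ ε e) {e : Dart V d} (he : e ∈ T.EB B) (n : ℕ) (ω : Cfg V d) :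
    T.EE ε B ∅ (fun ω => if T.Tail B e n ω then (1 : ℝ) else 0) ω ≤
      ((1 + εl) / εl * (1 + εl) ^ 2) * ((1 + εl)⁻¹) ^ n := by
  have heB := T.mem_EB.mp he
  set K : ℝ := 1 + εl with hK
  set t₀ : ℝ := K / εl with ht₀
  have hK1 : 1 ≤ K := by rw [hK]; linarith
  have hK0 : 0 < K := by linarith
  have ht1 : 1 ≤ t₀ := by
    rw [ht₀, le_div_iff₀ hεl0, hK]
    linarith
  have ht : εl * K + (1 - εl) * K * t₀ ≤ t₀ := by
    refine le_of_eq ?_
    rw [ht₀, hK]
    field_simp
    ring
  set H : Cfg V d → ℝ := fun ω => if T.Tail B e n ω then (1 : ℝ) else 0 with hH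
  have hH1 : ∀ ω, H ω ≤ 1 := by
    intro ω
    rw [hH]
    simp only
    split_ifs <;> norm_num
  have hcloB : Clo G e.1 B := hB _ heB.1
  have hclo1 : Clo G e.1 ({e.1} : Finset V) := Clo.singleton e.1
  set X₀ : Finset V := insert (T.N0 e).1 {e.1} with hX₀
  have hclo2 : Clo G e.1 X₀ := hclo1.insert hG (Finset.mem_singleton_self _) (T.adj e).symm
  have hX₀B : X₀ ⊆ B := by
    intro v hv
    rw [hX₀, Finset.mem_insert, Finset.mem_singleton] at hv
    rcases hv with rfl | rfl
    · exact heB.2.2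
    · exact heB.1
  have hcard : X₀.card = 2 := by
    rw [hX₀, Finset.card_insert_of_notMem, Finset.card_singleton]
    rw [Finset.mem_singleton]
    exact T.N0_ne e
  have h1X : e.1 ∈ X₀ := by rw [hX₀]; simp
  have h2X : (T.N0 e).1 ∈ X₀ := by rw [hX₀]; simp
  have heX : e ∈ T.EB X₀ := T.mem_EB.mpr ⟨h1X, heB.2.1, h2X⟩
  have hM : (0 : ℝ) ≤ (K⁻¹) ^ n := by positivity
  -- the exploration
  have key : ∀ ω' : Cfg V d, T.ConsOn (T.EB X₀) ω' →
      T.EE ε B X₀ H ω' ≤ (K / εl * K ^ 2) * (K⁻¹) ^ n := by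
    intro ω' hcons'
    have hex := explore (T := T) (ε := ε) (εl := εl) (K := K) (t₀ := t₀) (c := 1)
      (M := (K⁻¹) ^ n) (γ := fun _ => 0) hG hd hε hεl (r := e.1) (B := B) hK1 ht1 ht
      (fun _ => le_rfl) zero_le_one hM (CT := 0) le_rfl
      (fun a => by simp [PT.Th]) (A := X₀) (ρ := ω') (ω₀ := ω') (fun _ _ _ _ => rfl)
      (e := e) (Gd := fun _ _ => True) (fun _ _ _ _ _ _ _ _ => trivial) H ?_ X₀ ω'
      ⟨hclo2, Finset.Subset.refl _, hX₀B, h1X, h2X, ⟨fun _ _ => rfl, fun _ _ => rfl⟩, hcons',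
        trivial⟩
    · rw [hcard] at hex
      refine hex.trans (le_of_eq ?_)
      simp only [Finset.sum_const_zero, add_zero, mul_one, ht₀]
      ring
    · intro X ω'' hS hcl
      rw [pt_self hS.off] at hcl
      simp only [Finset.sum_const_zero, add_zero, mul_one]
      have heX' : e ∈ T.EB X := T.EB_mono hS.AX heX
      by_cases hT : T.Tail B e n ω''
      · have hc := clX_card hG heB.2.1 hS.e2 hT.1 hS.cons hcl hT.2.choose_spec
        have h1 : T.EE ε B X H ω'' ≤ 1 := by
          refine (EE_mono B X hε hH1 ω'').trans (le_of_eq ?_)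
          exact EE_one hG (by omega) ε hS.clo hcloB hS.XB ω''
        refine h1.trans ?_
        have h2 : K ^ X.card = K ^ (X.card - n) * K ^ n := by
          rw [← pow_add]
          congr 1
          omega
        rw [h2, mul_comm, mul_assoc, ← mul_pow, mul_inv_cancel₀ hK0.ne', one_pow, mul_one]
        exact one_le_pow₀ hK1
      · have h1 : T.EE ε B X H ω'' ≤ T.EE ε B X (fun _ => 0) ω'' := by
          refine EE_mono_off B X hε ω'' fun ω₃ hO => ?_
          have hag := ag_of_off hO
          have : ¬ T.Tail B e n ω₃ := by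
            intro hT3
            exact hT (tail_ag heX' hag.symm (clX_ag hS.e1 hS.e2 hag hcl) hT3)
          rw [hH]
          simp only
          rw [if_neg this]
        rw [EE_zero] at h1
        refine h1.trans ?_
        positivity
  rw [EE_root ε heB.1]
  have hstep : ∀ σ : Equiv.Perm (Fin d), T.EE ε B {e.1} H (Function.update ω.1 e.1 σ, ω.2) ≤
      (K / εl * K ^ 2) * (K⁻¹) ^ n := by
    intro σ
    rw [← EE_tower hG (by omega) ε hclo1 hclo2 hcloB (Finset.subset_insert _ _) hX₀B]
    refine (EE_mono_cons B {e.1} hε _ (F' := fun _ => (K / εl * K ^ 2) * (K⁻¹) ^ n)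
      fun ω' _ hc => ?_).trans (le_of_eq ?_)
    · refine key ω' fun c hcE hu => ?_
      refine hc c (T.EB_mono hX₀B hcE) ?_ hu
      intro hc1
      rw [T.mem_EB, Finset.mem_singleton, Finset.mem_singleton] at hc1
      exact T.N0_ne c (hc1.2.2.trans hc1.1.symm)
    · exact EE_const hG (by omega) ε hclo1 hcloB (by simpa using heB.1) _ _
  have hd0 : (0 : ℝ) < (d.factorial : ℝ) := by exact_mod_cast Nat.factorial_pos d
  calc (1 / (d.factorial : ℝ)) * ∑ σ : Equiv.Perm (Fin d),
      T.EE ε B {e.1} H (Function.update ω.1 e.1 σ, ω.2) ≤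
      (1 / (d.factorial : ℝ)) * ∑ _σ : Equiv.Perm (Fin d), (K / εl * K ^ 2) * (K⁻¹) ^ n :=
        mul_le_mul_of_nonneg_left (Finset.sum_le_sum fun σ _ => hstep σ) (by positivity)
    _ = (K / εl * K ^ 2) * (K⁻¹) ^ n := by
        rw [Finset.sum_const, Finset.card_univ, Fintype.card_perm, Fintype.card_fin, nsmul_eq_mul]
        field_simp

end aux

end PT

/-- exponential tail of the chain on the side of `N0 e` (use `PT.explore` with `γ = 0`, `c = 1`). -/
theorem chain_tail {d : ℕ} [NeZero d] (hd : 3 ≤ d) {εl : ℝ} (hεl0 : 0 < εl) (hεl1 : εl < 1) :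
    ∃ C θ : ℝ, 0 ≤ C ∧ 0 ≤ θ ∧ θ < 1 ∧
      ∀ (V : Type) (G : SimpleGraph V) (_ : G.IsTree) (T : PT G d) (B : Finset V) (_ : Cvx G B)
        (ε : Dart V d → ℝ) (_ : WOK ε) (_ : ∀ e, εl ≤ ε e) (e : Dart V d) (_ : e ∈ T.EB B)
        (n : ℕ) (ω : Cfg V d),
        T.EE ε B ∅ (fun ω => if ω.2 e = false ∧
          (∃ f, pos (T.nof B ω.2) ω.1 (T.sw e ω) (T.N0 e) n = some f) then (1 : ℝ) else 0) ω ≤
          C * θ ^ n := by
  refine ⟨(1 + εl) / εl * (1 + εl) ^ 2, (1 + εl)⁻¹, by positivity, by positivity, ?_, ?_⟩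
  · exact inv_lt_one_of_one_lt₀ (by linarith)
  · intro V G hG T B hB ε hε hεl e he n ω
    have h := PT.chain_tail_aux hd hεl0 hεl1 hG hB hε hεl he n ω
    unfold PT.Tail at h
    convert h

/-- the mask of the edges inside the ball of radius `ρ` around `o` -/
noncomputable def PT.msk {V : Type*} {G : SimpleGraph V} {d : ℕ} (T : PT G d) (o : V) (ρ : ℕ) :
    Dart V d → Bool :=
  fun e => decide (G.dist o e.1 ≤ ρ ∧ G.dist o (T.N0 e).1 ≤ ρ)

namespace PT

section mask

variable {V : Type*} {G : SimpleGraph V} {d : ℕ} {T : PT G d}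

/-- the probability (in the noise of the run) that a repair leaves `Z` -/
noncomputable def bad (T : PT G d) [NeZero d] (P : Par) (p : ℝ) (B Z : Finset V)
    (m : Dart V d → Bool) : List (Dart V d) → Cfg V d → ℝ
  | [], _ => 0
  | e :: L, ω => (1 - p) * bad T P p B Z m L ω + p * ((1 / (P.K : ℝ)) * ∑ ξ ∈ range P.K,
      (if m e = true ∧ ω.2 e = false ∧ ¬ T.Cov P B e Z ω then 1
        else bad T P p B Z m L (T.hs P B m e ξ ω)))

variable {P : Par} {p : ℝ} {B Z : Finset V} {m : Dart V d → Bool}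

theorem bad_cons [NeZero d] (e : Dart V d) (L : List (Dart V d)) (ω : Cfg V d) :
    T.bad P p B Z m (e :: L) ω =
      (1 - p) * T.bad P p B Z m L ω + p * ((1 / (P.K : ℝ)) * ∑ ξ ∈ range P.K,
      (if m e = true ∧ ω.2 e = false ∧ ¬ T.Cov P B e Z ω then 1
        else T.bad P p B Z m L (T.hs P B m e ξ ω))) := rfl

theorem bad_nonneg [NeZero d] (hp0 : 0 ≤ p) (hp1 : p ≤ 1) (L : List (Dart V d)) (ω : Cfg V d) :
    0 ≤ T.bad P p B Z m L ω := by
  induction L generalizing ω with
  | nil => exact le_rfl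
  | cons e L ih =>
    rw [bad_cons]
    have h1 : 0 ≤ ∑ ξ ∈ range P.K,
      (if m e = true ∧ ω.2 e = false ∧ ¬ T.Cov P B e Z ω then (1 : ℝ)
        else T.bad P p B Z m L (T.hs P B m e ξ ω)) := by
      refine Finset.sum_nonneg fun ξ _ => ?_
      split_ifs
      · exact zero_le_one
      · exact ih _
    have h2 := ih ω
    have h3 : 0 ≤ 1 - p := by linarith
    positivity

theorem cov_eqv {e : Dart V d} (he : e ∈ T.EB B) {ω ω' : Cfg V d} (h : T.Eqv B ω ω')
    (hc : T.Cov P B e Z ω) : T.Cov P B e Z ω' := by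
  have heB := T.mem_EB.mp he
  refine ⟨hc.1, fun n f hf => ?_⟩
  have e1 : col ω'.1 e = col ω.1 e := (col_local h.1 heB.1).symm
  have e2 : col ω'.1 (T.N0 e) = col ω.1 (T.N0 e) := (col_local h.1 heB.2.2).symm
  rw [e1, e2] at hf ⊢
  rw [← nof_local h.2] at hf
  have h1 := pos_local (N := T.nof B ω.2) (inB_nof ω.2) (x := ω.1) (y := ω'.1) h.1
    (Equiv.swap (col ω.1 e) (col ω.1 (T.N0 e))) (a := T.N0 e) heB.2.2 n
  rw [← h1.1] at hf
  have hfB := h1.2 f hf
  have h2 := hc.2 n f hf
  have e3 : col ω'.1 f = col ω.1 f := (col_local h.1 hfB).symm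
  rw [e3, ← dt_local h.1 hfB]
  exact h2

theorem bad_eqv [NeZero d] {L : List (Dart V d)} (hL : ∀ a ∈ L, a ∈ T.EB B) {ω ω' : Cfg V d}
    (h : T.Eqv B ω ω') : T.bad P p B Z m L ω = T.bad P p B Z m L ω' := by
  induction L generalizing ω ω' with
  | nil => rfl
  | cons e L ih =>
    have he := hL e (by simp)
    have hL' : ∀ a ∈ L, a ∈ T.EB B := fun a ha => hL a (by simp [ha])
    rw [bad_cons, bad_cons, ih hL' h]
    congr 3
    refine Finset.sum_congr rfl fun ξ _ => ?_
    rw [ih hL' (hs_local P m he ξ h)]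
    refine if_congr ?_ rfl rfl
    rw [h.2 e he]
    have hsymm : T.Eqv B ω' ω := ⟨fun v hv => (h.1 v hv).symm, fun e he => (h.2 e he).symm⟩
    constructor
    · rintro ⟨h1, h2, h3⟩
      exact ⟨h1, h2, fun h4 => h3 (cov_eqv he hsymm h4)⟩
    · rintro ⟨h1, h2, h3⟩
      exact ⟨h1, h2, fun h4 => h3 (cov_eqv he h h4)⟩

/-- the averages of functions bounded by one are bounded by one -/
theorem VP_le_one (hp0 : 0 ≤ p) (hp1 : p ≤ 1) {K : ℕ} (hK : 0 < K)
    (R R' : Dart V d → ℕ → Cfg V d → Cfg V d) (L : List (Dart V d))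
    {F : Cfg V d → Cfg V d → ℝ} (hF : ∀ ω ω', F ω ω' ≤ 1) (ω ω' : Cfg V d) :
    VP p K R R' L F ω ω' ≤ 1 := by
  have hKR : (0 : ℝ) < K := by exact_mod_cast hK
  induction L generalizing ω ω' with
  | nil => exact hF ω ω'
  | cons e L ih =>
    unfold VP
    have h1 : (1 / (K : ℝ)) * ∑ ξ ∈ range K, VP p K R R' L F (R e ξ ω) (R' e ξ ω') ≤ 1 := by
      calc (1 / (K : ℝ)) * ∑ ξ ∈ range K, VP p K R R' L F (R e ξ ω) (R' e ξ ω') ≤
          (1 / (K : ℝ)) * ∑ _ξ ∈ range K, (1 : ℝ) :=
            mul_le_mul_of_nonneg_left (Finset.sum_le_sum fun ξ _ => ih _ _) (by positivity)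
        _ = 1 := by
          rw [Finset.sum_const, Finset.card_range, nsmul_eq_mul]
          field_simp
    have h2 := ih ω ω'
    nlinarith

/-- comparison of the run with the masked run in the smaller volume -/
theorem VP_le_bad [NeZero d] (hd : 3 ≤ d) (hG : G.IsTree) (hK : 0 < P.K) (hp0 : 0 ≤ p) (hp1 : p ≤ 1)
    {B' : Finset V} (hB' : B' ⊆ B) (hZ : Z ⊆ B') {o : V} (ho : o ∈ Z)
    (hm : ∀ e ∈ T.EB B, m e = true → e ∈ T.EB Z) (L : List (Dart V d))
    (hL : ∀ a ∈ L, a ∈ T.EB B) (ω ω' : Cfg V d) (hc : Cons (T.nof B ω.2) ω.1)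
    (hc' : Cons (T.nof B' ω'.2) ω'.1) (hag : T.Eqv Z ω ω') :
    VP p P.K (T.hs P B m) (T.hs P B' m) L (fun ω ω' => if ω.1 o = ω'.1 o then 0 else 1) ω ω' ≤
      T.bad P p B Z m L ω := by
  have hKR : (0 : ℝ) < P.K := by exact_mod_cast hK
  induction L generalizing ω ω' with
  | nil =>
    unfold VP bad
    simp only
    rw [if_pos (hag.1 o ho)]
  | cons e L ih =>
    have he := hL e (by simp)
    have hL' : ∀ a ∈ L, a ∈ T.EB B := fun a ha => hL a (by simp [ha])
    rw [bad_cons]
    unfold VP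
    refine add_le_add (mul_le_mul_of_nonneg_left (ih hL' ω ω' hc hc' hag) (by linarith))
      (mul_le_mul_of_nonneg_left (mul_le_mul_of_nonneg_left
        (Finset.sum_le_sum fun ξ _ => ?_) (by positivity)) hp0)
    by_cases hbad : m e = true ∧ ω.2 e = false ∧ ¬ T.Cov P B e Z ω
    · rw [if_pos hbad]
      refine VP_le_one hp0 hp1 hK _ _ _ (fun ω ω' => ?_) _ _
      split_ifs <;> norm_num
    · rw [if_neg hbad]
      by_cases hme : m e = true
      · have heZ := hm e he hme
        have heB' : e ∈ T.EB B' := T.EB_mono hZ heZ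
        have hst := hag.2 e heZ
        by_cases hcut : ω.2 e = false
        · have hcov : T.Cov P B e Z ω := by
            by_contra hn
            exact hbad ⟨hme, hcut, hn⟩
          have hcut' : ω'.2 e = false := by rw [← hst]; exact hcut
          have hloc := kern_local hd hG T P B B' Z hB' hZ e heB' ω ω' hcut hcut' hc hc' hcov
            hag.1 hag.2 ξ
          have e1 : T.hs P B m e ξ ω =
              (kern P (T.nof B ω.2) ω.1 ξ e (T.N0 e), Function.update ω.2 e true) := by
            unfold PT.hs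
            rw [if_pos ⟨hme, hcut⟩]
          have e2 : T.hs P B' m e ξ ω' =
              (kern P (T.nof B' ω'.2) ω'.1 ξ e (T.N0 e), Function.update ω'.2 e true) := by
            unfold PT.hs
            rw [if_pos ⟨hme, hcut'⟩]
          rw [e1, e2]
          have hne : e ≠ T.N0 e := fun h => T.N0_ne e (congrArg Prod.fst h).symm
          have hcd := (T.mem_EB.mp he).2.1
          refine ih hL' _ _ ?_ ?_ ⟨hloc.2, fun c hcE => ?_⟩
          · have hnone := T.nof_none_of_cut (B := B) hcd hcut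
            have := kern_cons hd P (T.nof B ω.2) e (T.N0 e) (fun _ _ h => T.nof_symm h)
              (by rw [T.addE_nof he]; exact T.forest_nof hG B _) hnone.1 hnone.2 hne ω.1 hc ξ
            rw [T.addE_nof he] at this
            exact this
          · have hnone := T.nof_none_of_cut (B := B') hcd hcut'
            have := kern_cons hd P (T.nof B' ω'.2) e (T.N0 e) (fun _ _ h => T.nof_symm h)
              (by rw [T.addE_nof heB']; exact T.forest_nof hG B' _) hnone.1 hnone.2 hne ω'.1 hc' ξ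
            rw [T.addE_nof heB'] at this
            exact this
          · by_cases hce : c = e
            · subst hce
              simp only [Function.update_self]
            · simp only [Function.update_of_ne hce]
              exact hag.2 c hcE
        · have hcut' : ¬ ω'.2 e = false := by rw [← hst]; exact hcut
          have e1 : T.hs P B m e ξ ω = ω := by
            unfold PT.hs
            rw [if_neg (fun h => hcut h.2)]
          have e2 : T.hs P B' m e ξ ω' = ω' := by
            unfold PT.hs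
            rw [if_neg (fun h => hcut' h.2)]
          rw [e1, e2]
          exact ih hL' ω ω' hc hc' hag
      · have e1 : T.hs P B m e ξ ω = ω := by
          unfold PT.hs
          rw [if_neg (fun h => hme h.1)]
        have e2 : T.hs P B' m e ξ ω' = ω' := by
          unfold PT.hs
          rw [if_neg (fun h => hme h.1)]
        rw [e1, e2]
        exact ih hL' ω ω' hc hc' hag

/-- expectation of `bad` -/
theorem EE_bad [NeZero d] (hd : 3 ≤ d) (hG : G.IsTree) (hK : 0 < P.K) (hp0 : 0 ≤ p) (hp1 : p ≤ 1)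
    {εl b : ℝ}
    (hb : ∀ ε : Dart V d → ℝ, WOK ε → (∀ a, εl ≤ ε a) → ∀ e ∈ T.EB B, m e = true → ∀ ω,
      T.EE ε B ∅ (fun ω => if ω.2 e = false ∧ ¬ T.Cov P B e Z ω then (1 : ℝ) else 0) ω ≤ b)
    (L : List (Dart V d)) (hLn : L.Nodup) (hL : ∀ a ∈ L, a ∈ T.EB B)
    (ε : Dart V d → ℝ) (hε : WOK ε) (hεl : ∀ a, εl ≤ ε a) (hεL : ∀ a ∈ L, εl ≤ ε a * (1 - p))
    (ω : Cfg V d) :
    T.EE ε B ∅ (T.bad P p B Z m L) ω ≤ ((L.filter m).length : ℝ) * b := by
  have hKR : (0 : ℝ) < P.K := by exact_mod_cast hK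
  induction L generalizing ε with
  | nil =>
    have : T.bad P p B Z m [] = fun _ => 0 := rfl
    rw [this, EE_zero]
    simp
  | cons e L ih =>
    rw [List.nodup_cons] at hLn
    have he := hL e (by simp)
    have hL' : ∀ a ∈ L, a ∈ T.EB B := fun a ha => hL a (by simp [ha])
    have hεL' : ∀ a ∈ L, εl ≤ ε a * (1 - p) := fun a ha => hεL a (by simp [ha])
    by_cases hme : m e = true
    · have hhs : ∀ ξ (ω : Cfg V d), T.hs P B m e ξ ω = T.hit P B e ξ ω := by
        intro ξ ω
        unfold PT.hit PT.hs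
        simp only [hme]
      set F := T.bad P p B Z m L with hF
      have hF0 : ∀ ω, 0 ≤ F ω := fun ω => bad_nonneg hp0 hp1 L ω
      have h1 : ∀ ω, T.bad P p B Z m (e :: L) ω ≤
          ((1 - p) * F ω + p * ((1 / (P.K : ℝ)) * ∑ ξ ∈ range P.K, F (T.hit P B e ξ ω))) +
          (if ω.2 e = false ∧ ¬ T.Cov P B e Z ω then (1 : ℝ) else 0) := by
        intro ω
        rw [bad_cons, ← hF]
        by_cases hbad : ω.2 e = false ∧ ¬ T.Cov P B e Z ω
        · have h2 : ∑ ξ ∈ range P.K,
              (if m e = true ∧ ω.2 e = false ∧ ¬ T.Cov P B e Z ω then (1 : ℝ)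
                else F (T.hs P B m e ξ ω)) = (P.K : ℝ) := by
            rw [Finset.sum_congr rfl (fun ξ _ => if_pos ⟨hme, hbad.1, hbad.2⟩),
              Finset.sum_const, Finset.card_range, nsmul_eq_mul, mul_one]
          rw [h2, if_pos hbad, one_div, inv_mul_cancel₀ hKR.ne', mul_one]
          have h3 : 0 ≤ p * ((1 / (P.K : ℝ)) * ∑ ξ ∈ range P.K, F (T.hit P B e ξ ω)) :=
            mul_nonneg hp0 (mul_nonneg (by positivity) (Finset.sum_nonneg fun ξ _ => hF0 _))
          rw [one_div] at h3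
          linarith
        · rw [if_neg hbad, add_zero]
          refine le_of_eq ?_
          congr 3
          refine Finset.sum_congr rfl fun ξ _ => ?_
          rw [if_neg (fun h => hbad h.2), hhs]
      refine (EE_mono B ∅ hε h1 ω).trans ?_
      rw [EE_add]
      simp only
      rw [law_step hd hG P hK he ε p F ω]
      set ε' : Dart V d → ℝ := Function.update ε e (ε e * (1 - p)) with hε'
      have hε'1 : WOK ε' := by
        intro a
        rw [hε']
        by_cases hae : a = e
        · subst hae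
          rw [Function.update_self]
          have := hε a
          constructor
          · exact mul_nonneg this.1 (by linarith)
          · nlinarith [this.1, this.2]
        · rw [Function.update_of_ne hae]
          exact hε a
      have hε'2 : ∀ a, εl ≤ ε' a := by
        intro a
        rw [hε']
        by_cases hae : a = e
        · subst hae
          rw [Function.update_self]
          exact hεL a (by simp)
        · rw [Function.update_of_ne hae]
          exact hεl a
      have hε'3 : ∀ a ∈ L, εl ≤ ε' a * (1 - p) := by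
        intro a ha
        have hae : a ≠ e := fun h => hLn.1 (h ▸ ha)
        rw [hε', Function.update_of_ne hae]
        exact hεL' a ha
      have h2 := ih hLn.2 hL' ε' hε'1 hε'2 hε'3
      have h3 := hb ε hε hεl e he hme ω
      rw [List.filter_cons_of_pos hme, List.length_cons]
      push_cast
      linarith
    · have h1 : T.bad P p B Z m (e :: L) = T.bad P p B Z m L := by
        funext ω
        rw [bad_cons]
        have h2 : ∀ ξ ∈ range P.K,
            (if m e = true ∧ ω.2 e = false ∧ ¬ T.Cov P B e Z ω then (1 : ℝ)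
              else T.bad P p B Z m L (T.hs P B m e ξ ω)) = T.bad P p B Z m L ω := by
          intro ξ _
          rw [if_neg (fun h => hme h.1)]
          unfold PT.hs
          rw [if_neg (fun h => hme h.1)]
        rw [Finset.sum_congr rfl h2, Finset.sum_const, Finset.card_range, nsmul_eq_mul]
        field_simp
        ring
      rw [h1, List.filter_cons_of_neg hme]
      exact ih hLn.2 hL' ε hε hεl hεL'

/-- distances along a chain, upper bound -/
theorem pos_dist_le (hG : G.IsTree) {u : Dart V d → Bool} {x : St V d}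
    {τ : Equiv.Perm (Fin d)} {b : Dart V d} (n : ℕ) (f : Dart V d)
    (h : pos (T.nof B u) x τ b n = some f) : G.dist b.1 f.1 ≤ n := by
  induction n generalizing f with
  | zero =>
    simp only [pos, Option.some.injEq] at h
    rw [← h, SimpleGraph.dist_self]
  | succ n ih =>
    obtain ⟨g, hg, hN⟩ := pos_succ99.mp h
    have h1 := ih g hg
    have h2 := (T.nof_some.mp hN).2.2.2
    have h3 := dist_adj hG b.1 (T.adj (dt x g.1 (τ (col x g))))
    rw [h2, dt_fst'] at h3
    omega

end mask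

end PT

/-- Job R: a run with active edges only in the ball of radius `ρ` depends, up to a small
probability, only on the configuration in a larger ball. -/
theorem mask_stab {d : ℕ} [NeZero d] (hd : 3 ≤ d) {εl : ℝ} (hεl0 : 0 < εl) (hεl1 : εl < 1)
    (P : Par) (hK : 0 < P.K) (ρ : ℕ) {p : ℝ} (hp0 : 0 ≤ p) (hp1 : p ≤ 1) {δ : ℝ} (hδ : 0 < δ) :
    ∃ R : ℕ, ρ ≤ R ∧
      ∀ (V : Type) (G : SimpleGraph V) (_ : G.IsTree) (T : PT G d) (B' B : Finset V)
        (_ : B' ⊆ B) (_ : Cvx G B') (_ : Cvx G B) (o : V) (_ : ∀ w, G.dist o w ≤ R → w ∈ B')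
        (L : List (Dart V d)) (_ : L.Nodup) (_ : ∀ a ∈ L, a ∈ T.EB B)
        (ε : Dart V d → ℝ) (_ : WOK ε) (_ : ∀ e, εl ≤ ε e * (1 - p)),
        ∃ X : Cfg V d → ℝ, T.DepOn B X ∧ (∀ ω, 0 ≤ X ω) ∧ (∀ ω, T.EE ε B ∅ X ω ≤ δ) ∧
          ∀ ω ω' : Cfg V d, Cons (T.nof B ω.2) ω.1 → Cons (T.nof B' ω'.2) ω'.1 →
            (∀ v, G.dist o v ≤ R → ω.1 v = ω'.1 v) →
            (∀ e : Dart V d, G.dist o e.1 ≤ R → G.dist o (T.N0 e).1 ≤ R → ω.2 e = ω'.2 e) →
            VP p P.K (T.hs P B (T.msk o ρ)) (T.hs P B' (T.msk o ρ)) L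
              (fun ω ω' => if ω.1 o = ω'.1 o then 0 else 1) ω ω' ≤ X ω := by
  obtain ⟨C, θ, hC, hθ0, hθ1, htail⟩ := chain_tail hd hεl0 hεl1
  obtain ⟨n0, hn0⟩ : ∃ n0 : ℕ, (((d + 1) ^ ρ * d : ℕ) : ℝ) * (C * θ ^ n0) ≤ δ := by
    have h1 := (tendsto_pow_atTop_nhds_zero_of_lt_one hθ0 hθ1).const_mul
      ((((d + 1) ^ ρ * d : ℕ) : ℝ) * C)
    rw [mul_zero] at h1
    obtain ⟨n0, hn⟩ := (h1.eventually (gt_mem_nhds hδ)).exists
    exact ⟨n0, by rw [← mul_assoc]; exact hn.le⟩
  refine ⟨ρ + 2 * P.M + P.J + 2 + n0 + 1, by omega, ?_⟩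
  intro V G hG T B' B hB'B hB' hB o hball L hLn hL ε hε hεl
  set R := ρ + 2 * P.M + P.J + 2 + n0 + 1 with hR
  set Z := bl G o R with hZ
  have hmemZ : ∀ v, v ∈ Z ↔ G.dist o v ≤ R := fun v => mem_bl T hG
  have hZB' : Z ⊆ B' := fun w hw => hball w ((hmemZ w).mp hw)
  have hmsk : ∀ e, T.msk o ρ e = true → G.dist o e.1 ≤ ρ ∧ G.dist o (T.N0 e).1 ≤ ρ := by
    intro e he
    unfold PT.msk at he
    exact of_decide_eq_true he
  refine ⟨T.bad P p B Z (T.msk o ρ) L, fun ω ω' h1 h2 => PT.bad_eqv hL ⟨h1, h2⟩,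
    fun ω => PT.bad_nonneg hp0 hp1 L ω, fun ω => ?_, ?_⟩
  · have hle : ∀ a, ε a * (1 - p) ≤ ε a := fun a => by nlinarith [(hε a).1]
    have h1 := PT.EE_bad (T := T) (P := P) (p := p) (B := B) (Z := Z) (m := T.msk o ρ)
      (εl := εl) (b := C * θ ^ n0) hd hG hK hp0 hp1 ?_ L hLn hL ε hε
      (fun a => (hεl a).trans (hle a)) (fun a _ => hεl a) ω
    · refine h1.trans (le_trans (mul_le_mul_of_nonneg_right ?_ (by positivity)) hn0)
      have h2 : (L.filter (T.msk o ρ)).length ≤ (d + 1) ^ ρ * d := by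
        rw [← List.toFinset_card_of_nodup (hLn.filter _)]
        calc (L.filter (T.msk o ρ)).toFinset.card ≤
            ((bl G o ρ) ×ˢ (univ : Finset (Fin d))).card := by
              refine Finset.card_le_card fun a ha => ?_
              rw [List.mem_toFinset, List.mem_filter] at ha
              rw [Finset.mem_product]
              exact ⟨(mem_bl T hG).mpr (hmsk a ha.2).1, Finset.mem_univ _⟩
          _ ≤ (d + 1) ^ ρ * d := by
              rw [Finset.card_product, Finset.card_univ, Fintype.card_fin]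
              exact Nat.mul_le_mul_right _ (card_bl T hG o ρ)
      exact_mod_cast h2
    · intro ε' hε' hεl' e he hme ω
      obtain ⟨hme1, hme2⟩ := hmsk e hme
      refine le_trans (PT.EE_mono B ∅ hε' (fun ω => ?_) ω)
        (htail V G hG T B hB ε' hε' hεl' e he n0 ω)
      by_cases hbad : ω.2 e = false ∧ ¬ T.Cov P B e Z ω
      · rw [if_pos hbad, if_pos]
        refine ⟨hbad.1, ?_⟩
        have hncl : ¬ T.ClX B e Z ω := by
          intro hcl
          refine hbad.2 ((PT.cov_iff P B e Z ω).mpr ⟨fun v _ hv => ?_, hcl⟩)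
          rw [hmemZ]
          have := hG.connected.dist_triangle (u := o) (v := e.1) (w := v)
          omega
        unfold PT.ClX at hncl
        push Not at hncl
        obtain ⟨n, f, hf, hfar⟩ := hncl
        have hdf : R ≤ G.dist o f.1 := by
          by_cases hfZ : f.1 ∈ Z
          · have h3 := (hfar hfZ).2
            rw [hmemZ] at h3
            have h4 := dist_adj hG o (T.adj (dt ω.1 f.1
              (Equiv.swap (col ω.1 e) (col ω.1 (T.N0 e)) (col ω.1 f))))
            rw [dt_fst'] at h4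
            omega
          · rw [hmemZ] at hfZ
            omega
        have hdn := PT.pos_dist_le hG n f hf
        have h5 := hG.connected.dist_triangle (u := o) (v := (T.N0 e).1) (w := f.1)
        exact pos_le hf (show n0 ≤ n by omega)
      · rw [if_neg hbad]
        split_ifs <;> norm_num
  · intro ω ω' hc hc' h1 h2
    refine PT.VP_le_bad hd hG hK hp0 hp1 hB'B hZB' (by rw [hmemZ]; simp) ?_ L hL ω ω' hc hc'
      ⟨fun v hv => h1 v ((hmemZ v).mp hv), fun e he => ?_⟩
    · intro e he hme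
      obtain ⟨hme1, hme2⟩ := hmsk e hme
      rw [T.mem_EB] at he ⊢
      rw [hmemZ, hmemZ]
      exact ⟨by omega, he.2.1, by omega⟩
    · rw [T.mem_EB] at he
      exact h2 e ((hmemZ _).mp he.1) ((hmemZ _).mp he.2.2)

end FI
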