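import Pool.Agent.H99.FI.Inf.Claim

/-!
# FI: influence of one repair, masked runs
-/

set_option autoImplicit false

namespace FI

open Finset Function
open scoped Classical

variable {V : Type*} {G : SimpleGraph V} {d : ℕ}

namespace PT

variable {T : PT G d}

/-- balls are closed -/
theorem clo_ball {r : V} {B : Finset V} (hB : Clo G r B) (R : ℕ) :
    Clo G r (B.filter (fun x => G.dist r x ≤ R)) := by
  refine ⟨Finset.mem_filter.mpr ⟨hB.1, by simp⟩, fun v hv w hw hd' => ?_⟩
  rw [Finset.mem_filter] at hv ⊢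
  exact ⟨hB.2 v hv.1 w hw hd', by omega⟩

/-- expectation from the root through a larger explored set -/
theorem EE_le_root [NeZero d] (hd : 3 ≤ d) (hG : G.IsTree) {ε : Dart V d → ℝ} (hε : WOK ε)
    {r : V} {A₁ B : Finset V} (hA₁ : Clo G r A₁) (hB : Clo G r B) (hAB : A₁ ⊆ B)
    (F : Cfg V d → ℝ) (M : ℝ)
    (h : ∀ ω, T.ConsOn (T.EB A₁) ω → T.EE ε B A₁ F ω ≤ M) (ω : Cfg V d) :
    T.EE ε B ∅ F ω ≤ M := by
  have hr : Clo G r {r} := Clo.singleton r
  have hrA : ({r} : Finset V) ⊆ A₁ := by simpa using hA₁.1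
  have h0 : T.EB {r} = ∅ := by
    ext c
    simp only [T.mem_EB, Finset.mem_singleton, Finset.notMem_empty, iff_false]
    rintro ⟨h1, _, h3⟩
    exact T.N0_ne c (h3.trans h1.symm)
  have hone : ∀ ω, T.EE ε B {r} F ω ≤ M := by
    intro ω
    rw [← EE_tower hG (by omega) ε hr hA₁ hB hrA hAB F ω]
    refine (EE_mono_cons B {r} hε (F' := fun _ => M) ω fun ω' _ hc => ?_).trans (le_of_eq ?_)
    · refine h ω' fun c hcA hu => hc c (T.EB_mono hAB hcA) (by rw [h0]; simp) hu
    · exact EE_const hG (by omega) ε hr hB (by simpa using hB.1) M ω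
  rw [EE_root ε hB.1]
  calc (1 / (d.factorial : ℝ)) * ∑ σ : Equiv.Perm (Fin d),
        T.EE ε B {r} F (Function.update ω.1 r σ, ω.2) ≤
        (1 / (d.factorial : ℝ)) * ∑ _σ : Equiv.Perm (Fin d), M :=
          mul_le_mul_of_nonneg_left (Finset.sum_le_sum fun σ _ => hone _) (by positivity)
    _ = M := by
          rw [Finset.sum_const, Finset.card_univ, Fintype.card_perm, Fintype.card_fin,
            nsmul_eq_mul]
          field_simp

/-- the influence of one repair -/
theorem influence [NeZero d] (hd : 3 ≤ d) (hG : G.IsTree) (P : Par) (hKP : 0 < P.K)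
    {B : Finset V} (hB : Cvx G B) {o : V} {γ : V → ℝ} {εl K t₀ CT C₄ a b p : ℝ} {Nb : ℕ}
    (N : InfNum T P B o γ εl K t₀ CT C₄ a b p Nb)
    (L : List (Dart V d)) (hL : L.Nodup) (hLB : ∀ e ∈ L, e ∈ T.EB B)
    (hw : ∀ v, Real.exp (a * wL G (K * (1 - εl) / ((d : ℝ) - 1)) L v) ≤ K)
    (hg : ∀ v, gL G (K * (1 - εl) / ((d : ℝ) - 1)) b B γ L v ≤ 2 * γ v)
    (ε : Dart V d → ℝ) (hε : WOK ε) (hεl : ∀ e, εl ≤ if e ∈ L then ε e * (1 - p) else ε e)
    {e : Dart V d} (he : e ∈ T.EB B) (heL : e ∉ L) (ω₀ : Cfg V d) :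
    T.EE ε B ∅ (fun ω => if ω.2 e = false then (1 / (P.K : ℝ)) * ∑ ξ ∈ range P.K,
      VP p P.K (T.hit P B) (T.hit P B) L (lo o) ω (T.hit P B e ξ ω) else 0) ω₀ ≤
      2 * (t₀ * (1 + CT)) * K ^ Nb * C₄ * γ e.1 := by
  have hd1 : (0 : ℝ) < (d : ℝ) - 1 := by
    have : (3 : ℝ) ≤ d := by exact_mod_cast hd
    linarith
  have hKPR : (0 : ℝ) < P.K := by exact_mod_cast hKP
  have hεl1 : 0 < 1 - εl := by linarith [N.εl1]
  have hK0 : 0 < K := by linarith [N.K1]
  set q := K * (1 - εl) / ((d : ℝ) - 1) with hq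
  have hq0 : 0 ≤ q := by rw [hq]; positivity
  have heB := T.mem_EB.mp he
  have hBe := hB e.1 heB.1
  have hεl0 : ∀ c, εl ≤ ε c := by
    intro c
    refine (hεl c).trans ?_
    split_ifs
    · have := (hε c).1
      have := N.p0
      nlinarith
    · exact le_rfl
  set A₁ := B.filter (fun x => G.dist e.1 x ≤ 2 * P.M + P.J + 2) with hA₁
  have hcl : Clo G e.1 A₁ := clo_ball hBe _
  have hA₁B : A₁ ⊆ B := Finset.filter_subset _ _
  have he1 : e.1 ∈ A₁ := hcl.1
  have he2 : (T.N0 e).1 ∈ A₁ := by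
    rw [hA₁, Finset.mem_filter]
    refine ⟨heB.2.2, ?_⟩
    have : G.dist e.1 (T.N0 e).1 = 1 := SimpleGraph.dist_eq_one_iff_adj.mpr (T.adj e)
    omega
  have hball : ∀ v ∈ B, G.dist e.1 v ≤ 2 * P.M + P.J + 2 → v ∈ A₁ := fun v hv h =>
    Finset.mem_filter.mpr ⟨hv, h⟩
  have ht0 : 0 ≤ t₀ * (1 + CT) := mul_nonneg (by linarith [N.t1]) (by linarith [N.CT0])
  refine EE_le_root hd hG hε hcl hBe hA₁B _ _ (fun ω₁ hω₁ => ?_) ω₀
  -- exploration
  have hexp : T.EE ε B A₁ (fun ω => if ω.2 e = false then (1 / (P.K : ℝ)) * ∑ ξ ∈ range P.K,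
      VP p P.K (T.hit P B) (T.hit P B) L (lo o) ω (T.hit P B e ξ ω) else 0) ω₁ ≤
      (2 * (t₀ * (1 + CT))) * (K ^ A₁.card * (0 + ∑ v ∈ A₁, γ v)) := by
    refine explore (T := T) (A := A₁) (ρ := ω₁) (ω₀ := ω₁) (r := e.1) (e := e)
      (Gd := fun _ _ => True) hG hd hε hεl0 N.K1 N.t1 N.ht N.γ0 le_rfl (by norm_num)
      N.CT0 N.hTh (fun _ _ _ _ => rfl) (fun _ _ _ _ _ _ _ _ => trivial) _ ?_ A₁ ω₁
      ⟨hcl, Finset.Subset.refl _, hA₁B, he1, he2, Off.refl _ _, hω₁, trivial⟩
    intro X ω hS hclX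
    have hpt : T.pt A₁ ω₁ ω = ω := pt_of_ag (ag_of_off hS.off)
    rw [hpt] at hclX
    have heX : e ∈ T.EB X := by
      rw [T.mem_EB]
      exact ⟨hS.e1, heB.2.1, hS.e2⟩
    have hEBX := T.EB_mono hS.XB
    have hrhs : Psi G q a b B γ L X ≤ 2 * (K ^ X.card * (0 + ∑ v ∈ X, γ v)) := by
      have := Psi_le_of_subset (G := G) (a := a) hq0 N.b0 N.γ0 N.K1 hw hg (Finset.empty_subset X)
      simpa using this
    refine le_trans ?_ hrhs
    have hΨ : 0 ≤ Psi G q a b B γ L X := Psi_nonneg hq0 N.b0 N.γ0 L X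
    by_cases hcut : ω.2 e = false
    swap
    · refine le_trans (EE_mono_cons B X hε (F' := fun _ => 0) ω fun ω' hO _ => ?_) ?_
      · rw [if_neg]
        rw [(ag_of_off hO).2 e heX]
        exact hcut
      · rw [EE_zero]; exact hΨ
    by_cases hex : ∃ ω', Off (T.cA B X) ω ω' ∧ Cons (T.nof B ω'.2) ω'.1
    swap
    · refine le_trans (EE_mono_cons B X hε (F' := fun _ => 0) ω fun ω' hO hc => ?_) ?_
      · exact absurd ⟨ω', hO, cons_off99 hO hS.cons hc⟩ hex
      · rw [EE_zero]; exact hΨ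
    obtain ⟨ωs, hOs, hcs⟩ := hex
    have hags := ag_of_off hOs
    have hcovs : T.Cov P B e X ωs :=
      (cov_iff P B e X ωs).mpr ⟨fun v hv h => hS.AX (hball v hv h),
        clX_ag hS.e1 hS.e2 hags hclX⟩
    have hcuts : ωs.2 e = false := by rw [hags.2 e heX]; exact hcut
    set ρ₁ : ℕ → Cfg V d := fun ξ => T.hit P B e ξ ωs with hρ₁
    have hstep : T.EE ε B X (fun ω => if ω.2 e = false then (1 / (P.K : ℝ)) * ∑ ξ ∈ range P.K,
        VP p P.K (T.hit P B) (T.hit P B) L (lo o) ω (T.hit P B e ξ ω) else 0) ω ≤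
        T.EE ε B X (fun ω' => (1 / (P.K : ℝ)) * ∑ ξ ∈ range P.K,
          VP p P.K (T.hit P B) (T.hit P B) L (lo o) ω' (T.pt X (ρ₁ ξ) ω')) ω := by
      refine EE_mono_cons B X hε ω fun ω' hO hc => le_of_eq ?_
      have hc' := cons_off99 hO hS.cons hc
      have hag := ag_of_off hO
      have hag' : T.Ag X ωs ω' := hags.symm.trans hag
      have hcut' : ω'.2 e = false := by rw [hag.2 e heX]; exact hcut
      rw [if_pos hcut']
      congr 1
      refine Finset.sum_congr rfl fun ξ _ => ?_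
      rw [hit_pt hd hG P hS.XB he hcuts hcut' hcs hc' hcovs hag' ξ]
    refine hstep.trans ?_
    rw [congrFun (EE_smul ε B X (1 / (P.K : ℝ)) _) ω, congrFun (EE_sum ε B X _ _) ω]
    have hone : ∀ ξ ∈ range P.K, T.EE ε B X
        (fun ω' => VP p P.K (T.hit P B) (T.hit P B) L (lo o) ω' (T.pt X (ρ₁ ξ) ω')) ω ≤
        Psi G q a b B γ L X := by
      intro ξ _
      have hb1 : T.BdC B X (ρ₁ ξ) ωs := hit_bdC hd hG P hS.XB he hcuts hcs hcovs ξ
      have hc1 : Cons (T.nof B (ρ₁ ξ).2) (ρ₁ ξ).1 := hit_cons hd hG P he ξ hcs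
      refine claim hd hG P hKP hB N L hL hLB hw hg ε hε hεl hS.clo hS.XB hS.cons
        (consOn_mono hEBX (cons_iff.mp hc1)) (hb1.of_ag hags.symm) ?_
      intro c hcL hcX
      have hce : c ≠ e := fun h => heL (h ▸ hcL)
      simp only [hρ₁]
      rw [T.hit_cut P B e ξ hcuts]
      simp only [Function.update_of_ne hce]
      exact hags.2 c hcX
    calc (1 / (P.K : ℝ)) * ∑ ξ ∈ range P.K, T.EE ε B X
          (fun ω' => VP p P.K (T.hit P B) (T.hit P B) L (lo o) ω' (T.pt X (ρ₁ ξ) ω')) ω ≤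
          (1 / (P.K : ℝ)) * ∑ ξ ∈ range P.K, Psi G q a b B γ L X :=
            mul_le_mul_of_nonneg_left (Finset.sum_le_sum hone) (by positivity)
      _ = Psi G q a b B γ L X := by
            rw [Finset.sum_const, Finset.card_range, nsmul_eq_mul]
            field_simp
  refine hexp.trans ?_
  have h1 : K ^ A₁.card ≤ K ^ Nb := pow_le_pow_right₀ N.K1 (N.hNb e.1)
  have h2 : ∑ v ∈ A₁, γ v ≤ C₄ * γ e.1 := N.hC₄ e.1
  have h3 : 0 ≤ ∑ v ∈ A₁, γ v := Finset.sum_nonneg fun v _ => N.γ0 v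
  rw [zero_add]
  calc 2 * (t₀ * (1 + CT)) * (K ^ A₁.card * ∑ v ∈ A₁, γ v) ≤
      2 * (t₀ * (1 + CT)) * (K ^ Nb * (C₄ * γ e.1)) := by gcongr
    _ = _ := by ring

/-- triangle inequality for pairs of runs -/
theorem VP_tri {p : ℝ} (hp0 : 0 ≤ p) (hp1 : p ≤ 1) (K : ℕ)
    (R R' R'' : Dart V d → ℕ → Cfg V d → Cfg V d) (L : List (Dart V d))
    (o : V) (ω ω' ω'' : Cfg V d) :
    VP p K R R'' L (lo o) ω ω'' ≤
      VP p K R R' L (lo o) ω ω' + VP p K R' R'' L (lo o) ω' ω'' := by
  induction L generalizing ω ω' ω'' with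
  | nil =>
    simp only [VP, lo]
    by_cases h1 : ω.1 o = ω'.1 o
    · rw [h1]
      simp
    · rw [if_neg h1]
      split_ifs <;> norm_num
  | cons e L ih =>
    simp only [VP]
    have h1 := ih ω ω' ω''
    have h2 : ∑ ξ ∈ range K, VP p K R R'' L (lo o) (R e ξ ω) (R'' e ξ ω'') ≤
        ∑ ξ ∈ range K, VP p K R R' L (lo o) (R e ξ ω) (R' e ξ ω') +
        ∑ ξ ∈ range K, VP p K R' R'' L (lo o) (R' e ξ ω') (R'' e ξ ω'') := by
      rw [← Finset.sum_add_distrib]
      exact Finset.sum_le_sum fun ξ _ => ih _ _ _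
    have h3 : (1 / (K : ℝ)) * ∑ ξ ∈ range K, VP p K R R'' L (lo o) (R e ξ ω) (R'' e ξ ω'') ≤
        (1 / (K : ℝ)) * (∑ ξ ∈ range K, VP p K R R' L (lo o) (R e ξ ω) (R' e ξ ω') +
        ∑ ξ ∈ range K, VP p K R' R'' L (lo o) (R' e ξ ω') (R'' e ξ ω'')) :=
      mul_le_mul_of_nonneg_left h2 (by positivity)
    have h4 : 0 ≤ 1 - p := by linarith
    nlinarith [mul_le_mul_of_nonneg_left h1 h4, mul_le_mul_of_nonneg_left h3 hp0]

theorem VP_self (p : ℝ) (K : ℕ) (R : Dart V d → ℕ → Cfg V d → Cfg V d) (L : List (Dart V d))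
    (o : V) (ω : Cfg V d) : VP p K R R L (lo o) ω ω = 0 := by
  induction L generalizing ω with
  | nil => simp [VP, lo]
  | cons e L ih => simp [VP, ih]

theorem VP_symm (p : ℝ) (K : ℕ) (R R' : Dart V d → ℕ → Cfg V d → Cfg V d)
    (L : List (Dart V d)) (o : V) (ω ω' : Cfg V d) :
    VP p K R R' L (lo o) ω ω' = VP p K R' R L (lo o) ω' ω := by
  induction L generalizing ω ω' with
  | nil => simp only [VP, lo, eq_comm]
  | cons e L ih =>
    simp only [VP]
    rw [ih ω ω']
    congr 3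
    exact Finset.sum_congr rfl fun ξ _ => ih _ _

/-- edges where nothing happens can be dropped -/
theorem VP_filter {p : ℝ} {K : ℕ} (hK : 0 < K)
    (R R' : Dart V d → ℕ → Cfg V d → Cfg V d) (L : List (Dart V d)) (f : Dart V d → Bool)
    (hR : ∀ e ∈ L, f e = false → ∀ ξ ω, R e ξ ω = ω)
    (hR' : ∀ e ∈ L, f e = false → ∀ ξ ω, R' e ξ ω = ω)
    (F : Cfg V d → Cfg V d → ℝ) (ω ω' : Cfg V d) :
    VP p K R R' L F ω ω' = VP p K R R' (L.filter f) F ω ω' := by
  have hKR : (K : ℝ) ≠ 0 := by positivity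
  induction L generalizing ω ω' with
  | nil => rfl
  | cons e L ih =>
    have ih' := fun ω ω' => ih (fun e he => hR e (by simp [he])) (fun e he => hR' e (by simp [he]))
      ω ω'
    by_cases hf : f e = true
    · rw [List.filter_cons_of_pos hf]
      simp only [VP]
      rw [ih' ω ω']
      simp only [ih']
    · have hf' : f e = false := by simpa using hf
      rw [List.filter_cons_of_neg (by simpa using hf)]
      simp only [VP]
      have : ∀ ξ, VP p K R R' L F (R e ξ ω) (R' e ξ ω') = VP p K R R' (L.filter f) F ω ω' := by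
        intro ξ
        rw [hR e (by simp) hf', hR' e (by simp) hf', ih']
      simp only [this, Finset.sum_const, Finset.card_range, nsmul_eq_mul]
      rw [ih' ω ω']
      field_simp
      ring

/-- dependence on the step functions only through the edges of the list -/
theorem VP_congr {p : ℝ} {K : ℕ} (R R' S S' : Dart V d → ℕ → Cfg V d → Cfg V d)
    (L : List (Dart V d)) (hR : ∀ e ∈ L, R e = S e) (hR' : ∀ e ∈ L, R' e = S' e)
    (F : Cfg V d → Cfg V d → ℝ) (ω ω' : Cfg V d) :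
    VP p K R R' L F ω ω' = VP p K S S' L F ω ω' := by
  induction L generalizing ω ω' with
  | nil => rfl
  | cons e L ih =>
    have ih' := fun ω ω' => ih (fun e he => hR e (by simp [he])) (fun e he => hR' e (by simp [he]))
      ω ω'
    simp only [VP]
    rw [hR e (by simp), hR' e (by simp)]
    simp only [ih']

/-- masked and full runs -/
theorem masked [NeZero d] (hd : 3 ≤ d) (hG : G.IsTree) (P : Par) (hKP : 0 < P.K)
    {B : Finset V} (hB : Cvx G B) {o : V} {γ : V → ℝ} {εl K t₀ CT C₄ a b p : ℝ} {Nb : ℕ}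
    (N : InfNum T P B o γ εl K t₀ CT C₄ a b p Nb) (m : Dart V d → Bool)
    (L : List (Dart V d)) (hL : L.Nodup) (hLB : ∀ e ∈ L, e ∈ T.EB B)
    (hw : ∀ v, Real.exp (a * wL G (K * (1 - εl) / ((d : ℝ) - 1)) L v) ≤ K)
    (hg : ∀ v, gL G (K * (1 - εl) / ((d : ℝ) - 1)) b B γ L v ≤ 2 * γ v)
    (ε : Dart V d → ℝ) (hε : WOK ε) (hεl : ∀ e, εl ≤ if e ∈ L then ε e * (1 - p) else ε e)
    (ω₀ : Cfg V d) :
    T.EE ε B ∅ (fun ω => VP p P.K (T.hs P B m) (T.hit P B) L (lo o) ω ω) ω₀ ≤
      p * (2 * (t₀ * (1 + CT)) * K ^ Nb * C₄) *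
        (L.map (fun e => if m e = true then 0 else γ e.1)).sum := by
  have hd1 : (0 : ℝ) < (d : ℝ) - 1 := by
    have : (3 : ℝ) ≤ d := by exact_mod_cast hd
    linarith
  have hKPR : (0 : ℝ) < P.K := by exact_mod_cast hKP
  have hεl1 : 0 < 1 - εl := by linarith [N.εl1]
  have hK0 : 0 < K := by linarith [N.K1]
  have hq0 : 0 ≤ K * (1 - εl) / ((d : ℝ) - 1) := by positivity
  set C₅ := 2 * (t₀ * (1 + CT)) * K ^ Nb * C₄ with hC₅
  induction L generalizing ε ω₀ with
  | nil =>
    have h0 : (fun ω : Cfg V d => VP p P.K (T.hs P B m) (T.hit P B) [] (lo o) ω ω) =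
        fun _ => 0 := by
      funext ω
      simp [VP, lo]
    rw [h0, EE_zero]
    simp
  | cons e L ih =>
    rw [List.nodup_cons] at hL
    have he : e ∈ T.EB B := hLB e (by simp)
    have hp0 := N.p0
    have hp1 := N.p1
    have hw' : ∀ v, Real.exp (a * wL G (K * (1 - εl) / ((d : ℝ) - 1)) L v) ≤ K := by
      intro v
      refine le_trans ?_ (hw v)
      rw [Real.exp_le_exp, wL_cons]
      have : 0 ≤ (K * (1 - εl) / ((d : ℝ) - 1)) ^ G.dist v e.1 := pow_nonneg hq0 _
      exact mul_le_mul_of_nonneg_left (by linarith) N.a0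
    have hg' : ∀ v, gL G (K * (1 - εl) / ((d : ℝ) - 1)) b B γ L v ≤ 2 * γ v := by
      intro v
      refine le_trans ?_ (hg v)
      rw [gL_cons]
      have := mul_nonneg N.b0 (mul_nonneg (pow_nonneg hq0 (G.dist v e.1))
        (add_nonneg (pS_nonneg (G := G) (B := B) N.γ0 v e.1) (N.γ0 e.1)))
      linarith
    have hεl' : ∀ c, εl ≤ if c ∈ L then ε c * (1 - p) else ε c := by
      intro c
      have h1 := hεl c
      by_cases hce : c = e
      · subst hce
        rw [if_pos (by simp)] at h1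
        rw [if_neg hL.1]
        have := (hε c).1
        nlinarith
      · by_cases hcL : c ∈ L
        · rw [if_pos (by simp [hcL])] at h1
          rwa [if_pos hcL]
        · rw [if_neg (by simp [hce, hcL])] at h1
          rwa [if_neg hcL]
    have hsumL : (((e :: L).map (fun e => if m e = true then 0 else γ e.1)).sum : ℝ) =
        (if m e = true then 0 else γ e.1) +
          (L.map (fun e => if m e = true then 0 else γ e.1)).sum := by simp
    by_cases hm : m e = true
    · -- active edge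
      have hhs : ∀ ξ ω, T.hs P B m e ξ ω = T.hit P B e ξ ω := by
        intro ξ ω
        unfold PT.hit PT.hs
        simp only [hm]
      set ε' : Dart V d → ℝ := Function.update ε e (ε e * (1 - p)) with hε'
      have hWε' : WOK ε' := by
        intro c
        by_cases hce : c = e
        · subst hce
          rw [hε', Function.update_self]
          have := hε c
          constructor
          · exact mul_nonneg this.1 (by linarith)
          · nlinarith
        · rw [hε', Function.update_of_ne hce]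
          exact hε c
      have hεl'' : ∀ c, εl ≤ if c ∈ L then ε' c * (1 - p) else ε' c := by
        intro c
        by_cases hce : c = e
        · subst hce
          have h1 := hεl c
          rw [if_pos (by simp)] at h1
          rw [if_neg hL.1, hε', Function.update_self]
          exact h1
        · rw [hε', Function.update_of_ne hce]
          exact hεl' c
      simp only [VP, hhs]
      rw [law_step hd hG P hKP he ε p
        (fun ω => VP p P.K (T.hs P B m) (T.hit P B) L (lo o) ω ω) ω₀, hsumL, if_pos hm, zero_add]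
      exact ih hL.2 (fun c hc => hLB c (by simp [hc])) hw' hg' ε' hWε' hεl'' ω₀
    · -- masked edge
      have hhs : ∀ ξ ω, T.hs P B m e ξ ω = ω := by
        intro ξ ω
        unfold PT.hs
        rw [if_neg (fun h => hm h.1)]
      have hle : ∀ ω, VP p P.K (T.hs P B m) (T.hit P B) (e :: L) (lo o) ω ω ≤
          VP p P.K (T.hs P B m) (T.hit P B) L (lo o) ω ω + p * (if ω.2 e = false then
            (1 / (P.K : ℝ)) * ∑ ξ ∈ range P.K,
            VP p P.K (T.hit P B) (T.hit P B) L (lo o) ω (T.hit P B e ξ ω) else 0) := by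
        intro ω
        simp only [VP, hhs]
        by_cases hcut : ω.2 e = false
        · rw [if_pos hcut]
          have h1 : ∑ ξ ∈ range P.K, VP p P.K (T.hs P B m) (T.hit P B) L (lo o) ω
              (T.hit P B e ξ ω) ≤ ∑ ξ ∈ range P.K,
              (VP p P.K (T.hs P B m) (T.hit P B) L (lo o) ω ω +
                VP p P.K (T.hit P B) (T.hit P B) L (lo o) ω (T.hit P B e ξ ω)) :=
            Finset.sum_le_sum fun ξ _ => VP_tri hp0 hp1 _ _ _ _ _ _ _ _ _
          rw [Finset.sum_add_distrib, Finset.sum_const, Finset.card_range, nsmul_eq_mul] at h1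
          set D := VP p P.K (T.hs P B m) (T.hit P B) L (lo o) ω ω with hD
          set S := ∑ ξ ∈ range P.K, VP p P.K (T.hit P B) (T.hit P B) L (lo o) ω
            (T.hit P B e ξ ω) with hS
          have h2 : (1 / (P.K : ℝ)) * ∑ ξ ∈ range P.K,
              VP p P.K (T.hs P B m) (T.hit P B) L (lo o) ω (T.hit P B e ξ ω) ≤
              (1 / (P.K : ℝ)) * ((P.K : ℝ) * D + S) :=
            mul_le_mul_of_nonneg_left h1 (by positivity)
          have h3 : (1 / (P.K : ℝ)) * ((P.K : ℝ) * D + S) = D + (1 / (P.K : ℝ)) * S := by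
            field_simp
          rw [h3] at h2
          nlinarith [mul_le_mul_of_nonneg_left h2 hp0]
        · have hun : ω.2 e = true := by simpa using hcut
          rw [if_neg hcut]
          simp only [T.hit_uncut P B e _ hun, Finset.sum_const, Finset.card_range, nsmul_eq_mul]
          have : (1 / (P.K : ℝ)) * ((P.K : ℝ) *
              VP p P.K (T.hs P B m) (T.hit P B) L (lo o) ω ω) =
              VP p P.K (T.hs P B m) (T.hit P B) L (lo o) ω ω := by field_simp
          rw [this]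
          linarith
      refine (EE_mono B ∅ hε hle ω₀).trans ?_
      rw [congrFun (EE_add ε B ∅ _ _) ω₀, congrFun (EE_smul ε B ∅ p _) ω₀, hsumL, if_neg hm]
      have h1 := ih hL.2 (fun c hc => hLB c (by simp [hc])) hw' hg' ε hε hεl' ω₀
      have h2 := influence hd hG P hKP hB N L hL.2 (fun c hc => hLB c (by simp [hc])) hw' hg'
        ε hε hεl' he hL.1 ω₀
      rw [← hC₅] at h2
      have h3 := mul_le_mul_of_nonneg_left h2 hp0
      calc _ ≤ p * C₅ * (L.map (fun e => if m e = true then 0 else γ e.1)).sum +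
            p * (C₅ * γ e.1) := add_le_add h1 h3
        _ = _ := by ring

end PT

end FI
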