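import Pool.Agent.H99.FI.Inf.Nums
import Pool.Agent.H99.FI.Inf.Region
import Pool.Agent.H99.FI.Noise.Out

/-!
# FI: the windows are local
-/

set_option autoImplicit false

namespace FI

open Finset Function
open scoped Classical

/-- sum over the unmasked edges -/
theorem sum_unmasked_le {V : Type} {G : SimpleGraph V} {d : ℕ} (hG : G.IsTree) (T : PT G d)
    (hd : 1 ≤ d) {β β' : ℝ} (hβ : 0 < β) (hββ : β < β') (hβ' : ((d : ℝ) - 1) * β' < 1)
    (o : V) (ρ : ℕ) {B : Finset V} {L : List (Dart V d)} (hL : L.Nodup)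
    (hLB : ∀ e ∈ L, e ∈ T.EB B) :
    (L.map (fun e => if T.msk o ρ e = true then 0 else β ^ G.dist e.1 o)).sum ≤
      d * Sq d β' * (β / β') ^ ρ := by
  have hβ'0 : 0 < β' := hβ.trans hββ
  have hr : β / β' ≤ 1 := (div_le_one hβ'0).mpr hββ.le
  have h1 : (L.map (fun e => if T.msk o ρ e = true then 0 else β ^ G.dist e.1 o)).sum ≤
      (L.map (fun e => (β / β') ^ ρ * β' ^ G.dist o e.1)).sum := by
    refine List.sum_le_sum fun e _ => ?_
    by_cases hm : T.msk o ρ e = true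
    · rw [if_pos hm]; positivity
    · rw [if_neg hm]
      have hge : ρ ≤ G.dist o e.1 := by
        by_contra hlt
        apply hm
        unfold PT.msk
        rw [decide_eq_true_eq]
        have t1 : G.dist o (T.N0 e).1 ≤ G.dist o e.1 + G.dist e.1 (T.N0 e).1 :=
          hG.connected.dist_triangle
        have t2 : G.dist e.1 (T.N0 e).1 = 1 := SimpleGraph.dist_eq_one_iff_adj.mpr (T.adj e)
        omega
      have e1 : β ^ G.dist e.1 o = (β / β') ^ G.dist o e.1 * β' ^ G.dist o e.1 := by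
        rw [← mul_pow, div_mul_cancel₀ _ hβ'0.ne', SimpleGraph.dist_comm]
      rw [e1]
      refine mul_le_mul_of_nonneg_right ?_ (by positivity)
      exact pow_le_pow_of_le_one (by positivity) hr hge
  refine h1.trans ?_
  have h2 := sum_list_le hL hLB (f := fun v => (β / β') ^ ρ * β' ^ G.dist o v)
    (fun v => by positivity)
  refine h2.trans ?_
  rw [← Finset.mul_sum]
  have h3 := sum_pow_le hG T hβ'0.le hβ' hd o B
  have hd0 : (0 : ℝ) ≤ d := by positivity
  calc (d : ℝ) * ((β / β') ^ ρ * ∑ u ∈ B, β' ^ G.dist o u) ≤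
      d * ((β / β') ^ ρ * Sq d β') := by gcongr
    _ = d * Sq d β' * (β / β') ^ ρ := by ring

theorem stab_window {d : ℕ} [NeZero d] (hd : 3 ≤ d) : StabWindow d := by
  intro s
  set εl : ℝ := 1 / 2 ^ (8 * s + 9) with hεl
  have hεl0 : 0 < εl := by rw [hεl]; positivity
  have hεl1 : εl < 1 := by
    rw [hεl, div_lt_one (by positivity)]
    exact one_lt_pow₀ (by norm_num) (by omega)
  obtain ⟨K, t₀, CT, C₄, β, β', p₀, Nb, hp₀, hp₀h, hβ0, hββ, hβ'1, hC₅, hnum⟩ :=
    infNum_exists hd (parS s) hεl0 hεl1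
  refine ⟨p₀, hp₀, ?_⟩
  intro p hp0 hp δ hδ
  have hp1 : p ≤ 1 := by linarith
  have hph : p ≤ 1 / 2 := by linarith
  have hKP : 0 < (parS s).K := by
    unfold parS
    positivity
  obtain ⟨a, b, hab⟩ := hnum p hp0 hp
  set C₅ := 2 * (t₀ * (1 + CT)) * K ^ Nb * C₄ with hC₅def
  have hβ'0 : 0 < β' := hβ0.trans hββ
  have hr1 : β / β' < 1 := (div_lt_one hβ'0).mpr hββ
  have hr0 : 0 ≤ β / β' := by positivity
  -- radius of the mask
  obtain ⟨ρ, hρ⟩ : ∃ ρ : ℕ, p * C₅ * (d * Sq d β' * (β / β') ^ ρ) ≤ δ / 2 := by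
    have h1 := (tendsto_pow_atTop_nhds_zero_of_lt_one hr0 hr1).const_mul (p * C₅ * (d * Sq d β'))
    rw [mul_zero] at h1
    obtain ⟨n0, hn⟩ := (h1.eventually (gt_mem_nhds (show 0 < δ / 2 by linarith))).exists
    refine ⟨n0, ?_⟩
    rw [← mul_assoc]
    exact hn.le
  obtain ⟨R, hR, hstab⟩ := mask_stab hd hεl0 hεl1 (parS s) hKP ρ hp0 hp1
    (show 0 < δ / 2 by linarith)
  refine ⟨R, ?_⟩
  intro V G hG T ε hε1 hε2 B' B hB'B hB' hB o hball
  have hε3 : ε ≤ 1 := hε2.trans (by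
    rw [div_le_one (by positivity)]
    exact one_le_pow₀ (by norm_num))
  have hε0 : 0 ≤ ε := le_trans (by positivity) hε1
  have hW : WOK (fun _ : Dart V d => ε) := fun _ => ⟨hε0, hε3⟩
  have hεp : εl ≤ ε * (1 - p) := by
    have h1 : (1 : ℝ) / 2 ^ (8 * s + 9) = (1 / 2 ^ (8 * s + 8)) * (1 / 2) := by
      rw [show 8 * s + 9 = (8 * s + 8) + 1 by ring, pow_succ]
      field_simp
    rw [hεl, h1]
    exact mul_le_mul hε1 (by linarith) (by norm_num) hε0
  have hεle : εl ≤ ε := hεp.trans (by nlinarith)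
  set L := T.lst B with hL
  have hLn : L.Nodup := T.lst_nodup B
  have hLB : ∀ e ∈ L, e ∈ T.toPT.EB B := fun e he => (T.lst_mem B e).mp he
  set L' := L.filter (fun e => decide (e ∈ T.toPT.EB B')) with hL'
  have hLn' : L'.Nodup := hLn.filter _
  have hLB' : ∀ e ∈ L', e ∈ T.toPT.EB B' := by
    intro e he
    rw [hL', List.mem_filter] at he
    exact of_decide_eq_true he.2
  have hεL : ∀ (L : List (Dart V d)) (e : Dart V d), εl ≤ if e ∈ L then ε * (1 - p) else ε := by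
    intro L e
    split_ifs
    · exact hεp
    · exact hεle
  obtain ⟨XM, hXM1, hXM2, hXM3, hXM4⟩ := hstab V G hG T.toPT B' B hB'B hB' hB o hball L hLn hLB
    (fun _ => ε) hW (fun _ => hεp)
  set D : Cfg V d → ℝ := fun ω => VP p (parS s).K (T.toPT.hs (parS s) B (T.toPT.msk o ρ))
    (T.toPT.hit (parS s) B) L (PT.lo o) ω ω with hD
  set D' : Cfg V d → ℝ := fun ω => VP p (parS s).K (T.toPT.hs (parS s) B' (T.toPT.msk o ρ))
    (T.toPT.hit (parS s) B') L' (PT.lo o) ω ω with hD'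
  have hdep : ∀ (B : Finset V) (L : List (Dart V d)), (∀ e ∈ L, e ∈ T.toPT.EB B) → o ∈ B →
      T.toPT.DepOn B (fun ω => VP p (parS s).K (T.toPT.hs (parS s) B (T.toPT.msk o ρ))
        (T.toPT.hit (parS s) B) L (PT.lo o) ω ω) := by
    intro B L hLB hoB ω ω' h1 h2
    have heqv : T.toPT.Eqv B ω ω' := ⟨h1, h2⟩
    refine VP_local (Q := T.toPT.Eqv B) (Q' := T.toPT.Eqv B) p (parS s).K
      (fun e he ξ ω ω' h => PT.hs_local (parS s) _ (hLB e he) ξ h)
      (fun e he ξ ω ω' h => PT.hs_local (parS s) _ (hLB e he) ξ h) ?_ heqv heqv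
    intro ω₁ ω₁' ω₂ ω₂' h h'
    unfold PT.lo
    rw [h.1 o hoB, h'.1 o hoB]
  have hbound : ∀ (B : Finset V) (L : List (Dart V d)), Cvx G B → L.Nodup →
      (∀ e ∈ L, e ∈ T.toPT.EB B) → ∀ ω,
      T.toPT.EE (fun _ => ε) B ∅ (fun ω => VP p (parS s).K
        (T.toPT.hs (parS s) B (T.toPT.msk o ρ)) (T.toPT.hit (parS s) B) L (PT.lo o) ω ω) ω ≤
        δ / 2 := by
    intro B L hB hLn hLB ω
    obtain ⟨N, hN⟩ := hab V G hG T.toPT B o
    obtain ⟨hw, hg⟩ := hN L hLn hLB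
    have h1 := PT.masked hd hG (parS s) hKP hB N (T.toPT.msk o ρ) L hLn hLB hw hg
      (fun _ => ε) hW (hεL L) ω
    refine h1.trans (le_trans ?_ hρ)
    refine mul_le_mul_of_nonneg_left ?_ (mul_nonneg hp0 hC₅)
    exact sum_unmasked_le hG T.toPT (by omega) hβ0 hββ hβ'1 o ρ hLn hLB
  have hD0 : ∀ ω, 0 ≤ D ω := fun ω => PT.VP_nonneg hp0 hp1 _ _ _ _ (PT.lo_nonneg o) _ _
  have hD'0 : ∀ ω, 0 ≤ D' ω := fun ω => PT.VP_nonneg hp0 hp1 _ _ _ _ (PT.lo_nonneg o) _ _
  have hoB' : o ∈ B' := hball o (by simp)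
  refine ⟨fun ω => D ω + XM ω, D', ?_, hdep B' L' hLB' hoB', ?_, hD'0, ?_, ?_, ?_⟩
  · intro ω ω' h1 h2
    have e1 : D ω = D ω' := hdep B L hLB (hB'B hoB') ω ω' h1 h2
    have e2 : XM ω = XM ω' := hXM1 ω ω' h1 h2
    change D ω + XM ω = D ω' + XM ω'
    rw [e1, e2]
  · exact fun ω => add_nonneg (hD0 ω) (hXM2 ω)
  · intro ω
    rw [congrFun (PT.EE_add (T := T.toPT) (fun _ => ε) B ∅ D XM) ω]
    have h1 := hbound B L hB hLn hLB ω
    have h2 := hXM3 ω
    linarith
  · intro ω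
    have h1 := hbound B' L' hB' hLn' hLB' ω
    linarith
  · intro ω ω' hc hc' hv he
    have h1 := hXM4 ω ω' hc hc' hv he
    have hmskB' : ∀ e ∈ L, T.toPT.msk o ρ e = true → e ∈ T.toPT.EB B' := by
      intro e he hm
      unfold PT.msk at hm
      rw [decide_eq_true_eq] at hm
      rw [T.toPT.mem_EB]
      exact ⟨hball _ (hm.1.trans hR), (T.toPT.mem_EB.mp (hLB e he)).2.1,
        hball _ (hm.2.trans hR)⟩
    have hloss : (fun ω ω' : Cfg V d => if ω.1 o = ω'.1 o then (0 : ℝ) else 1) = PT.lo o := rfl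
    rw [hloss] at h1 ⊢
    -- triangle inequality
    have t1 := PT.VP_tri hp0 hp1 (parS s).K (T.toPT.hs (parS s) B (fun _ => true))
      (T.toPT.hs (parS s) B (T.toPT.msk o ρ))
      (T.toPT.hs (parS s) B' (fun e => decide (e ∈ T.toPT.EB B'))) L o ω ω ω'
    have t2 := PT.VP_tri hp0 hp1 (parS s).K (T.toPT.hs (parS s) B (T.toPT.msk o ρ))
      (T.toPT.hs (parS s) B' (T.toPT.msk o ρ))
      (T.toPT.hs (parS s) B' (fun e => decide (e ∈ T.toPT.EB B'))) L o ω ω' ω'
    have t3 : VP p (parS s).K (T.toPT.hs (parS s) B (fun _ => true))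
        (T.toPT.hs (parS s) B (T.toPT.msk o ρ)) L (PT.lo o) ω ω = D ω := by
      rw [PT.VP_symm]
      rfl
    have t4 : VP p (parS s).K (T.toPT.hs (parS s) B' (T.toPT.msk o ρ))
        (T.toPT.hs (parS s) B' (fun e => decide (e ∈ T.toPT.EB B'))) L (PT.lo o) ω' ω' =
        D' ω' := by
      rw [PT.VP_filter hKP _ _ L (fun e => decide (e ∈ T.toPT.EB B'))]
      · refine PT.VP_congr _ _ _ _ _ (fun _ _ => rfl) ?_ _ _ _
        intro e he
        have h2 := hLB' e he
        funext ξ ω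
        unfold PT.hit PT.hs
        simp [h2]
      · intro e he hf ξ ω
        unfold PT.hs
        rw [if_neg]
        intro h
        have h2 := hmskB' e he h.1
        simp [h2] at hf
      · intro e he hf ξ ω
        unfold PT.hs
        rw [if_neg]
        intro h
        have h1 := h.1
        simp only at h1 hf
        rw [h1] at hf
        exact absurd hf (by simp)
    rw [t3] at t1
    rw [t4] at t2
    change _ ≤ D ω + XM ω + D' ω'
    linarith

end FI
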